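import Mathlib

set_option autoImplicit false

/-!
Weights on `ZMod q` which are almost invariant under given translations, and their Fourier transforms.
-/

open Finset

namespace Pool.Agent.Helper25K9.PC

open Real in
/-- the sine weights -/
noncomputable def gw (M : ℕ) (i : ℕ) : ℝ := Real.sin (π * i / (M + 1))

section weights

open Real

lemma gw_zero (M : ℕ) : gw M 0 = 0 := by simp [gw]

lemma gw_last (M : ℕ) : gw M (M + 1) = 0 := by
  unfold gw
  push_cast
  have h : ((M : ℝ) + 1) ≠ 0 := by positivity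
  rw [mul_div_cancel_right₀ _ h, Real.sin_pi]

lemma gw_nonneg {M i : ℕ} (hi : i ≤ M + 1) : 0 ≤ gw M i := by
  unfold gw
  have h : (0 : ℝ) < (M : ℝ) + 1 := by positivity
  refine Real.sin_nonneg_of_nonneg_of_le_pi (by positivity) ?_
  rw [div_le_iff₀ h]
  have : (i : ℝ) ≤ M + 1 := by exact_mod_cast hi
  nlinarith [Real.pi_pos]

lemma gw_one_pos {M : ℕ} (hM : 1 ≤ M) : 0 < gw M 1 := by
  unfold gw
  have h : (0 : ℝ) < (M : ℝ) + 1 := by positivity
  refine Real.sin_pos_of_pos_of_lt_pi (by positivity) ?_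
  rw [div_lt_iff₀ h]
  have : (1 : ℝ) ≤ M := by exact_mod_cast hM
  push_cast
  nlinarith [Real.pi_pos]

lemma gw_rec (M i : ℕ) : gw M (i + 2) + gw M i = 2 * Real.cos (π / (M + 1)) * gw M (i + 1) := by
  unfold gw
  have e1 : π * ((i + 2 : ℕ) : ℝ) / (M + 1) = π * ((i + 1 : ℕ) : ℝ) / (M + 1) + π / (M + 1) := by
    push_cast; ring
  have e2 : π * (i : ℝ) / (M + 1) = π * ((i + 1 : ℕ) : ℝ) / (M + 1) - π / (M + 1) := by
    push_cast; ring
  rw [e1, e2, Real.sin_add, Real.sin_sub]
  ring

/-- almost invariance of the weights -/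
lemma gw_shift {M : ℕ} (hM : 1 ≤ M) (f : ℤ → ℝ) (hf : ∀ u, 0 ≤ f u) :
    2 * Real.cos (π / (M + 1)) * ∑ i ∈ range M, gw M (i + 1) * f i ≤
      ∑ i ∈ range M, gw M (i + 1) * f (i - 1) + ∑ i ∈ range M, gw M (i + 1) * f (i + 1) := by
  obtain ⟨K, rfl⟩ : ∃ K, M = K + 1 := ⟨M - 1, by omega⟩
  have h1 : ∑ i ∈ range (K + 1), gw (K + 1) (i + 2) * f i ≤
      ∑ i ∈ range (K + 1), gw (K + 1) (i + 1) * f (i - 1) := by
    rw [sum_range_succ, sum_range_succ', show gw (K + 1) (K + 2) = 0 from gw_last (K + 1), zero_mul,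
      add_zero]
    have e : ∑ i ∈ range K, gw (K + 1) (i + 1 + 1) * f (((i + 1 : ℕ) : ℤ) - 1) =
        ∑ i ∈ range K, gw (K + 1) (i + 2) * f i := by
      refine sum_congr rfl fun i _ => ?_
      congr 2
      push_cast
      ring
    rw [e]
    have := mul_nonneg (gw_nonneg (M := K + 1) (i := 0 + 1) (by omega))
      (hf (((0 : ℕ) : ℤ) - 1))
    linarith
  have h2 : ∑ i ∈ range (K + 1), gw (K + 1) i * f i ≤
      ∑ i ∈ range (K + 1), gw (K + 1) (i + 1) * f (i + 1) := by
    rw [sum_range_succ', gw_zero, zero_mul, add_zero, sum_range_succ]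
    have e : ∑ i ∈ range K, gw (K + 1) (i + 1) * f ((i + 1 : ℕ) : ℤ) =
        ∑ i ∈ range K, gw (K + 1) (i + 1) * f (i + 1) := by
      refine sum_congr rfl fun i _ => ?_
      congr 2
    rw [e]
    have := mul_nonneg (gw_nonneg (M := K + 1) (i := K + 1) (by omega)) (hf ((K : ℤ) + 1))
    linarith
  have h3 : 2 * Real.cos (π / (((K + 1 : ℕ) : ℝ) + 1)) *
      ∑ i ∈ range (K + 1), gw (K + 1) (i + 1) * f i =
      ∑ i ∈ range (K + 1), gw (K + 1) (i + 2) * f i + ∑ i ∈ range (K + 1), gw (K + 1) i * f i := by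
    rw [mul_sum, ← sum_add_distrib]
    refine sum_congr rfl fun i _ => ?_
    rw [← add_mul, gw_rec]
    ring
  linarith

/-- Almost invariant weights. -/
theorem exists_weight {q : ℕ} [NeZero q] {ι : Type*} [Fintype ι] [DecidableEq ι] (D : ι → ZMod q)
    {M : ℕ} (hM : 1 ≤ M) : ∃ γ : ZMod q → ℝ, (∀ t, 0 ≤ γ t) ∧ 0 < γ 0 ∧
      (∀ i t, 2 * Real.cos (π / (M + 1)) * γ t ≤ γ (t + D i) + γ (t - D i)) ∧
      (∀ t, γ t ≠ 0 → ∃ ρ : ι → ℤ, (∀ i, 0 ≤ ρ i ∧ ρ i < M) ∧ t = ∑ i, (ρ i : ZMod q) * D i) := by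
  classical
  suffices h : ∀ S : Finset ι, ∃ γ : ZMod q → ℝ, (∀ t, 0 ≤ γ t) ∧ 0 < γ 0 ∧
      (∀ i ∈ S, ∀ t, 2 * Real.cos (π / (M + 1)) * γ t ≤ γ (t + D i) + γ (t - D i)) ∧
      (∀ t, γ t ≠ 0 → ∃ ρ : ι → ℤ, (∀ i, 0 ≤ ρ i ∧ ρ i < M) ∧
        t = ∑ i ∈ S, (ρ i : ZMod q) * D i) by
    obtain ⟨γ, h1, h2, h3, h4⟩ := h univ
    exact ⟨γ, h1, h2, fun i => h3 i (mem_univ i), h4⟩
  intro S
  induction S using Finset.induction_on with
  | empty =>
    refine ⟨fun t => if t = 0 then 1 else 0, fun t => by positivity, by simp, by simp, ?_⟩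
    intro t ht
    have : t = 0 := by
      by_contra h
      simp [h] at ht
    refine ⟨fun _ => 0, fun _ => ⟨le_rfl, ?_⟩, by simp [this]⟩
    have : (1 : ℤ) ≤ M := by exact_mod_cast hM
    linarith
  | insert i S hi ih =>
    obtain ⟨γ, h1, h2, h3, h4⟩ := ih
    refine ⟨fun t => ∑ u ∈ range M, gw M (u + 1) * γ (t - (u : ZMod q) * D i), ?_, ?_, ?_, ?_⟩
    · intro t
      refine sum_nonneg fun u hu => mul_nonneg (gw_nonneg ?_) (h1 _)
      have := mem_range.1 hu
      omega
    · refine sum_pos' (fun u hu => mul_nonneg (gw_nonneg ?_) (h1 _)) ⟨0, mem_range.2 (by omega), ?_⟩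
      · have := mem_range.1 hu
        omega
      · simp only [Nat.cast_zero, zero_mul, sub_zero, zero_add]
        exact mul_pos (gw_one_pos hM) h2
    · intro k hk t
      rcases mem_insert.1 hk with rfl | hk
      · have key := gw_shift hM (fun u : ℤ => γ (t - (u : ZMod q) * D k)) (fun u => h1 _)
        have e1 : ∑ u ∈ range M, gw M (u + 1) * γ (t + D k - (u : ZMod q) * D k) =
            ∑ u ∈ range M, gw M (u + 1) * γ (t - (((u : ℤ) - 1 : ℤ) : ZMod q) * D k) := by
          refine sum_congr rfl fun u _ => ?_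
          congr 2
          push_cast
          ring
        have e2 : ∑ u ∈ range M, gw M (u + 1) * γ (t - D k - (u : ZMod q) * D k) =
            ∑ u ∈ range M, gw M (u + 1) * γ (t - (((u : ℤ) + 1 : ℤ) : ZMod q) * D k) := by
          refine sum_congr rfl fun u _ => ?_
          congr 2
          push_cast
          ring
        have e3 : ∑ u ∈ range M, gw M (u + 1) * γ (t - (u : ZMod q) * D k) =
            ∑ u ∈ range M, gw M (u + 1) * γ (t - ((u : ℤ) : ZMod q) * D k) := by
          refine sum_congr rfl fun u _ => ?_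
          push_cast
          rfl
        simp only
        rw [e1, e2, e3]
        exact key
      · simp only
        rw [mul_sum, ← sum_add_distrib]
        refine sum_le_sum fun u hu => ?_
        have hg : 0 ≤ gw M (u + 1) := gw_nonneg (by have := mem_range.1 hu; omega)
        have := h3 k hk (t - (u : ZMod q) * D i)
        have e1 : t + D k - (u : ZMod q) * D i = t - (u : ZMod q) * D i + D k := by ring
        have e2 : t - D k - (u : ZMod q) * D i = t - (u : ZMod q) * D i - D k := by ring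
        rw [e1, e2]
        have := mul_le_mul_of_nonneg_left this hg
        linarith
    · intro t ht
      obtain ⟨u, hu, hne⟩ := exists_ne_zero_of_sum_ne_zero ht
      obtain ⟨ρ, hρ1, hρ2⟩ := h4 _ (right_ne_zero_of_mul hne)
      refine ⟨Function.update ρ i u, ?_, ?_⟩
      · intro k
        by_cases hk : k = i
        · subst hk
          rw [Function.update_self]
          have := mem_range.1 hu
          constructor <;> omega
        · rw [Function.update_of_ne hk]
          exact hρ1 k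
      · rw [sum_insert hi, Function.update_self]
        have e : ∑ k ∈ S, ((Function.update ρ i (u : ℤ) k : ℤ) : ZMod q) * D k =
            ∑ k ∈ S, (ρ k : ZMod q) * D k := by
          refine sum_congr rfl fun k hk => ?_
          have hne : k ≠ i := by
            rintro rfl
            exact hi hk
          rw [Function.update_of_ne hne]
        rw [e, ← hρ2]
        push_cast
        ring

end weights

section fourier

variable {q : ℕ} [NeZero q]

/-- the real part of the standard character -/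
noncomputable def cs (t : ZMod q) : ℝ := (ZMod.stdAddChar t : ℂ).re

lemma cs_int (j : ℤ) : cs (j : ZMod q) = Real.cos (2 * Real.pi * (j / q)) := by
  unfold cs
  rw [ZMod.stdAddChar_coe]
  have e : (2 * Real.pi * Complex.I * j / q : ℂ) = ((2 * Real.pi * (j / q) : ℝ) : ℂ) * Complex.I := by
    push_cast
    ring
  rw [e, Complex.exp_ofReal_mul_I_re]

lemma cs_le_one (t : ZMod q) : cs t ≤ 1 := by
  have h : cs t = cs (((t.val : ℤ)) : ZMod q) := by simp
  rw [h, cs_int]
  exact Real.cos_le_one _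

open ComplexConjugate in
/-- The Fourier identity. -/
theorem fourier_id (γ : ZMod q → ℝ) (s : ZMod q) :
    ∑ a : ZMod q, ‖∑ t, (γ t : ℂ) * ZMod.stdAddChar (a * t)‖ ^ 2 * cs (a * s) =
      q * ∑ t, γ t * γ (t + s) := by
  classical
  have h1 : ∀ a : ZMod q, ((‖∑ t, (γ t : ℂ) * ZMod.stdAddChar (a * t)‖ ^ 2 * cs (a * s) : ℝ)) =
      (∑ t, ∑ t', (γ t : ℂ) * γ t' * ZMod.stdAddChar (a * (t - t' + s))).re := by
    intro a
    have h2 : (∑ t, ∑ t', (γ t : ℂ) * γ t' * (ZMod.stdAddChar (a * (t - t' + s)) : ℂ)) =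
        (∑ t, (γ t : ℂ) * ZMod.stdAddChar (a * t)) *
          conj (∑ t, (γ t : ℂ) * ZMod.stdAddChar (a * t)) * ZMod.stdAddChar (a * s) := by
      rw [map_sum, sum_mul_sum, sum_mul]
      refine sum_congr rfl fun t _ => ?_
      rw [sum_mul]
      refine sum_congr rfl fun t' _ => ?_
      rw [map_mul (starRingEnd ℂ), Complex.conj_ofReal, ← AddChar.map_neg_eq_conj]
      have e : a * (t - t' + s) = a * t + -(a * t') + a * s := by ring
      rw [e, AddChar.map_add_eq_mul, AddChar.map_add_eq_mul]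
      ring
    rw [h2, Complex.mul_conj, Complex.normSq_eq_norm_sq]
    rw [Complex.re_ofReal_mul]
    rfl
  simp only [h1]
  rw [← Complex.re_sum]
  have h3 : ∑ a : ZMod q, ∑ t, ∑ t', (γ t : ℂ) * γ t' * (ZMod.stdAddChar (a * (t - t' + s)) : ℂ) =
      ((q * ∑ t, γ t * γ (t + s) : ℝ) : ℂ) := by
    rw [sum_comm]
    push_cast
    rw [mul_sum]
    refine sum_congr rfl fun t _ => ?_
    rw [sum_comm]
    rw [sum_eq_single (t + s)]
    · rw [← mul_sum, AddChar.sum_mulShift _ (ZMod.isPrimitive_stdAddChar q)]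
      have : t - (t + s) + s = 0 := by ring
      rw [if_pos this, ZMod.card]
      push_cast
      ring
    · intro t' _ hne
      rw [← mul_sum, AddChar.sum_mulShift _ (ZMod.isPrimitive_stdAddChar q)]
      rw [if_neg, Nat.cast_zero, mul_zero]
      intro h
      apply hne
      have : t' = t + s - (t - t' + s) := by ring
      rw [this, h, sub_zero]
    · intro h
      exact absurd (mem_univ _) h
  rw [h3, Complex.ofReal_re]

/-- **The relation.** If `1 - cos (a T)` is bounded by `A ∑ (1 - cos (a D i))` for all `a`, and `M` is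
large, then `T` is a combination of the `D i` with coefficients less than `M`. -/
theorem exists_relation {ι : Type*} [Fintype ι] [DecidableEq ι] (D : ι → ZMod q) (T : ZMod q)
    {M : ℕ} (hM : 1 ≤ M) {A : ℝ} (hA : 0 ≤ A)
    (h : ∀ a : ZMod q, 1 - cs (a * T) ≤ A * ∑ i, (1 - cs (a * D i)))
    (hlt : A * Fintype.card ι * (1 - Real.cos (Real.pi / (M + 1))) < 1) :
    ∃ ρ : ι → ℤ, (∀ i, |ρ i| < M) ∧ T = ∑ i, (ρ i : ZMod q) * D i := by
  classical
  obtain ⟨γ, h1, h2, h3, h4⟩ := exists_weight D hM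
  by_contra hcon
  push Not at hcon
  have hq : (0 : ℝ) < q := by exact_mod_cast Nat.pos_of_ne_zero (NeZero.ne q)
  set S : ℝ := ∑ t, γ t * γ t with hS
  have hSpos : 0 < S := by
    refine sum_pos' (fun t _ => mul_nonneg (h1 t) (h1 t)) ⟨0, mem_univ _, mul_pos h2 h2⟩
  set W : ZMod q → ℝ := fun a => ‖∑ t, (γ t : ℂ) * ZMod.stdAddChar (a * t)‖ ^ 2 with hW
  have hF : ∀ s, ∑ a, W a * cs (a * s) = q * ∑ t, γ t * γ (t + s) := fun s => fourier_id γ s
  have hF0 : ∑ a, W a = q * S := by
    have := hF 0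
    have hc0 : cs (0 : ZMod q) = 1 := by
      have := cs_int (q := q) 0
      simpa using this
    simpa [hc0] using this
  -- no relation: the correlation with `T` vanishes
  have hT : ∑ t, γ t * γ (t + T) = 0 := by
    refine sum_eq_zero fun t _ => ?_
    by_contra hne
    obtain ⟨ρ₁, b1, e1⟩ := h4 t (left_ne_zero_of_mul hne)
    obtain ⟨ρ₂, b2, e2⟩ := h4 (t + T) (right_ne_zero_of_mul hne)
    refine hcon (fun i => ρ₂ i - ρ₁ i) (fun i => ?_) ?_
    · rw [abs_lt]
      have := b1 i
      have := b2 i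
      constructor <;> omega
    · have : T = (t + T) - t := by ring
      rw [this, e2]
      conv_lhs => rw [e1]
      rw [← sum_sub_distrib]
      refine sum_congr rfl fun i _ => ?_
      push_cast
      ring
  -- the correlations with the `D i`
  have hD : ∀ i, Real.cos (Real.pi / (M + 1)) * S ≤ ∑ t, γ t * γ (t + D i) := by
    intro i
    have e1 : ∑ t, γ t * γ (t - D i) = ∑ t, γ t * γ (t + D i) := by
      rw [← Equiv.sum_comp (Equiv.addRight (D i)) (fun t => γ t * γ (t - D i))]
      refine sum_congr rfl fun t _ => ?_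
      simp only [Equiv.coe_addRight, add_sub_cancel_right]
      ring
    have e2 : ∑ t, γ t * (2 * Real.cos (Real.pi / (M + 1)) * γ t) ≤
        ∑ t, γ t * (γ (t + D i) + γ (t - D i)) :=
      sum_le_sum fun t _ => mul_le_mul_of_nonneg_left (h3 i t) (h1 t)
    have e3 : ∑ t, γ t * (2 * Real.cos (Real.pi / (M + 1)) * γ t) =
        2 * (Real.cos (Real.pi / (M + 1)) * S) := by
      rw [hS, mul_sum, mul_sum]
      exact sum_congr rfl fun t _ => by ring
    have e4 : ∑ t, γ t * (γ (t + D i) + γ (t - D i)) = 2 * ∑ t, γ t * γ (t + D i) := by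
      simp only [mul_add, sum_add_distrib]
      rw [e1]
      ring
    rw [e3, e4] at e2
    linarith
  -- sum over `a`
  have hsum : ∑ a, W a * (1 - cs (a * T)) ≤ ∑ a, W a * (A * ∑ i, (1 - cs (a * D i))) :=
    sum_le_sum fun a _ => mul_le_mul_of_nonneg_left (h a) (by positivity)
  have l1 : ∑ a, W a * (1 - cs (a * T)) = q * S := by
    simp only [mul_sub, mul_one, sum_sub_distrib]
    rw [hF0, hF, hT]
    ring
  have l2 : ∑ a, W a * (A * ∑ i, (1 - cs (a * D i))) =
      A * ∑ i, (q * S - q * ∑ t, γ t * γ (t + D i)) := by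
    have : ∀ a, W a * (A * ∑ i, (1 - cs (a * D i))) = A * ∑ i, (W a - W a * cs (a * D i)) := by
      intro a
      rw [mul_left_comm, mul_sum]
      congr 1
      exact sum_congr rfl fun i _ => by ring
    simp only [this]
    rw [← mul_sum, sum_comm]
    congr 1
    refine sum_congr rfl fun i _ => ?_
    rw [sum_sub_distrib, hF0, hF]
  have l3 : ∑ i : ι, (q * S - q * ∑ t, γ t * γ (t + D i)) ≤
      Fintype.card ι * (q * S * (1 - Real.cos (Real.pi / (M + 1)))) := by
    have : ∀ i ∈ (univ : Finset ι), (q * S - q * ∑ t, γ t * γ (t + D i)) ≤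
        q * S * (1 - Real.cos (Real.pi / (M + 1))) := by
      intro i _
      have := mul_le_mul_of_nonneg_left (hD i) hq.le
      linarith
    have := sum_le_card_nsmul _ _ _ this
    rwa [card_univ, nsmul_eq_mul] at this
  rw [l1, l2] at hsum
  have l4 := mul_le_mul_of_nonneg_left l3 hA
  have hqS : 0 < q * S := mul_pos hq hSpos
  have l5 : q * S ≤ q * S * (A * Fintype.card ι * (1 - Real.cos (Real.pi / (M + 1)))) := by
    calc q * S ≤ A * ∑ i, (q * S - q * ∑ t, γ t * γ (t + D i)) := hsum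
      _ ≤ A * (Fintype.card ι * (q * S * (1 - Real.cos (Real.pi / (M + 1))))) := l4
      _ = _ := by ring
  nlinarith

end fourier

end Pool.Agent.Helper25K9.PC
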