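import Mathlib
import Pool.Agent.Helper25K9.PC.Rel

set_option autoImplicit false

/-!
Inhomogeneous approximation modulo `q` when there are no bounded relations.
-/

open Finset

namespace Pool.Agent.Helper25K9.PC

section gsum

lemma gw_corr {M : ℕ} (hM : 1 ≤ M) :
    ∑ u ∈ range M, gw M (u + 1) * gw M (u + 2) =
      Real.cos (Real.pi / (M + 1)) * ∑ u ∈ range M, gw M (u + 1) ^ 2 := by
  obtain ⟨K, rfl⟩ : ∃ K, M = K + 1 := ⟨M - 1, by omega⟩
  have h1 : ∑ u ∈ range (K + 1), gw (K + 1) (u + 1) * gw (K + 1) u =
      ∑ u ∈ range (K + 1), gw (K + 1) (u + 1) * gw (K + 1) (u + 2) := by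
    rw [sum_range_succ', gw_zero, mul_zero, add_zero, sum_range_succ,
      show gw (K + 1) (K + 2) = 0 from gw_last (K + 1), mul_zero, add_zero]
    exact sum_congr rfl fun u _ => mul_comm _ _
  have h2 : 2 * (Real.cos (Real.pi / (((K + 1 : ℕ) : ℝ) + 1)) *
      ∑ u ∈ range (K + 1), gw (K + 1) (u + 1) ^ 2) =
      ∑ u ∈ range (K + 1), gw (K + 1) (u + 1) * gw (K + 1) (u + 2) +
        ∑ u ∈ range (K + 1), gw (K + 1) (u + 1) * gw (K + 1) u := by
    rw [mul_sum, mul_sum, ← sum_add_distrib]
    refine sum_congr rfl fun u _ => ?_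
    have := gw_rec (K + 1) u
    linear_combination -(gw (K + 1) (u + 1)) * this
  rw [h1] at h2
  linarith

end gsum

section fourier

variable {q : ℕ} [NeZero q]

open ComplexConjugate in
/-- The Fourier identity, complex form. -/
theorem fourier_idc {κ : Type*} (S : Finset κ) (c : κ → ℂ) (t : κ → ZMod q) (s : ZMod q) :
    ∑ a : ZMod q, ((‖∑ p ∈ S, c p * ZMod.stdAddChar (a * t p)‖ ^ 2 : ℝ) : ℂ) *
      ZMod.stdAddChar (a * s) =
      q * ∑ p ∈ S, ∑ p' ∈ S, if t p - t p' + s = 0 then c p * conj (c p') else 0 := by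
  classical
  have h1 : ∀ a : ZMod q, ((‖∑ p ∈ S, c p * ZMod.stdAddChar (a * t p)‖ ^ 2 : ℝ) : ℂ) *
      (ZMod.stdAddChar (a * s) : ℂ) =
      ∑ p ∈ S, ∑ p' ∈ S, c p * conj (c p') * ZMod.stdAddChar (a * (t p - t p' + s)) := by
    intro a
    rw [← Complex.normSq_eq_norm_sq, ← Complex.mul_conj, map_sum, sum_mul_sum, sum_mul]
    refine sum_congr rfl fun p _ => ?_
    rw [sum_mul]
    refine sum_congr rfl fun p' _ => ?_
    rw [map_mul (starRingEnd ℂ), ← AddChar.map_neg_eq_conj]
    have e : a * (t p - t p' + s) = a * t p + -(a * t p') + a * s := by ring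
    rw [e, AddChar.map_add_eq_mul, AddChar.map_add_eq_mul]
    ring
  simp only [h1]
  rw [sum_comm, mul_sum]
  refine sum_congr rfl fun p _ => ?_
  rw [sum_comm, mul_sum]
  refine sum_congr rfl fun p' _ => ?_
  rw [← mul_sum, AddChar.sum_mulShift _ (ZMod.isPrimitive_stdAddChar q), ZMod.card]
  split_ifs
  · push_cast
    ring
  · push_cast
    ring

/-- **Inhomogeneous approximation.** -/
theorem exists_approx {ι : Type*} [Fintype ι] [DecidableEq ι] (D : ι → ℤ) (φ : ι → ℝ) {M : ℕ}
    (hM : 1 ≤ M) (hno : ∀ ρ : ι → ℤ, (∀ i, |ρ i| ≤ M) →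
      ∑ i, ((ρ i : ℤ) : ZMod q) * ((D i : ℤ) : ZMod q) = 0 → ρ = 0) :
    ∃ a : ZMod q, ∑ i, (1 - Real.cos (2 * Real.pi * (((a.val : ℤ) : ℝ) * D i / q - φ i))) ≤
      Fintype.card ι * (1 - Real.cos (Real.pi / (M + 1))) := by
  classical
  have hq : (0 : ℝ) < q := by exact_mod_cast Nat.pos_of_ne_zero (NeZero.ne q)
  by_contra hcon
  push Not at hcon
  let ζ : ι → ℂ := fun i => Complex.exp (((-(2 * Real.pi * φ i) : ℝ) : ℂ) * Complex.I)
  have hζ1 : ∀ i, ζ i * (starRingEnd ℂ) (ζ i) = 1 := by
    intro i
    rw [Complex.mul_conj, Complex.normSq_eq_norm_sq]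
    simp only [ζ]
    rw [Complex.norm_exp_ofReal_mul_I]
    simp
  let box : Finset (ι → ℕ) := Fintype.piFinset fun _ => range M
  let c : (ι → ℕ) → ℂ := fun p => ∏ i, ((gw M (p i + 1) : ℝ) : ℂ) * ζ i ^ p i
  let t : (ι → ℕ) → ZMod q := fun p => ∑ i, ((p i : ℕ) : ZMod q) * ((D i : ℤ) : ZMod q)
  set S₀ : ℝ := ∑ u ∈ range M, gw M (u + 1) ^ 2 with hS
  have hSpos : 0 < S₀ := by
    refine sum_pos' (fun u _ => sq_nonneg _) ⟨0, mem_range.2 (by omega), ?_⟩
    have := gw_one_pos hM
    positivity
  set W : ZMod q → ℝ := fun a => ‖∑ p ∈ box, c p * ZMod.stdAddChar (a * t p)‖ ^ 2 with hW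
  have hbox : ∀ p ∈ box, ∀ i, p i < M := fun p hp i => mem_range.1 (Fintype.mem_piFinset.1 hp i)
  -- the total weight
  have hcc : ∀ p, c p * (starRingEnd ℂ) (c p) = ((∏ i, gw M (p i + 1) ^ 2 : ℝ) : ℂ) := by
    intro p
    simp only [c]
    rw [map_prod, ← prod_mul_distrib]
    push_cast
    refine prod_congr rfl fun i _ => ?_
    rw [map_mul (starRingEnd ℂ), Complex.conj_ofReal, map_pow]
    have : ((gw M (p i + 1) : ℝ) : ℂ) * ζ i ^ p i *
        (((gw M (p i + 1) : ℝ) : ℂ) * (starRingEnd ℂ) (ζ i) ^ p i) =
        ((gw M (p i + 1) : ℝ) : ℂ) ^ 2 * (ζ i * (starRingEnd ℂ) (ζ i)) ^ p i := by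
      rw [mul_pow]; ring
    rw [this, hζ1, one_pow, mul_one]
  have hW0 : ∑ a, W a = q * S₀ ^ Fintype.card ι := by
    have h1 := fourier_idc box c t 0
    simp only [mul_zero, AddChar.map_zero_eq_one, mul_one, add_zero] at h1
    have h2 : ∀ p ∈ box, ∑ p' ∈ box, (if t p - t p' = 0 then c p * (starRingEnd ℂ) (c p') else 0) =
        ((∏ i, gw M (p i + 1) ^ 2 : ℝ) : ℂ) := by
      intro p hp
      rw [sum_eq_single p]
      · rw [if_pos (sub_self _), hcc]
      · intro p' hp' hne
        rw [if_neg]
        intro h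
        apply hne
        have h3 := hno (fun i => (p i : ℤ) - p' i) (fun i => by
          have := hbox p hp i
          have := hbox p' hp' i
          rw [abs_le]; constructor <;> omega) (by
            rw [← h]
            simp only [t]
            rw [← sum_sub_distrib]
            refine sum_congr rfl fun i _ => ?_
            push_cast
            ring)
        funext i
        have := congrFun h3 i
        simp only [Pi.zero_apply] at this
        omega
      · intro h; exact absurd hp h
    rw [sum_congr rfl h2] at h1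
    have h3 : ∑ p ∈ box, ∏ i, gw M (p i + 1) ^ 2 = S₀ ^ Fintype.card ι := by
      have := Finset.prod_univ_sum (fun _ : ι => range M) (fun _ u => gw M (u + 1) ^ 2)
      rw [← this, prod_const, card_univ]
    have h4 : ((∑ a, W a : ℝ) : ℂ) = ((q * S₀ ^ Fintype.card ι : ℝ) : ℂ) := by
      rw [← h3, Complex.ofReal_sum, Complex.ofReal_mul, Complex.ofReal_sum, Complex.ofReal_natCast]
      exact h1
    exact_mod_cast h4
  -- the correlations
  have hcos : ∀ (a : ZMod q) (i : ι),
      Real.cos (2 * Real.pi * (((a.val : ℤ) : ℝ) * D i / q - φ i)) =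
      ((ZMod.stdAddChar (a * ((D i : ℤ) : ZMod q)) : ℂ) * ζ i).re := by
    intro a i
    have h3 : a * ((D i : ℤ) : ZMod q) = (((a.val : ℤ) * D i : ℤ) : ZMod q) := by
      push_cast
      rw [ZMod.natCast_val, ZMod.cast_id', id]
    rw [h3, ZMod.stdAddChar_coe]
    simp only [ζ]
    rw [← Complex.exp_add]
    have e : (2 * Real.pi * Complex.I * ((((a.val : ℤ) * D i : ℤ)) : ℂ) / q : ℂ) +
        ((-(2 * Real.pi * φ i) : ℝ) : ℂ) * Complex.I =
        ((2 * Real.pi * (((a.val : ℤ) : ℝ) * D i / q - φ i) : ℝ) : ℂ) * Complex.I := by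
      push_cast
      ring
    rw [e, Complex.exp_ofReal_mul_I_re]
  have hWD : ∀ i, ∑ a, W a * Real.cos (2 * Real.pi * (((a.val : ℤ) : ℝ) * D i / q - φ i)) =
      q * (Real.cos (Real.pi / (M + 1)) * S₀ ^ Fintype.card ι) := by
    intro i
    have h1 := fourier_idc box c t ((D i : ℤ) : ZMod q)
    have h2 : ∀ p ∈ box, ζ i * ∑ p' ∈ box,
        (if t p - t p' + ((D i : ℤ) : ZMod q) = 0 then c p * (starRingEnd ℂ) (c p') else 0) =
        ((∏ k, (if k = i then gw M (p k + 1) * gw M (p k + 2) else gw M (p k + 1) ^ 2) : ℝ) : ℂ) := by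
      intro p hp
      have hrel : ∀ p' ∈ box, t p - t p' + ((D i : ℤ) : ZMod q) = 0 →
          p' = Function.update p i (p i + 1) := by
        intro p' hp' h
        have h3 := hno (fun k => (p k : ℤ) - p' k + if k = i then 1 else 0) (fun k => by
          have := hbox p hp k
          have := hbox p' hp' k
          rw [abs_le]; split_ifs <;> constructor <;> omega) (by
            rw [← h]
            simp only [t]
            rw [← sum_sub_distrib]
            have e : ((D i : ℤ) : ZMod q) = ∑ k, if k = i then ((D k : ℤ) : ZMod q) else 0 := by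
              rw [sum_ite_eq' univ i, if_pos (mem_univ _)]
            conv_rhs => rw [e]
            rw [← sum_add_distrib]
            refine sum_congr rfl fun k _ => ?_
            split_ifs <;> push_cast <;> ring)
        funext k
        have h4 := congrFun h3 k
        simp only [Pi.zero_apply] at h4
        by_cases hk : k = i
        · subst hk
          rw [Function.update_self]
          simp only [if_true] at h4
          omega
        · rw [Function.update_of_ne hk]
          rw [if_neg hk] at h4
          omega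
      by_cases hlast : p i + 1 < M
      · set p₁ := Function.update p i (p i + 1) with hp₁
        have hp₁mem : p₁ ∈ box := by
          refine Fintype.mem_piFinset.2 fun k => ?_
          by_cases hk : k = i
          · subst hk
            rw [hp₁, Function.update_self]
            exact mem_range.2 hlast
          · rw [hp₁, Function.update_of_ne hk]
            exact mem_range.2 (hbox p hp k)
        have hzero : t p - t p₁ + ((D i : ℤ) : ZMod q) = 0 := by
          simp only [t]
          rw [← sum_sub_distrib]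
          have e : ((D i : ℤ) : ZMod q) = ∑ k, if k = i then ((D k : ℤ) : ZMod q) else 0 := by
            rw [sum_ite_eq' univ i, if_pos (mem_univ _)]
          conv_lhs => rw [e]
          rw [← sum_add_distrib]
          refine sum_eq_zero fun k _ => ?_
          by_cases hk : k = i
          · subst hk
            rw [hp₁, Function.update_self, if_pos rfl]
            push_cast
            ring
          · rw [hp₁, Function.update_of_ne hk, if_neg hk]
            ring
        rw [sum_eq_single p₁]
        · rw [if_pos hzero]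
          simp only [c]
          rw [map_prod, ← prod_mul_distrib]
          have e : ζ i = ∏ k, if k = i then ζ i else 1 := by
            rw [prod_ite_eq' univ i, if_pos (mem_univ _)]
          conv_lhs => rw [e]
          rw [← prod_mul_distrib]
          push_cast
          refine prod_congr rfl fun k _ => ?_
          rw [map_mul (starRingEnd ℂ), Complex.conj_ofReal, map_pow]
          by_cases hk : k = i
          · subst hk
            rw [hp₁, Function.update_self, if_pos rfl, if_pos rfl]
            have : ζ k * (((gw M (p k + 1) : ℝ) : ℂ) * ζ k ^ p k *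
                (((gw M (p k + 1 + 1) : ℝ) : ℂ) * (starRingEnd ℂ) (ζ k) ^ (p k + 1))) =
                ((gw M (p k + 1) : ℝ) : ℂ) * ((gw M (p k + 2) : ℝ) : ℂ) *
                  (ζ k * (starRingEnd ℂ) (ζ k)) ^ (p k + 1) := by
              rw [mul_pow, pow_succ, pow_succ]
              ring
            rw [this, hζ1, one_pow, mul_one]
            push_cast
            rfl
          · rw [hp₁, Function.update_of_ne hk, if_neg hk, if_neg hk]
            have : (1 : ℂ) * (((gw M (p k + 1) : ℝ) : ℂ) * ζ k ^ p k *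
                (((gw M (p k + 1) : ℝ) : ℂ) * (starRingEnd ℂ) (ζ k) ^ p k)) =
                ((gw M (p k + 1) : ℝ) : ℂ) ^ 2 * (ζ k * (starRingEnd ℂ) (ζ k)) ^ p k := by
              rw [mul_pow]; ring
            rw [this, hζ1, one_pow, mul_one]
            push_cast
            rfl
        · intro p' hp' hne
          rw [if_neg]
          exact fun h => hne (hrel p' hp' h)
        · intro h; exact absurd hp₁mem h
      · have hpi : p i + 1 = M := by have := hbox p hp i; omega
        rw [sum_eq_zero, mul_zero]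
        · symm
          norm_cast
          refine prod_eq_zero (mem_univ i) ?_
          rw [if_pos rfl]
          have : p i + 2 = M + 1 := by omega
          rw [this, gw_last, mul_zero]
        · intro p' hp'
          rw [if_neg]
          intro h
          have h3 := hrel p' hp' h
          have h4 := hbox p' hp' i
          rw [h3, Function.update_self] at h4
          omega
    have h3 : ∑ p ∈ box, ∏ k, (if k = i then gw M (p k + 1) * gw M (p k + 2)
        else gw M (p k + 1) ^ 2) = Real.cos (Real.pi / (M + 1)) * S₀ ^ Fintype.card ι := by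
      have := Finset.prod_univ_sum (fun _ : ι => range M)
        (fun k u => if k = i then gw M (u + 1) * gw M (u + 2) else gw M (u + 1) ^ 2)
      rw [← this]
      have e : ∀ k, ∑ u ∈ range M, (if k = i then gw M (u + 1) * gw M (u + 2)
          else gw M (u + 1) ^ 2) = (if k = i then Real.cos (Real.pi / (M + 1)) else 1) * S₀ := by
        intro k
        by_cases hk : k = i
        · simp only [if_pos hk]
          exact gw_corr hM
        · simp only [if_neg hk, one_mul]
          rfl
      simp only [e]
      rw [prod_mul_distrib, prod_const, card_univ, prod_ite_eq' univ i, if_pos (mem_univ _)]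
    have h4 : ((∑ a, W a * Real.cos (2 * Real.pi * (((a.val : ℤ) : ℝ) * D i / q - φ i)) : ℝ)) =
        (ζ i * ∑ a, ((W a : ℝ) : ℂ) * ZMod.stdAddChar (a * ((D i : ℤ) : ZMod q))).re := by
      rw [mul_sum, Complex.re_sum]
      refine sum_congr rfl fun a _ => ?_
      rw [hcos]
      have : ζ i * (((W a : ℝ) : ℂ) * ZMod.stdAddChar (a * ((D i : ℤ) : ZMod q))) =
          ((W a : ℝ) : ℂ) * (ZMod.stdAddChar (a * ((D i : ℤ) : ZMod q)) * ζ i) := by ring
      rw [this, Complex.re_ofReal_mul]
    rw [h4, h1]
    have h5 : ζ i * ((q : ℂ) * ∑ p ∈ box, ∑ p' ∈ box,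
        (if t p - t p' + ((D i : ℤ) : ZMod q) = 0 then c p * (starRingEnd ℂ) (c p') else 0)) =
        ((q * (Real.cos (Real.pi / (M + 1)) * S₀ ^ Fintype.card ι) : ℝ) : ℂ) := by
      rw [mul_left_comm, mul_sum, sum_congr rfl h2, ← h3]
      push_cast
      rfl
    rw [h5, Complex.ofReal_re]
  -- conclusion
  have hsum : ∑ a, W a * (Fintype.card ι * (1 - Real.cos (Real.pi / (M + 1)))) <
      ∑ a, W a * ∑ i, (1 - Real.cos (2 * Real.pi * (((a.val : ℤ) : ℝ) * D i / q - φ i))) := by
    refine sum_lt_sum (fun a _ => mul_le_mul_of_nonneg_left (hcon a).le (by positivity)) ?_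
    have hpos : 0 < ∑ a, W a := by rw [hW0]; positivity
    obtain ⟨a, -, ha⟩ := exists_lt_of_sum_lt (s := univ) (f := fun _ => (0 : ℝ)) (g := W)
      (by simpa using hpos)
    exact ⟨a, mem_univ _, mul_lt_mul_of_pos_left (hcon a) ha⟩
  rw [← sum_mul, hW0] at hsum
  have h6 : ∑ a, W a * ∑ i, (1 - Real.cos (2 * Real.pi * (((a.val : ℤ) : ℝ) * D i / q - φ i))) =
      ∑ i : ι, (q * S₀ ^ Fintype.card ι -
        q * (Real.cos (Real.pi / (M + 1)) * S₀ ^ Fintype.card ι)) := by
    have : ∀ a, W a * ∑ i, (1 - Real.cos (2 * Real.pi * (((a.val : ℤ) : ℝ) * D i / q - φ i))) =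
        ∑ i, (W a - W a * Real.cos (2 * Real.pi * (((a.val : ℤ) : ℝ) * D i / q - φ i))) := by
      intro a
      rw [mul_sum]
      exact sum_congr rfl fun i _ => by ring
    simp only [this]
    rw [sum_comm]
    refine sum_congr rfl fun i _ => ?_
    rw [sum_sub_distrib, hW0, hWD]
  rw [h6, sum_const, card_univ, nsmul_eq_mul] at hsum
  exact absurd hsum (by
    rw [not_lt]
    apply le_of_eq
    ring)

end fourier

end Pool.Agent.Helper25K9.PC
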