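import Mathlib
import Pool.Agent.H336R2.V.Raman
import Pool.Agent.H998.LC.Pow.Base

set_option autoImplicit false

/-!
Averages of characters over units.
-/

open Finset

namespace Pool.Agent.Helper25K9.PC

lemma sum_units_range (q : ℕ) [NeZero q] (F : ZMod q → ℂ) :
    ∑ v : (ZMod q)ˣ, F v = ∑ b ∈ (range q).filter (fun b => b.Coprime q), F (b : ZMod q) := by
  refine Finset.sum_bij (fun v _ => (v : ZMod q).val) ?_ ?_ ?_ ?_
  · intro v _
    rw [mem_filter, mem_range]
    exact ⟨ZMod.val_lt _, ZMod.val_coe_unit_coprime v⟩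
  · intro v _ w _ h
    exact Units.ext (ZMod.val_injective q h)
  · intro b hb
    rw [mem_filter, mem_range] at hb
    refine ⟨ZMod.unitOfCoprime b hb.2, mem_univ _, ?_⟩
    rw [ZMod.coe_unitOfCoprime, ZMod.val_cast_of_lt hb.1]
  · intro v _
    rw [ZMod.natCast_val, ZMod.cast_id', id]

/-- Ramanujan sums at units -/
lemma norm_sum_units_le (m : ℕ) [NeZero m] (y : ℕ) (hy : y.Coprime m) :
    ‖∑ v : (ZMod m)ˣ, (ZMod.stdAddChar ((v : ZMod m) * (y : ZMod m)) : ℂ)‖ ≤ 1 := by
  have hm : 1 ≤ m := Nat.one_le_iff_ne_zero.2 (NeZero.ne m)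
  rw [sum_units_range m (fun v => (ZMod.stdAddChar (v * (y : ZMod m)) : ℂ))]
  have h1 : ∀ b ∈ (range m).filter (fun b => b.Coprime m),
      (ZMod.stdAddChar ((b : ZMod m) * (y : ZMod m)) : ℂ) = H343.ex ((b : ℝ) * ((y : ℤ) : ℝ) / m) := by
    intro b _
    have h2 : ((b : ZMod m) * (y : ZMod m)) = (((b : ℤ) * y : ℤ) : ZMod m) := by push_cast; rfl
    rw [h2, ZMod.stdAddChar_coe]
    unfold H343.ex
    congr 1
    push_cast
    ring
  rw [sum_congr rfl h1, H336V.RamanAux.raman_eq m hm, sum_eq_single m]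
  · rw [Nat.div_self (by omega)]
    simp only [Nat.cast_one, isUnit_one, IsUnit.dvd, if_true, mul_one]
    rw [Complex.norm_intCast]
    exact_mod_cast ArithmeticFunction.abs_moebius_le_one
  · intro d hd hdm
    rw [Nat.mem_divisors] at hd
    rw [if_neg, mul_zero]
    intro h1
    have h2 : m / d ∣ y := by exact_mod_cast h1
    have h3 : m / d ∣ m := Nat.div_dvd_of_dvd hd.1
    have h4 : m / d = 1 := Nat.eq_one_of_dvd_coprimes hy h2 h3
    apply hdm
    have h5 := Nat.div_mul_cancel hd.1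
    rw [h4, one_mul] at h5
    exact h5
  · intro h1
    exact absurd (Nat.mem_divisors_self m (by omega)) h1

/-- sums over a finite group of functions of the image under a surjective homomorphism -/
lemma sum_comp_surj {G H : Type*} [Group G] [Group H] [Fintype G] [Fintype H] [DecidableEq H]
    (f : G →* H) (hf : Function.Surjective f) (F : H → ℂ) :
    (Fintype.card H : ℂ) * ∑ g, F (f g) = (Fintype.card G : ℂ) * ∑ h, F h := by
  have h1 : ∀ h : H, (univ.filter (fun g => f g = h)).card = (univ.filter (fun g => f g = 1)).card :=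
    fun h => MonoidHom.card_fiber_eq_of_mem_range f (hf h) (hf 1)
  set c := (univ.filter (fun g => f g = 1)).card with hc
  have h2 : ∀ F' : H → ℂ, ∑ g, F' (f g) = (c : ℂ) * ∑ h, F' h := by
    intro F'
    rw [← sum_fiberwise_of_maps_to (s := univ) (t := univ) (g := f) (fun _ _ => mem_univ _), mul_sum]
    refine sum_congr rfl fun h _ => ?_
    rw [sum_congr rfl (g := fun _ => F' h)
      (fun g hg => by rw [(mem_filter.1 hg).2]), sum_const, h1, nsmul_eq_mul]
  have h3 := h2 (fun _ => 1)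
  simp only [sum_const, card_univ, nsmul_eq_mul, mul_one] at h3
  rw [h2, h3]
  ring

/-- The average of a character of large order over the units is small. -/
theorem norm_unit_sum_le (N : ℕ) [NeZero N] (x : ZMod N) :
    ((addOrderOf x).totient : ℝ) * ‖∑ u : (ZMod N)ˣ, (ZMod.stdAddChar ((u : ZMod N) * x) : ℂ)‖ ≤
      Fintype.card (ZMod N)ˣ := by
  classical
  have hN : 0 < N := Nat.pos_of_ne_zero (NeZero.ne N)
  set g := Nat.gcd N x.val with hg
  have hg0 : 0 < g := Nat.gcd_pos_of_pos_left _ hN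
  obtain ⟨m, hm⟩ : g ∣ N := Nat.gcd_dvd_left _ _
  obtain ⟨y, hy⟩ : g ∣ x.val := Nat.gcd_dvd_right _ _
  have hm0 : 0 < m := Nat.pos_of_ne_zero (by rintro rfl; omega)
  have : NeZero m := ⟨hm0.ne'⟩
  have hord : addOrderOf x = m := by
    have h1 : x = ((x.val : ℕ) : ZMod N) := by rw [ZMod.natCast_val, ZMod.cast_id', id]
    rw [h1, ZMod.addOrderOf_coe _ hN.ne', ← hg]
    conv_lhs => rw [hm]
    exact Nat.mul_div_cancel_left m hg0
  have hco : y.Coprime m := by
    have h1 : g * Nat.gcd m y = g * 1 := by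
      rw [← Nat.gcd_mul_left, ← hm, ← hy, mul_one]
    exact Nat.Coprime.symm (Nat.eq_of_mul_eq_mul_left hg0 h1)
  have hmN : m ∣ N := ⟨g, by rw [hm]; ring⟩
  have hval : ∀ u : (ZMod N)ˣ, (ZMod.stdAddChar ((u : ZMod N) * x) : ℂ) =
      ZMod.stdAddChar (((ZMod.unitsMap hmN u : (ZMod m)ˣ) : ZMod m) * (y : ZMod m)) := by
    intro u
    have h1 : (u : ZMod N) * x = ((((u : ZMod N).val : ℤ) * x.val : ℤ) : ZMod N) := by
      push_cast
      rw [ZMod.natCast_val, ZMod.cast_id', id, ZMod.natCast_val, ZMod.cast_id', id]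
    have h2 : ((ZMod.unitsMap hmN u : (ZMod m)ˣ) : ZMod m) * (y : ZMod m) =
        ((((u : ZMod N).val : ℤ) * y : ℤ) : ZMod m) := by
      push_cast
      congr 1
      rw [ZMod.unitsMap_val, ZMod.natCast_val]
    rw [h1, h2, ZMod.stdAddChar_coe, ZMod.stdAddChar_coe]
    congr 1
    rw [hy]
    have hmC : (m : ℂ) ≠ 0 := by exact_mod_cast hm0.ne'
    have hgC : (g : ℂ) ≠ 0 := by exact_mod_cast hg0.ne'
    have hNC : (N : ℂ) = g * m := by exact_mod_cast hm
    rw [hNC]
    push_cast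
    field_simp
  have h3 := sum_comp_surj (ZMod.unitsMap hmN) (ZMod.unitsMap_surjective hmN)
    (fun v => (ZMod.stdAddChar ((v : ZMod m) * (y : ZMod m)) : ℂ))
  have h4 := norm_sum_units_le m y hco
  have h5 := congrArg norm h3
  rw [norm_mul, norm_mul, Complex.norm_natCast, Complex.norm_natCast] at h5
  rw [hord]
  rw [sum_congr rfl fun u _ => hval u]
  rw [← ZMod.card_units_eq_totient m, h5]
  have h6 : (0 : ℝ) ≤ Fintype.card (ZMod N)ˣ := Nat.cast_nonneg _
  nlinarith

/-- the real form, with an explicit bound -/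
theorem unit_avg_le (N : ℕ) [NeZero N] (x : ZMod N) (m : ℕ) (hm : m ≤ addOrderOf x) (δ : ℝ)
    (hδ : 0 < δ) (h : 2 ≤ δ ^ 2 * m) :
    ‖∑ u : (ZMod N)ˣ, (ZMod.stdAddChar ((u : ZMod N) * x) : ℂ)‖ ≤ δ * Fintype.card (ZMod N)ˣ := by
  have h1 := norm_unit_sum_le N x
  have hord : 0 < addOrderOf x := addOrderOf_pos x
  have h2 := Pool.Agent.H998.LC.Pow.le_two_mul_totient_sq hord.ne'
  set t := (addOrderOf x).totient with ht
  have h3 : (m : ℝ) ≤ 2 * (t : ℝ) ^ 2 := by exact_mod_cast hm.trans h2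
  have h4 : 1 ≤ δ * t := by
    have h5 : 1 ≤ (δ * t) ^ 2 := by
      have := mul_le_mul_of_nonneg_left h3 (sq_nonneg δ)
      nlinarith
    have h6 : 0 ≤ δ * t := by positivity
    nlinarith
  set S := ‖∑ u : (ZMod N)ˣ, (ZMod.stdAddChar ((u : ZMod N) * x) : ℂ)‖ with hS
  have hS0 : 0 ≤ S := norm_nonneg _
  calc S = 1 * S := (one_mul S).symm
    _ ≤ (δ * t) * S := mul_le_mul_of_nonneg_right h4 hS0
    _ = δ * (t * S) := by ring
    _ ≤ δ * Fintype.card (ZMod N)ˣ := mul_le_mul_of_nonneg_left h1 hδ.le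

end Pool.Agent.Helper25K9.PC
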