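import Mathlib
import Pool.Agent.Helper25K9.PC.Appr
import Pool.Agent.Helper25K9.PC.Unit

set_option autoImplicit false
set_option linter.unusedSectionVars false

/-!
Inhomogeneous approximation by units when there are no bounded relations.
-/

open Finset

namespace Pool.Agent.Helper25K9.PC

section unitappr

variable {q : ℕ} [NeZero q]

/-- the phase -/
noncomputable def ph {ι : Type*} (φ : ι → ℝ) (i : ι) : ℂ :=
  Complex.exp (((-(2 * Real.pi * φ i) : ℝ) : ℂ) * Complex.I)

/-- the main terms -/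
lemma main_terms {ι : Type*} [Fintype ι] [DecidableEq ι] (D : ι → ℤ) (φ : ι → ℝ) {M : ℕ}
    (hM : 1 ≤ M) (hno : ∀ ρ : ι → ℤ, (∀ i, |ρ i| ≤ M) →
      ∑ i, ((ρ i : ℤ) : ZMod q) * ((D i : ℤ) : ZMod q) = 0 → ρ = 0) :
    ∃ (c : (ι → ℕ) → ℂ) (box : Finset (ι → ℕ)) (S₀ : ℝ), 0 < S₀ ∧
      (∀ p ∈ box, ∀ i, p i < M) ∧
      (∑ p ∈ box, ‖c p‖) ^ 2 ≤ (M : ℝ) ^ Fintype.card ι * S₀ ^ Fintype.card ι ∧
      (∑ p ∈ box, ∑ p' ∈ box, if (∑ i, ((p i : ℕ) : ZMod q) * ((D i : ℤ) : ZMod q)) -
          (∑ i, ((p' i : ℕ) : ZMod q) * ((D i : ℤ) : ZMod q)) = 0 then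
          c p * (starRingEnd ℂ) (c p') else 0) = ((S₀ ^ Fintype.card ι : ℝ) : ℂ) ∧
      ∀ i, ph φ i * (∑ p ∈ box, ∑ p' ∈ box,
        if (∑ i, ((p i : ℕ) : ZMod q) * ((D i : ℤ) : ZMod q)) -
          (∑ i, ((p' i : ℕ) : ZMod q) * ((D i : ℤ) : ZMod q)) + ((D i : ℤ) : ZMod q) = 0 then
          c p * (starRingEnd ℂ) (c p') else 0) =
        ((Real.cos (Real.pi / (M + 1)) * S₀ ^ Fintype.card ι : ℝ) : ℂ) := by
  classical
  let ζ : ι → ℂ := fun i => Complex.exp (((-(2 * Real.pi * φ i) : ℝ) : ℂ) * Complex.I)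
  have hζ1 : ∀ i, ζ i * (starRingEnd ℂ) (ζ i) = 1 := by
    intro i
    rw [Complex.mul_conj, Complex.normSq_eq_norm_sq]
    simp only [ζ]
    rw [Complex.norm_exp_ofReal_mul_I]
    simp
  let box : Finset (ι → ℕ) := Fintype.piFinset fun _ => range M
  let c : (ι → ℕ) → ℂ := fun p => ∏ i, ((gw M (p i + 1) : ℝ) : ℂ) * ζ i ^ p i
  let t : (ι → ℕ) → ZMod q := fun p => ∑ i, ((p i : ℕ) : ZMod q) * ((D i : ℤ) : ZMod q)
  set S₀ : ℝ := ∑ u ∈ range M, gw M (u + 1) ^ 2 with hS
  have hSpos : 0 < S₀ := by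
    refine sum_pos' (fun u _ => sq_nonneg _) ⟨0, mem_range.2 (by omega), ?_⟩
    have := gw_one_pos hM
    positivity
  have hbox : ∀ p ∈ box, ∀ i, p i < M := fun p hp i => mem_range.1 (Fintype.mem_piFinset.1 hp i)
  -- the total weight
  have hcc : ∀ p, c p * (starRingEnd ℂ) (c p) = ((∏ i, gw M (p i + 1) ^ 2 : ℝ) : ℂ) := by
    intro p
    simp only [c]
    rw [map_prod, ← prod_mul_distrib]
    push_cast
    refine prod_congr rfl fun i _ => ?_
    rw [map_mul (starRingEnd ℂ), Complex.conj_ofReal, map_pow]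
    have : ((gw M (p i + 1) : ℝ) : ℂ) * ζ i ^ p i *
        (((gw M (p i + 1) : ℝ) : ℂ) * (starRingEnd ℂ) (ζ i) ^ p i) =
        ((gw M (p i + 1) : ℝ) : ℂ) ^ 2 * (ζ i * (starRingEnd ℂ) (ζ i)) ^ p i := by
      rw [mul_pow]; ring
    rw [this, hζ1, one_pow, mul_one]
  have hbox3 : ∑ p ∈ box, ∏ i, gw M (p i + 1) ^ 2 = S₀ ^ Fintype.card ι := by
    have := Finset.prod_univ_sum (fun _ : ι => range M) (fun _ u => gw M (u + 1) ^ 2)
    rw [← this, prod_const, card_univ]
  have hnorm : ∀ p, ‖c p‖ ^ 2 = ∏ i, gw M (p i + 1) ^ 2 := by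
    intro p
    have h1 := hcc p
    rw [Complex.mul_conj, Complex.normSq_eq_norm_sq] at h1
    exact_mod_cast h1
  refine ⟨c, box, S₀, hSpos, hbox, ?_, ?_, ?_⟩
  · have h1 : (∑ p ∈ box, ‖c p‖) ^ 2 ≤ box.card * ∑ p ∈ box, ‖c p‖ ^ 2 := sq_sum_le_card_mul_sum_sq
    have h2 : (box.card : ℝ) = (M : ℝ) ^ Fintype.card ι := by
      have : box.card = M ^ Fintype.card ι := by simp [box]
      rw [this]
      push_cast
      rfl
    rw [h2, sum_congr rfl (fun p _ => hnorm p), hbox3] at h1
    exact h1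
  · show (∑ p ∈ box, ∑ p' ∈ box, if t p - t p' = 0 then c p * (starRingEnd ℂ) (c p') else 0) = _
    have h2 : ∀ p ∈ box, ∑ p' ∈ box, (if t p - t p' = 0 then c p * (starRingEnd ℂ) (c p') else 0) =
        ((∏ i, gw M (p i + 1) ^ 2 : ℝ) : ℂ) := by
      intro p hp
      rw [sum_eq_single p]
      · rw [if_pos (sub_self _), hcc]
      · intro p' hp' hne
        rw [if_neg]
        intro h
        apply hne
        have h3 := hno (fun i => (p i : ℤ) - p' i) (fun i => by
          have := hbox p hp i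
          have := hbox p' hp' i
          rw [abs_le]; constructor <;> omega) (by
            rw [← h]
            simp only [t]
            rw [← sum_sub_distrib]
            refine sum_congr rfl fun i _ => ?_
            push_cast
            ring)
        funext i
        have := congrFun h3 i
        simp only [Pi.zero_apply] at this
        omega
      · intro h; exact absurd hp h
    rw [sum_congr rfl h2, ← hbox3]
    push_cast
    rfl
  · intro i
    show ζ i * (∑ p ∈ box, ∑ p' ∈ box, if t p - t p' + ((D i : ℤ) : ZMod q) = 0 then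
      c p * (starRingEnd ℂ) (c p') else 0) = _
    have h2 : ∀ p ∈ box, ζ i * ∑ p' ∈ box,
        (if t p - t p' + ((D i : ℤ) : ZMod q) = 0 then c p * (starRingEnd ℂ) (c p') else 0) =
        ((∏ k, (if k = i then gw M (p k + 1) * gw M (p k + 2) else gw M (p k + 1) ^ 2) : ℝ) : ℂ) := by
      intro p hp
      have hrel : ∀ p' ∈ box, t p - t p' + ((D i : ℤ) : ZMod q) = 0 →
          p' = Function.update p i (p i + 1) := by
        intro p' hp' h
        have h3 := hno (fun k => (p k : ℤ) - p' k + if k = i then 1 else 0) (fun k => by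
          have := hbox p hp k
          have := hbox p' hp' k
          rw [abs_le]; split_ifs <;> constructor <;> omega) (by
            rw [← h]
            simp only [t]
            rw [← sum_sub_distrib]
            have e : ((D i : ℤ) : ZMod q) = ∑ k, if k = i then ((D k : ℤ) : ZMod q) else 0 := by
              rw [sum_ite_eq' univ i, if_pos (mem_univ _)]
            conv_rhs => rw [e]
            rw [← sum_add_distrib]
            refine sum_congr rfl fun k _ => ?_
            split_ifs <;> push_cast <;> ring)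
        funext k
        have h4 := congrFun h3 k
        simp only [Pi.zero_apply] at h4
        by_cases hk : k = i
        · subst hk
          rw [Function.update_self]
          simp only [if_true] at h4
          omega
        · rw [Function.update_of_ne hk]
          rw [if_neg hk] at h4
          omega
      by_cases hlast : p i + 1 < M
      · set p₁ := Function.update p i (p i + 1) with hp₁
        have hp₁mem : p₁ ∈ box := by
          refine Fintype.mem_piFinset.2 fun k => ?_
          by_cases hk : k = i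
          · subst hk
            rw [hp₁, Function.update_self]
            exact mem_range.2 hlast
          · rw [hp₁, Function.update_of_ne hk]
            exact mem_range.2 (hbox p hp k)
        have hzero : t p - t p₁ + ((D i : ℤ) : ZMod q) = 0 := by
          simp only [t]
          rw [← sum_sub_distrib]
          have e : ((D i : ℤ) : ZMod q) = ∑ k, if k = i then ((D k : ℤ) : ZMod q) else 0 := by
            rw [sum_ite_eq' univ i, if_pos (mem_univ _)]
          conv_lhs => rw [e]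
          rw [← sum_add_distrib]
          refine sum_eq_zero fun k _ => ?_
          by_cases hk : k = i
          · subst hk
            rw [hp₁, Function.update_self, if_pos rfl]
            push_cast
            ring
          · rw [hp₁, Function.update_of_ne hk, if_neg hk]
            ring
        rw [sum_eq_single p₁]
        · rw [if_pos hzero]
          simp only [c]
          rw [map_prod, ← prod_mul_distrib]
          have e : ζ i = ∏ k, if k = i then ζ i else 1 := by
            rw [prod_ite_eq' univ i, if_pos (mem_univ _)]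
          conv_lhs => rw [e]
          rw [← prod_mul_distrib]
          push_cast
          refine prod_congr rfl fun k _ => ?_
          rw [map_mul (starRingEnd ℂ), Complex.conj_ofReal, map_pow]
          by_cases hk : k = i
          · subst hk
            rw [hp₁, Function.update_self, if_pos rfl, if_pos rfl]
            have : ζ k * (((gw M (p k + 1) : ℝ) : ℂ) * ζ k ^ p k *
                (((gw M (p k + 1 + 1) : ℝ) : ℂ) * (starRingEnd ℂ) (ζ k) ^ (p k + 1))) =
                ((gw M (p k + 1) : ℝ) : ℂ) * ((gw M (p k + 2) : ℝ) : ℂ) *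
                  (ζ k * (starRingEnd ℂ) (ζ k)) ^ (p k + 1) := by
              rw [mul_pow, pow_succ, pow_succ]
              ring
            rw [this, hζ1, one_pow, mul_one]
            push_cast
            rfl
          · rw [hp₁, Function.update_of_ne hk, if_neg hk, if_neg hk]
            have : (1 : ℂ) * (((gw M (p k + 1) : ℝ) : ℂ) * ζ k ^ p k *
                (((gw M (p k + 1) : ℝ) : ℂ) * (starRingEnd ℂ) (ζ k) ^ p k)) =
                ((gw M (p k + 1) : ℝ) : ℂ) ^ 2 * (ζ k * (starRingEnd ℂ) (ζ k)) ^ p k := by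
              rw [mul_pow]; ring
            rw [this, hζ1, one_pow, mul_one]
            push_cast
            rfl
        · intro p' hp' hne
          rw [if_neg]
          exact fun h => hne (hrel p' hp' h)
        · intro h; exact absurd hp₁mem h
      · have hpi : p i + 1 = M := by have := hbox p hp i; omega
        rw [sum_eq_zero, mul_zero]
        · symm
          norm_cast
          refine prod_eq_zero (mem_univ i) ?_
          rw [if_pos rfl]
          have : p i + 2 = M + 1 := by omega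
          rw [this, gw_last, mul_zero]
        · intro p' hp'
          rw [if_neg]
          intro h
          have h3 := hrel p' hp' h
          have h4 := hbox p' hp' i
          rw [h3, Function.update_self] at h4
          omega
    have h3 : ∑ p ∈ box, ∏ k, (if k = i then gw M (p k + 1) * gw M (p k + 2)
        else gw M (p k + 1) ^ 2) = Real.cos (Real.pi / (M + 1)) * S₀ ^ Fintype.card ι := by
      have := Finset.prod_univ_sum (fun _ : ι => range M)
        (fun k u => if k = i then gw M (u + 1) * gw M (u + 2) else gw M (u + 1) ^ 2)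
      rw [← this]
      have e : ∀ k, ∑ u ∈ range M, (if k = i then gw M (u + 1) * gw M (u + 2)
          else gw M (u + 1) ^ 2) = (if k = i then Real.cos (Real.pi / (M + 1)) else 1) * S₀ := by
        intro k
        by_cases hk : k = i
        · simp only [if_pos hk]
          exact gw_corr hM
        · simp only [if_neg hk, one_mul]
          rfl
      simp only [e]
      rw [prod_mul_distrib, prod_const, card_univ, prod_ite_eq' univ i, if_pos (mem_univ _)]
    rw [mul_sum, sum_congr rfl h2, ← h3]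
    push_cast
    rfl

open ComplexConjugate in
/-- The Fourier identity over the units. -/
theorem fourier_units {κ : Type*} (S : Finset κ) (c : κ → ℂ) (t : κ → ZMod q) (s : ZMod q) :
    ∑ u : (ZMod q)ˣ, ((‖∑ p ∈ S, c p * ZMod.stdAddChar ((u : ZMod q) * t p)‖ ^ 2 : ℝ) : ℂ) *
      ZMod.stdAddChar ((u : ZMod q) * s) =
      ∑ p ∈ S, ∑ p' ∈ S, c p * conj (c p') *
        ∑ u : (ZMod q)ˣ, (ZMod.stdAddChar ((u : ZMod q) * (t p - t p' + s)) : ℂ) := by
  classical
  have h1 : ∀ a : ZMod q, ((‖∑ p ∈ S, c p * ZMod.stdAddChar (a * t p)‖ ^ 2 : ℝ) : ℂ) *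
      (ZMod.stdAddChar (a * s) : ℂ) =
      ∑ p ∈ S, ∑ p' ∈ S, c p * conj (c p') * ZMod.stdAddChar (a * (t p - t p' + s)) := by
    intro a
    rw [← Complex.normSq_eq_norm_sq, ← Complex.mul_conj, map_sum, sum_mul_sum, sum_mul]
    refine sum_congr rfl fun p _ => ?_
    rw [sum_mul]
    refine sum_congr rfl fun p' _ => ?_
    rw [map_mul (starRingEnd ℂ), ← AddChar.map_neg_eq_conj]
    have e : a * (t p - t p' + s) = a * t p + -(a * t p') + a * s := by ring
    rw [e, AddChar.map_add_eq_mul, AddChar.map_add_eq_mul]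
    ring
  simp only [h1]
  rw [sum_comm]
  refine sum_congr rfl fun p _ => ?_
  rw [sum_comm]
  refine sum_congr rfl fun p' _ => ?_
  rw [mul_sum]

open ComplexConjugate in
/-- the main term of the Fourier identity over the units -/
theorem fourier_units_approx {κ : Type*} (S : Finset κ) (c : κ → ℂ) (t : κ → ZMod q) (s : ZMod q)
    {K : ℝ} (hK : 0 ≤ K) (h : ∀ p ∈ S, ∀ p' ∈ S, t p - t p' + s ≠ 0 →
      ‖∑ u : (ZMod q)ˣ, (ZMod.stdAddChar ((u : ZMod q) * (t p - t p' + s)) : ℂ)‖ ≤ K) :
    ‖∑ u : (ZMod q)ˣ, ((‖∑ p ∈ S, c p * ZMod.stdAddChar ((u : ZMod q) * t p)‖ ^ 2 : ℝ) : ℂ) *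
      ZMod.stdAddChar ((u : ZMod q) * s) - (((Fintype.card (ZMod q)ˣ : ℕ) : ℝ) : ℂ) *
      ∑ p ∈ S, ∑ p' ∈ S, (if t p - t p' + s = 0 then c p * conj (c p') else 0)‖ ≤
      K * (∑ p ∈ S, ‖c p‖) ^ 2 := by
  classical
  rw [fourier_units, mul_sum, ← sum_sub_distrib]
  calc ‖∑ p ∈ S, (∑ p' ∈ S, c p * conj (c p') *
        ∑ u : (ZMod q)ˣ, (ZMod.stdAddChar ((u : ZMod q) * (t p - t p' + s)) : ℂ) -
        (((Fintype.card (ZMod q)ˣ : ℕ) : ℝ) : ℂ) *
          ∑ p' ∈ S, (if t p - t p' + s = 0 then c p * conj (c p') else 0))‖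
      ≤ ∑ p ∈ S, ∑ p' ∈ S, ‖c p‖ * ‖c p'‖ * K := by
        refine (norm_sum_le _ _).trans (sum_le_sum fun p hp => ?_)
        rw [mul_sum, ← sum_sub_distrib]
        refine (norm_sum_le _ _).trans (sum_le_sum fun p' hp' => ?_)
        by_cases h0 : t p - t p' + s = 0
        · rw [if_pos h0, h0]
          simp only [mul_zero, AddChar.map_zero_eq_one, sum_const, card_univ, nsmul_eq_mul, mul_one]
          have : c p * conj (c p') * ((Fintype.card (ZMod q)ˣ : ℕ) : ℂ) -
              (((Fintype.card (ZMod q)ˣ : ℕ) : ℝ) : ℂ) * (c p * conj (c p')) = 0 := by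
            push_cast
            ring
          rw [this, norm_zero]
          positivity
        · rw [if_neg h0, mul_zero, sub_zero, norm_mul, norm_mul, Complex.norm_conj]
          exact mul_le_mul_of_nonneg_left (h p hp p' hp' h0) (by positivity)
    _ = K * (∑ p ∈ S, ‖c p‖) ^ 2 := by
        rw [sq, sum_mul_sum, mul_sum]
        refine sum_congr rfl fun p _ => ?_
        rw [mul_sum]
        exact sum_congr rfl fun p' _ => by ring

/-- **Inhomogeneous approximation by units.** -/
theorem exists_approx_unit {ι : Type*} [Fintype ι] [DecidableEq ι] (D : ι → ℤ) (φ : ι → ℝ)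
    {M m : ℕ} (hM : 1 ≤ M) (hm : 2 ≤ m) {δ θ : ℝ} (hδ0 : 0 < δ) (hδm : 2 ≤ δ ^ 2 * m) (hθ0 : 0 ≤ θ)
    (hE : δ * (M : ℝ) ^ Fintype.card ι < 1)
    (hθ : Fintype.card ι * (1 - Real.cos (Real.pi / (M + 1))) +
      (2 * Fintype.card ι + θ) * (δ * (M : ℝ) ^ Fintype.card ι) ≤ θ)
    (hno : ∀ ρ : ι → ℤ, (∀ i, |ρ i| ≤ M) → ρ ≠ 0 →
      m ≤ addOrderOf (∑ i, ((ρ i : ℤ) : ZMod q) * ((D i : ℤ) : ZMod q))) :
    ∃ a : (ZMod q)ˣ, ∑ i, (1 - Real.cos (2 * Real.pi *
      ((((a : ZMod q).val : ℤ) : ℝ) * D i / q - φ i))) ≤ θ := by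
  classical
  have hq : (0 : ℝ) < q := by exact_mod_cast Nat.pos_of_ne_zero (NeZero.ne q)
  have hno0 : ∀ ρ : ι → ℤ, (∀ i, |ρ i| ≤ M) →
      ∑ i, ((ρ i : ℤ) : ZMod q) * ((D i : ℤ) : ZMod q) = 0 → ρ = 0 := by
    intro ρ h1 h2
    by_contra h3
    have h4 := hno ρ h1 h3
    rw [h2, addOrderOf_zero] at h4
    omega
  obtain ⟨c, box, S₀, hSpos, hbox, hG, hmain0, hmainD⟩ := main_terms D φ hM hno0
  by_contra hcon
  push Not at hcon
  set r := Fintype.card ι with hr
  set t : (ι → ℕ) → ZMod q := fun p => ∑ i, ((p i : ℕ) : ZMod q) * ((D i : ℤ) : ZMod q) with ht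
  set W : (ZMod q)ˣ → ℝ := fun a => ‖∑ p ∈ box, c p * ZMod.stdAddChar ((a : ZMod q) * t p)‖ ^ 2
    with hW
  set Φ : ℝ := ((Fintype.card (ZMod q)ˣ : ℕ) : ℝ) with hΦ
  have hΦ0 : 0 < Φ := Nat.cast_pos.2 Fintype.card_pos
  have hδΦ : 0 < δ * Φ := mul_pos hδ0 hΦ0
  set E : ℝ := δ * (M : ℝ) ^ r with hEdef
  have hE0 : 0 < E := by
    have : (0 : ℝ) < M := by exact_mod_cast hM
    positivity
  have hSr : 0 < S₀ ^ r := by positivity
  have hEr : δ * Φ * (∑ p ∈ box, ‖c p‖) ^ 2 ≤ Φ * S₀ ^ r * E := by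
    refine (mul_le_mul_of_nonneg_left hG hδΦ.le).trans (le_of_eq ?_)
    rw [hEdef]
    ring
  -- the total weight
  have b0 : |∑ u, W u - Φ * S₀ ^ r| ≤ Φ * S₀ ^ r * E := by
    have h1 := fourier_units_approx box c t 0 hδΦ.le (fun p hp p' hp' hne => by
      have e : t p - t p' + 0 = ∑ i, (((p i : ℤ) - p' i : ℤ) : ZMod q) * ((D i : ℤ) : ZMod q) := by
        rw [add_zero, ht]
        simp only
        rw [← sum_sub_distrib]
        refine sum_congr rfl fun i _ => ?_
        push_cast
        ring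
      rw [e]
      refine unit_avg_le q _ m (hno (fun i => (p i : ℤ) - p' i) (fun i => ?_) ?_) δ hδ0 hδm
      · have := hbox p hp i
        have := hbox p' hp' i
        rw [abs_le]; constructor <;> omega
      · intro h2
        apply hne
        rw [e]
        refine sum_eq_zero fun i _ => ?_
        have := congrFun h2 i
        simp only [Pi.zero_apply] at this
        rw [this]
        simp)
    simp only [mul_zero, AddChar.map_zero_eq_one, mul_one, add_zero] at h1
    rw [hmain0] at h1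
    have h2 : ((∑ u, W u - Φ * S₀ ^ r : ℝ) : ℂ) =
        ∑ u : (ZMod q)ˣ, ((‖∑ p ∈ box, c p * ZMod.stdAddChar ((u : ZMod q) * t p)‖ ^ 2 : ℝ) : ℂ) -
        (Φ : ℂ) * ((S₀ ^ r : ℝ) : ℂ) := by
      rw [Complex.ofReal_sub, Complex.ofReal_sum, Complex.ofReal_mul]
    rw [← h2, Complex.norm_real] at h1
    exact h1.trans hEr
  -- the correlations
  have hcos : ∀ (a : ZMod q) (i : ι),
      Real.cos (2 * Real.pi * (((a.val : ℤ) : ℝ) * D i / q - φ i)) =
      ((ZMod.stdAddChar (a * ((D i : ℤ) : ZMod q)) : ℂ) * ph φ i).re := by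
    intro a i
    have h3 : a * ((D i : ℤ) : ZMod q) = (((a.val : ℤ) * D i : ℤ) : ZMod q) := by
      push_cast
      rw [ZMod.natCast_val, ZMod.cast_id', id]
    rw [h3, ZMod.stdAddChar_coe]
    simp only [ph]
    rw [← Complex.exp_add]
    have e : (2 * Real.pi * Complex.I * ((((a.val : ℤ) * D i : ℤ)) : ℂ) / q : ℂ) +
        ((-(2 * Real.pi * φ i) : ℝ) : ℂ) * Complex.I =
        ((2 * Real.pi * (((a.val : ℤ) : ℝ) * D i / q - φ i) : ℝ) : ℂ) * Complex.I := by
      push_cast
      ring
    rw [e, Complex.exp_ofReal_mul_I_re]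
  have hph : ∀ i, ‖ph φ i‖ = 1 := by
    intro i
    unfold ph
    exact Complex.norm_exp_ofReal_mul_I _
  have bD : ∀ i, Φ * (Real.cos (Real.pi / (M + 1)) * S₀ ^ r) - Φ * S₀ ^ r * E ≤
      ∑ u, W u * Real.cos (2 * Real.pi * ((((u : ZMod q).val : ℤ) : ℝ) * D i / q - φ i)) := by
    intro i
    have h1 := fourier_units_approx box c t ((D i : ℤ) : ZMod q) hδΦ.le (fun p hp p' hp' hne => by
      have e : t p - t p' + ((D i : ℤ) : ZMod q) =
          ∑ k, (((p k : ℤ) - p' k + (if k = i then 1 else 0) : ℤ) : ZMod q) * ((D k : ℤ) : ZMod q) := by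
        rw [ht]
        simp only
        rw [← sum_sub_distrib]
        have e : ((D i : ℤ) : ZMod q) = ∑ k, if k = i then ((D k : ℤ) : ZMod q) else 0 := by
          rw [sum_ite_eq' univ i, if_pos (mem_univ _)]
        conv_lhs => rw [e]
        rw [← sum_add_distrib]
        refine sum_congr rfl fun k _ => ?_
        split_ifs <;> push_cast <;> ring
      rw [e]
      refine unit_avg_le q _ m (hno (fun k => (p k : ℤ) - p' k + (if k = i then 1 else 0))
        (fun k => ?_) ?_) δ hδ0 hδm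
      · have := hbox p hp k
        have := hbox p' hp' k
        rw [abs_le]; split_ifs <;> constructor <;> omega
      · intro h2
        apply hne
        rw [e]
        refine sum_eq_zero fun k _ => ?_
        have := congrFun h2 k
        simp only [Pi.zero_apply] at this
        rw [this]
        simp)
    have h4 : ((∑ u, W u * Real.cos (2 * Real.pi * ((((u : ZMod q).val : ℤ) : ℝ) * D i / q - φ i)) : ℝ)) =
        (ph φ i * ∑ u : (ZMod q)ˣ, ((W u : ℝ) : ℂ) *
          ZMod.stdAddChar ((u : ZMod q) * ((D i : ℤ) : ZMod q))).re := by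
      rw [mul_sum, Complex.re_sum]
      refine sum_congr rfl fun a _ => ?_
      rw [hcos]
      have : ph φ i * (((W a : ℝ) : ℂ) * ZMod.stdAddChar ((a : ZMod q) * ((D i : ℤ) : ZMod q))) =
          ((W a : ℝ) : ℂ) * (ZMod.stdAddChar ((a : ZMod q) * ((D i : ℤ) : ZMod q)) * ph φ i) := by
        ring
      rw [this, Complex.re_ofReal_mul]
    set X : ℂ := ∑ u : (ZMod q)ˣ, ((W u : ℝ) : ℂ) *
          ZMod.stdAddChar ((u : ZMod q) * ((D i : ℤ) : ZMod q)) with hX
    set Z : ℂ := ∑ p ∈ box, ∑ p' ∈ box, (if t p - t p' + ((D i : ℤ) : ZMod q) = 0 then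
      c p * (starRingEnd ℂ) (c p') else 0) with hZ
    have h5 : ‖X - (Φ : ℂ) * Z‖ ≤ Φ * S₀ ^ r * E := h1.trans hEr
    have h6 : ph φ i * Z = ((Real.cos (Real.pi / (M + 1)) * S₀ ^ r : ℝ) : ℂ) := hmainD i
    have h7 : (ph φ i * X).re = (ph φ i * (X - (Φ : ℂ) * Z)).re +
        Φ * (Real.cos (Real.pi / (M + 1)) * S₀ ^ r) := by
      have e1 : ph φ i * X = ph φ i * (X - (Φ : ℂ) * Z) + (Φ : ℂ) * (ph φ i * Z) := by ring
      rw [e1, h6, Complex.add_re, Complex.re_ofReal_mul, Complex.ofReal_re]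
    have h8 : |(ph φ i * (X - (Φ : ℂ) * Z)).re| ≤ Φ * S₀ ^ r * E := by
      refine (Complex.abs_re_le_norm _).trans ?_
      rw [norm_mul, hph, one_mul]
      exact h5
    rw [h4, h7]
    have := (abs_le.1 h8).1
    linarith
  -- conclusion
  have hWlow : Φ * S₀ ^ r * (1 - E) ≤ ∑ u, W u := by
    have := (abs_le.1 b0).1
    linarith
  have hWpos : 0 < ∑ u, W u := lt_of_lt_of_le (by
    have : 0 < 1 - E := by linarith
    positivity) hWlow
  have hsum : ∑ u, W u * θ <
      ∑ u, W u * ∑ i, (1 - Real.cos (2 * Real.pi * ((((u : ZMod q).val : ℤ) : ℝ) * D i / q - φ i))) := by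
    refine sum_lt_sum (fun a _ => mul_le_mul_of_nonneg_left (hcon a).le (by positivity)) ?_
    obtain ⟨a, -, ha⟩ := exists_lt_of_sum_lt (s := univ) (f := fun _ => (0 : ℝ)) (g := W)
      (by simpa using hWpos)
    exact ⟨a, mem_univ _, mul_lt_mul_of_pos_left (hcon a) ha⟩
  rw [← sum_mul] at hsum
  have h6 : ∑ u, W u * ∑ i, (1 - Real.cos (2 * Real.pi * ((((u : ZMod q).val : ℤ) : ℝ) * D i / q -
      φ i))) ≤ r * (Φ * S₀ ^ r * ((1 - Real.cos (Real.pi / (M + 1))) + 2 * E)) := by
    have e1 : ∀ u : (ZMod q)ˣ, W u * ∑ i, (1 - Real.cos (2 * Real.pi *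
        ((((u : ZMod q).val : ℤ) : ℝ) * D i / q - φ i))) =
        ∑ i, (W u - W u * Real.cos (2 * Real.pi *
          ((((u : ZMod q).val : ℤ) : ℝ) * D i / q - φ i))) := by
      intro a
      rw [mul_sum]
      exact sum_congr rfl fun i _ => by ring
    simp only [e1]
    rw [sum_comm]
    have e2 : ∀ i ∈ (univ : Finset ι), ∑ u, (W u - W u * Real.cos (2 * Real.pi *
        ((((u : ZMod q).val : ℤ) : ℝ) * D i / q - φ i))) ≤
        Φ * S₀ ^ r * ((1 - Real.cos (Real.pi / (M + 1))) + 2 * E) := by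
      intro i _
      rw [sum_sub_distrib]
      have := (abs_le.1 b0).2
      have := bD i
      linarith
    have e3 := sum_le_card_nsmul _ _ _ e2
    rwa [card_univ, nsmul_eq_mul, ← hr] at e3
  have h7 := mul_le_mul_of_nonneg_right hWlow hθ0
  have hΦS : 0 < Φ * S₀ ^ r := by positivity
  have h8 : (Φ * S₀ ^ r) * ((1 - E) * θ) <
      (Φ * S₀ ^ r) * (r * ((1 - Real.cos (Real.pi / (M + 1))) + 2 * E)) := by
    calc (Φ * S₀ ^ r) * ((1 - E) * θ) = Φ * S₀ ^ r * (1 - E) * θ := by ring
      _ ≤ (∑ u, W u) * θ := h7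
      _ < _ := hsum
      _ ≤ _ := h6
      _ = _ := by ring
  have h9 := lt_of_mul_lt_mul_left h8 hΦS.le
  nlinarith

end unitappr

end Pool.Agent.Helper25K9.PC
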