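import Mathlib
import Pool.Agent.R340.P3.LineR
import Pool.Agent.R340.SY.Ineq

set_option autoImplicit false

/-!
Line subbundles of a semistable parabolic bundle of degree zero: the inequality for the integral
parts of the weights.
-/

open Polynomial Finset

namespace Pool.Agent.Helper25K9.PC

open Pool.Agent.Y227.SS Pool.Agent.R340.P3
open Pool.Agent.R340.SY (expo)

section line

variable {K : Type*} [Field K] {m r : ℕ}

/-- **The inequality for line subbundles of a semistable bundle.** -/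
theorem line_semi {x : Fin m → Fin r → ℝ} {y : Fin r → ℝ}
    (hst : SemistableWeights K x y) (v : Fin m → ℝ) (Θ : ℝ) (F : ℤ)
    (hF : ∑ j, ∑ l, x j l = ∑ l, y l + F)
    (hc : ∑ j, ∑ l, ⌈v j - x j l⌉ + F < ∑ l, (⌊Θ - y l⌋ + 1)) : ∑ j, v j ≤ Θ := by
  classical
  obtain ⟨β, P, w, e, hβ, hP, hw, hwx, hey, hsum, hstab⟩ := hst
  choose σ hσ using hwx
  choose g hg using hσ
  obtain ⟨ρ, hρ⟩ := hey
  choose h hh using hρ
  -- pass to the weights
  have h1 : ∀ j, ∑ l, ⌈v j - w j l⌉ = ∑ l, ⌈v j - x j l⌉ - ∑ l, g j l := by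
    intro j
    rw [← Equiv.sum_comp (σ j) (fun l => ⌈v j - x j l⌉), ← sum_sub_distrib]
    refine sum_congr rfl fun l _ => ?_
    rw [hg j l, ← sub_sub, Int.ceil_sub_intCast]
  have h2 : ∑ l, (⌊Θ - e l⌋ + 1) = ∑ l, (⌊Θ - y l⌋ + 1) - ∑ l, h l := by
    rw [← Equiv.sum_comp ρ (fun l => ⌊Θ - y l⌋ + 1), ← sum_sub_distrib]
    refine sum_congr rfl fun l _ => ?_
    rw [hh l, ← sub_sub, Int.floor_sub_intCast]
    ring
  have h3 : F = ∑ l, h l - ∑ j, ∑ l, g j l := by
    have e1 : ∀ j, ∑ l, w j l = ∑ l, x j l + ((∑ l, g j l : ℤ) : ℝ) := by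
      intro j
      push_cast
      rw [← Equiv.sum_comp (σ j) (fun l => x j l), ← sum_add_distrib]
      exact sum_congr rfl fun l _ => hg j l
    have e2 : ∑ l, e l = ∑ l, y l + ((∑ l, h l : ℤ) : ℝ) := by
      push_cast
      rw [← Equiv.sum_comp ρ (fun l => y l), ← sum_add_distrib]
      exact sum_congr rfl fun l _ => hh l
    rw [sum_congr rfl fun j _ => e1 j, sum_add_distrib, hF, e2] at hsum
    have e3 : (F : ℝ) = ((∑ l, h l - ∑ j, ∑ l, g j l : ℤ) : ℝ) := by
      push_cast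
      push_cast at hsum
      linarith
    exact_mod_cast e3
  have hc' : ∑ j, ∑ l, ⌈v j - w j l⌉ < ∑ l, (⌊Θ - e l⌋ + 1) := by
    rw [sum_congr rfl fun j _ => h1 j, sum_sub_distrib, h2]
    linarith
  -- shift to the unit interval
  set n : Fin m → ℤ := fun j => ⌈v j⌉ - 1 with hn
  set v' : Fin m → ℝ := fun j => v j - n j with hv'
  set Θ' : ℝ := Θ - ((∑ j, n j : ℤ) : ℝ) with hΘ'
  have hv0 : ∀ j, 0 < v' j ∧ v' j ≤ 1 := by
    intro j
    have e1 := Int.le_ceil (v j)
    have e2 := Int.ceil_lt_add_one (v j)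
    simp only [hv', hn]
    push_cast
    constructor <;> linarith
  have hc'' : ∑ j, ∑ l, ⌈v' j - w j l⌉ < ∑ l, (⌊Θ' - e l⌋ + 1) := by
    have e1 : ∀ j, ∑ l, ⌈v' j - w j l⌉ = ∑ l, ⌈v j - w j l⌉ - r * n j := by
      intro j
      have : ∀ l, ⌈v' j - w j l⌉ = ⌈v j - w j l⌉ - n j := by
        intro l
        rw [← Int.ceil_sub_intCast]
        congr 1
        simp only [hv']; ring
      rw [sum_congr rfl fun l _ => this l, sum_sub_distrib, sum_const, card_univ, Fintype.card_fin]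
      simp
    have e2 : ∑ l, (⌊Θ' - e l⌋ + 1) = ∑ l, (⌊Θ - e l⌋ + 1) - r * ∑ j, n j := by
      have : ∀ l, ⌊Θ' - e l⌋ + 1 = (⌊Θ - e l⌋ + 1) - ∑ j, n j := by
        intro l
        have e3 : Θ' - e l = (Θ - e l) - ((∑ j, n j : ℤ) : ℝ) := by
          simp only [hΘ']; ring
        rw [e3, Int.floor_sub_intCast]
        ring
      rw [sum_congr rfl fun l _ => this l, sum_sub_distrib, sum_const, card_univ, Fintype.card_fin]
      simp
    rw [sum_congr rfl fun j _ => e1 j, sum_sub_distrib, ← mul_sum, e2]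
    linarith
  -- the conditions
  set T : Finset (Fin m × Fin r) := univ.filter fun t => w t.1 t.2 < v' t.1 with hT
  have hcard : (T.card : ℤ) = ∑ j, ∑ l, ⌈v' j - w j l⌉ := by
    rw [← Fintype.sum_prod_type' (fun j l => ⌈v' j - w j l⌉), card_eq_sum_ones]
    push_cast
    rw [hT, sum_filter]
    refine sum_congr rfl fun t _ => ?_
    have e1 := hw t.1 t.2
    have e2 := hv0 t.1
    split_ifs with hlt
    · symm
      rw [Int.ceil_eq_iff]
      push_cast
      constructor <;> linarith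
    · symm
      rw [Int.ceil_eq_iff]
      push_cast
      constructor <;> linarith
  set k : Fin r → ℤ := fun l => ⌊Θ' - e l⌋ with hk
  have hd : T.card < ∑ l, (k l + 1).toNat := by
    have e1 : ∑ l, (k l + 1) ≤ ((∑ l, (k l + 1).toNat : ℕ) : ℤ) := by
      push_cast
      exact sum_le_sum fun l _ => Int.self_le_toNat _
    have e2 : (T.card : ℤ) < ((∑ l, (k l + 1).toNat : ℕ) : ℤ) := by
      rw [hcard]
      exact lt_of_lt_of_le hc'' e1
    exact_mod_cast e2
  obtain ⟨u, hu0, hudeg, hucond⟩ := exists_tuple (fun l => (k l + 1).toNat) T hd β P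
  obtain ⟨l0, hl0⟩ := Function.ne_iff.1 hu0
  let U : Matrix (Fin 1) (Fin r) K[X] := fun _ => u
  have hUne : ∃ J, mnr U J ≠ 0 := by
    refine ⟨fun _ => l0, ?_⟩
    rw [mnr_one]
    exact hl0
  have hent : ∀ j l, (U * (P j).map C) 0 l = ∑ i, u i * C (P j i l) := by
    intro j l
    rw [Matrix.mul_apply]
    rfl
  have hτ : ∀ j J, mnr (U * (P j).map C) J ≠ 0 →
      v' j ≤ (mnr (U * (P j).map C) J).rootMultiplicity (β j) + ∑ t : Fin 1, w j (J t) := by
    intro j J hJ
    rw [mnr_one] at hJ ⊢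
    rw [Fin.sum_univ_one]
    have hr0 : (0 : ℝ) ≤ ((U * (P j).map C) 0 (J 0)).rootMultiplicity (β j) := Nat.cast_nonneg _
    by_cases hlt : w j (J 0) < v' j
    · have hroot : 1 ≤ ((U * (P j).map C) 0 (J 0)).rootMultiplicity (β j) := by
        rw [Nat.one_le_iff_ne_zero, ← pos_iff_ne_zero, rootMultiplicity_pos hJ, IsRoot.def, hent]
        have := hucond (j, J 0) (mem_filter.2 ⟨mem_univ _, hlt⟩)
        simp only [eval_finsetSum, eval_mul, eval_C]
        exact this
      have hroot' : (1 : ℝ) ≤ ((U * (P j).map C) 0 (J 0)).rootMultiplicity (β j) := by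
        exact_mod_cast hroot
      have := (hw j (J 0)).1
      have := (hv0 j).2
      linarith
    · linarith
  obtain ⟨J, hJ, hlt⟩ := hstab 1 U hUne v' hτ
  rw [mnr_one] at hJ hlt
  rw [Fin.sum_univ_one] at hlt
  have hJ' : u (J 0) ≠ 0 := hJ
  have hU0 : U 0 (J 0) = u (J 0) := rfl
  rw [hU0] at hlt
  have hdeg : ((u (J 0)).natDegree : ℤ) ≤ k (J 0) := by
    have e1 := (natDegree_lt_iff_degree_lt hJ').2 (hudeg (J 0))
    omega
  have hdeg' : ((u (J 0)).natDegree : ℝ) ≤ k (J 0) := by exact_mod_cast hdeg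
  have hfl : (k (J 0) : ℝ) ≤ Θ' - e (J 0) := Int.floor_le _
  have hfin : ∑ j, v' j ≤ Θ' := by linarith
  simp only [hv', hΘ', sum_sub_distrib] at hfin
  push_cast at hfin
  linarith

end line

section expo

variable {m n : ℕ} {lam : Fin m → Fin n → ℚ} {phi : Fin n → ℚ}

lemma sum_expo {F : ℤ} (hF : ∑ j, ∑ l, lam j l = ∑ l, phi l + F) :
    ∑ x, ∑ l, expo lam phi x l = F := by
  rw [Fintype.sum_option]
  simp only [expo, sum_neg_distrib, hF]
  ring

/-- The inequality for line subbundles, semistable case. -/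
theorem floor_le (a F : ℤ) (hF : ∑ j, ∑ l, lam j l = ∑ l, phi l + F)
    (hst : SemistableWeights ℂ (fun j l => (a : ℝ) * lam j l) (fun l => (a : ℝ) * phi l))
    (β : Option (Fin m) → ℚ) (hβ : 0 < ∑ x, β x) :
    ∑ x, ∑ l, ⌊(a : ℚ) * expo lam phi x l - β x⌋ ≤ a * F - n := by
  by_contra hlt
  push Not at hlt
  rw [Fintype.sum_option] at hlt hβ
  have e1 : ∀ (j : Fin m) (l : Fin n), ⌈((β (some j) : ℚ) : ℝ) - (a : ℝ) * lam j l⌉ =
      -⌊(a : ℚ) * expo lam phi (some j) l - β (some j)⌋ := by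
    intro j l
    rw [← Rat.floor_cast (α := ℝ), ← Int.ceil_neg]
    congr 1
    simp only [expo]
    push_cast
    ring
  have e2 : ∀ l : Fin n, ⌊((-β none : ℚ) : ℝ) - (a : ℝ) * phi l⌋ =
      ⌊(a : ℚ) * expo lam phi none l - β none⌋ := by
    intro l
    rw [← Rat.floor_cast (α := ℝ)]
    congr 1
    simp only [expo]
    push_cast
    ring
  have h := line_semi hst (fun j => ((β (some j) : ℚ) : ℝ)) ((-β none : ℚ) : ℝ) (a * F) (by
    simp only [← mul_sum]
    have h4 : ((∑ j, ∑ l, lam j l : ℚ) : ℝ) = ((∑ l, phi l + F : ℚ) : ℝ) := by rw [hF]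
    push_cast at h4 ⊢
    rw [h4]
    ring) (by
    simp only [e1, e2]
    rw [sum_add_distrib]
    simp only [sum_const, card_univ, Fintype.card_fin, smul_eq_mul, mul_one, sum_neg_distrib]
    simp only [nsmul_eq_mul, mul_one]
    linarith)
  have h5 : ((∑ j, β (some j) : ℚ) : ℝ) ≤ ((-β none : ℚ) : ℝ) := by
    push_cast at h ⊢
    exact h
  have h6 : ∑ j, β (some j) ≤ -β none := by exact_mod_cast h5
  linarith

end expo

end Pool.Agent.Helper25K9.PC
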