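import Mathlib
import Pool.Agent.Helper25K9.PC.Semi
import Pool.Agent.R340.SY.Ineq

set_option autoImplicit false

/-!
Splitting of the denominators of the exponents: if the conjugates of the exponents satisfy the
inequalities for line subbundles of semistable bundles, then so do the parts with small denominator.
-/

open Polynomial Finset

namespace Pool.Agent.Helper25K9.PC

open Pool.Agent.R340.SY (exists_lift)

/-- Simultaneous approximation (Dirichlet). -/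
lemma dirichlet {ι : Type*} [Fintype ι] (W : ι → ℚ) (K : ℕ) (hK : 0 < K) :
    ∃ c : ℕ, 0 < c ∧ c ≤ K ^ Fintype.card ι ∧ ∀ i, ∃ z : ℤ, |(c : ℚ) * W i - z| ≤ 1 / K := by
  classical
  have hKq : (0 : ℚ) < K := by exact_mod_cast hK
  have hbd : ∀ y : ℚ, (⌊(K : ℚ) * Int.fract y⌋).toNat < K := by
    intro y
    have h1 : (0 : ℤ) ≤ ⌊(K : ℚ) * Int.fract y⌋ :=
      Int.floor_nonneg.2 (mul_nonneg hKq.le (Int.fract_nonneg y))
    have h2 : ⌊(K : ℚ) * Int.fract y⌋ < K := by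
      rw [Int.floor_lt]
      push_cast
      have := Int.fract_lt_one y
      nlinarith
    omega
  let f : Fin (K ^ Fintype.card ι + 1) → (ι → Fin K) := fun t i =>
    ⟨(⌊(K : ℚ) * Int.fract ((t : ℕ) * W i)⌋).toNat, hbd _⟩
  obtain ⟨s, t, hst, hf⟩ : ∃ s t, s ≠ t ∧ f s = f t := by
    refine Fintype.exists_ne_map_eq_of_card_lt f ?_
    rw [Fintype.card_fun, Fintype.card_fin, Fintype.card_fin]
    exact Nat.lt_succ_self _
  wlog hlt : s < t generalizing s t with hgen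
  · exact hgen t s hst.symm hf.symm (lt_of_le_of_ne (not_lt.1 hlt) hst.symm)
  refine ⟨(t : ℕ) - s, Nat.sub_pos_of_lt hlt, ?_, fun i => ?_⟩
  · have := t.2
    omega
  · refine ⟨⌊((t : ℕ) : ℚ) * W i⌋ - ⌊((s : ℕ) : ℚ) * W i⌋, ?_⟩
    have h1 := congrArg (fun g : ι → Fin K => ((g i : Fin K) : ℕ)) hf
    simp only [f] at h1
    have p1 : (0 : ℤ) ≤ ⌊(K : ℚ) * Int.fract (((s : ℕ) : ℚ) * W i)⌋ :=
      Int.floor_nonneg.2 (mul_nonneg hKq.le (Int.fract_nonneg _))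
    have p2 : (0 : ℤ) ≤ ⌊(K : ℚ) * Int.fract (((t : ℕ) : ℚ) * W i)⌋ :=
      Int.floor_nonneg.2 (mul_nonneg hKq.le (Int.fract_nonneg _))
    have h2 : ⌊(K : ℚ) * Int.fract (((s : ℕ) : ℚ) * W i)⌋ =
        ⌊(K : ℚ) * Int.fract (((t : ℕ) : ℚ) * W i)⌋ := by omega
    have a1 := Int.floor_le ((K : ℚ) * Int.fract (((s : ℕ) : ℚ) * W i))
    have a2 := Int.lt_floor_add_one ((K : ℚ) * Int.fract (((s : ℕ) : ℚ) * W i))
    have b1 := Int.floor_le ((K : ℚ) * Int.fract (((t : ℕ) : ℚ) * W i))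
    have b2 := Int.lt_floor_add_one ((K : ℚ) * Int.fract (((t : ℕ) : ℚ) * W i))
    rw [h2] at a1 a2
    have e : (((t : ℕ) - (s : ℕ) : ℕ) : ℚ) * W i - ((⌊((t : ℕ) : ℚ) * W i⌋ -
        ⌊((s : ℕ) : ℚ) * W i⌋ : ℤ) : ℚ) =
        Int.fract (((t : ℕ) : ℚ) * W i) - Int.fract (((s : ℕ) : ℚ) * W i) := by
      rw [Nat.cast_sub (le_of_lt hlt)]
      unfold Int.fract
      push_cast
      ring
    rw [e, abs_le]
    have hK1 : (K : ℚ) * (1 / K) = 1 := by field_simp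
    constructor
    · by_contra hc
      push Not at hc
      nlinarith
    · by_contra hc
      push Not at hc
      nlinarith

/-- all prime factors are large: small numbers are units -/
lemma coprime_of_small {q c B : ℕ} (hbig : ∀ p : ℕ, p.Prime → p ∣ q → B < p) (hc : 0 < c)
    (hcB : c ≤ B) : Nat.Coprime c q := by
  by_contra h
  obtain ⟨p, hp, hpc, hpq⟩ := Nat.Prime.not_coprime_iff_dvd.1 h
  have := hbig p hp hpq
  have := Nat.le_of_dvd hc hpc
  omega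

/-- The Chinese remainder theorem for units. -/
lemma exists_unit {N q₀ q : ℕ} (hN : 0 < N) (hq₀ : 0 < q₀) (hq : 0 < q) (hco : q₀.Coprime q)
    {a₀ c : ℤ} (h1 : IsCoprime a₀ (q₀ : ℤ)) (h2 : IsCoprime c (q : ℤ)) :
    ∃ a : ℤ, IsCoprime a (N : ℤ) ∧ (q₀ : ℤ) ∣ a - a₀ ∧ (q : ℤ) ∣ a - c := by
  have hco' : IsCoprime (q₀ : ℤ) (q : ℤ) := Nat.isCoprime_iff_coprime.2 hco
  obtain ⟨s, t, hst⟩ := hco'
  -- s * q₀ + t * q = 1
  set u : ℤ := a₀ * (t * q) + c * (s * q₀) with hu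
  have hu1 : (q₀ : ℤ) ∣ u - a₀ := by
    refine ⟨s * (c - a₀), ?_⟩
    have : t * (q : ℤ) = 1 - s * q₀ := by linarith
    rw [hu, this]; ring
  have hu2 : (q : ℤ) ∣ u - c := by
    refine ⟨t * (a₀ - c), ?_⟩
    have : s * (q₀ : ℤ) = 1 - t * q := by linarith
    rw [hu, this]; ring
  have c1 : IsCoprime u (q₀ : ℤ) := by
    obtain ⟨k, hk⟩ := hu1
    have : u = a₀ + k * q₀ := by linarith
    rw [this]
    exact (IsCoprime.add_mul_right_left_iff (x := a₀) (y := (q₀ : ℤ)) (z := k)).2 h1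
  have c2 : IsCoprime u (q : ℤ) := by
    obtain ⟨k, hk⟩ := hu2
    have : u = c + k * q := by linarith
    rw [this]
    exact (IsCoprime.add_mul_right_left_iff (x := c) (y := (q : ℤ)) (z := k)).2 h2
  have c3 : IsCoprime u ((q₀ * q : ℕ) : ℤ) := by
    push_cast
    exact c1.mul_right c2
  obtain ⟨a, ha, hau⟩ := exists_lift (q := q₀ * q) (N := q₀ * q * N)
    (Nat.mul_pos (Nat.mul_pos hq₀ hq) hN) (dvd_mul_right _ _) u c3
  refine ⟨a, IsCoprime.of_isCoprime_of_dvd_right ha (by push_cast; exact dvd_mul_left _ _), ?_, ?_⟩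
  · have e : a - a₀ = (a - u) + (u - a₀) := by ring
    rw [e]
    exact dvd_add (dvd_trans (by push_cast; exact dvd_mul_right _ _) hau) hu1
  · have e : a - c = (a - u) + (u - c) := by ring
    rw [e]
    exact dvd_add (dvd_trans (by push_cast; exact dvd_mul_left _ _) hau) hu2

/-- a rational number with coprime denominators is an integer -/
lemma int_of_coprime {q₀ q : ℕ} (hco : q₀.Coprime q) {x : ℚ} (h1 : ∃ z : ℤ, (q₀ : ℚ) * x = z)
    (h2 : ∃ z : ℤ, (q : ℚ) * x = z) : ∃ z : ℤ, x = z := by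
  obtain ⟨s, t, hst⟩ : IsCoprime (q₀ : ℤ) (q : ℤ) := Nat.isCoprime_iff_coprime.2 hco
  obtain ⟨y, hy⟩ := h1
  obtain ⟨z, hz⟩ := h2
  refine ⟨s * y + t * z, ?_⟩
  have h3 : (s : ℚ) * q₀ + t * q = 1 := by exact_mod_cast hst
  push_cast
  rw [← hy, ← hz]
  linear_combination (-x) * h3

/-- The inequalities for line subbundles of semistable parabolic bundles with the exponents `e`
(modulo the integers), of parabolic degree zero and with `∑ e = F`. -/
def LineIneq {X : Type*} [Fintype X] {n : ℕ} (e : X → Fin n → ℚ) : Prop :=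
  ∀ β : X → ℚ, 0 < ∑ x, β x → (n : ℚ) + ∑ x, ∑ l, (⌊e x l - β x⌋ : ℚ) ≤ ∑ x, ∑ l, e x l

theorem split_core {X : Type*} [Fintype X] [DecidableEq X] {n : ℕ} (hn : 0 < n)
    (e v w : X → Fin n → ℚ) {N q₀ q : ℕ} (hN : 0 < N) (hq₀ : 0 < q₀) (hq : 0 < q)
    (hco : q₀.Coprime q) (F : ℤ) (hF : ∑ x, ∑ l, e x l = F) (he : ∀ x l, e x l = v x l + w x l)
    (hv : ∀ x l, ∃ z : ℤ, (q₀ : ℚ) * v x l = z)
    (hw : ∀ x l l', ∃ z : ℤ, (q : ℚ) * (w x l - w x l') = z)
    (hW : ∀ κ : X → Fin n, ∃ z : ℤ, (q : ℚ) * ∑ x, w x (κ x) = z) (Y : Finset X)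
    (hY : ∀ x, x ∉ Y → ∀ l l', ∃ z : ℤ, w x l - w x l' = z)
    (hbig : ∀ p : ℕ, p.Prime → p ∣ q → (n * (Y.card + 1) * q₀ + 1) ^ (Y.card * (n - 1) + 1) < p)
    (H : ∀ a : ℤ, IsCoprime a (N : ℤ) → LineIneq fun x l => (a : ℚ) * e x l) :
    ∀ a₀ : ℤ, IsCoprime a₀ (q₀ : ℤ) → LineIneq fun x l => (a₀ : ℚ) * v x l := by
  classical
  intro a₀ ha₀ β hβ
  set l₀ : Fin n := ⟨0, hn⟩ with hl₀
  have hq₀' : (0 : ℚ) < q₀ := by exact_mod_cast hq₀
  have hn' : (1 : ℚ) ≤ n := by exact_mod_cast hn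
  set k : ℕ := Y.card with hk
  set K : ℕ := n * (k + 1) * q₀ + 1 with hK
  have hKpos : 0 < K := Nat.succ_pos _
  have hKq : (0 : ℚ) < K := by exact_mod_cast hKpos
  set η : ℚ := 1 / K with hη
  have hηpos : 0 < η := by rw [hη]; positivity
  have hηK : η * K = 1 := by rw [hη]; field_simp
  -- the coordinates which must be small
  let ι := Option ({x // x ∈ Y} × {l : Fin n // l ≠ l₀})
  let W : ι → ℚ := fun i => match i with
    | none => ∑ x, w x l₀
    | some p => w p.1.1 p.2.1 - w p.1.1 l₀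
  have hcard : Fintype.card ι = k * (n - 1) + 1 := by
    simp only [ι]
    rw [Fintype.card_option, Fintype.card_prod, Fintype.card_coe]
    congr 2
    have := Set.card_ne_eq l₀
    simp at this
    simp [this]
  obtain ⟨c, hc0, hcle, hcz⟩ := dirichlet W K hKpos
  rw [hcard] at hcle
  have hcq : IsCoprime ((c : ℕ) : ℤ) (q : ℤ) :=
    Nat.isCoprime_iff_coprime.2 (coprime_of_small hbig hc0 hcle)
  obtain ⟨a, haN, ha0, hac⟩ := exists_unit hN hq₀ hq hco ha₀ hcq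
  obtain ⟨d₀, hd₀⟩ := ha0
  obtain ⟨d, hd⟩ := hac
  have ea0 : (a : ℚ) = a₀ + q₀ * d₀ := by
    have : a = a₀ + q₀ * d₀ := by linarith
    rw [this]; push_cast; ring
  have eac : (a : ℚ) = c + q * d := by
    have : a = c + q * d := by linarith
    rw [this]; push_cast; ring
  -- integers close to the `a (w x l - w x l₀)`
  have hz1 : ∀ x l, ∃ z : ℤ, |(a : ℚ) * (w x l - w x l₀) - z| ≤ η ∧
      (x ∉ Y → (a : ℚ) * (w x l - w x l₀) - z = 0) := by
    intro x l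
    by_cases hx : x ∈ Y
    · by_cases hl : l = l₀
      · exact ⟨0, by rw [hl]; simpa using hηpos.le, fun h => absurd hx h⟩
      · obtain ⟨z, hz⟩ := hcz (some (⟨x, hx⟩, ⟨l, hl⟩))
        obtain ⟨y, hy⟩ := hw x l l₀
        refine ⟨z + d * y, ?_, fun h => absurd hx h⟩
        have : (a : ℚ) * (w x l - w x l₀) - ((z + d * y : ℤ) : ℚ) =
            c * (w x l - w x l₀) - z := by
          rw [eac]; push_cast; rw [← hy]; ring
        rw [this]
        exact hz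
    · obtain ⟨z, hz⟩ := hY x hx l l₀
      have h0 : (a : ℚ) * (w x l - w x l₀) - ((a * z : ℤ) : ℚ) = 0 := by
        rw [hz]; push_cast; ring
      exact ⟨a * z, by rw [h0]; simpa using hηpos.le, fun _ => h0⟩
  choose z hz hzY using hz1
  obtain ⟨z₀, hz₀⟩ : ∃ z₀ : ℤ, |(a : ℚ) * ∑ x, w x l₀ - z₀| ≤ η := by
    obtain ⟨z', hz'⟩ := hcz none
    obtain ⟨y, hy⟩ := hW fun _ => l₀
    refine ⟨z' + d * y, ?_⟩
    have : (a : ℚ) * ∑ x, w x l₀ - ((z' + d * y : ℤ) : ℚ) = c * ∑ x, w x l₀ - z' := by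
      rw [eac]; push_cast; rw [← hy]; ring
    rw [this]
    exact hz'
  -- the integers `(a - a₀) v x l`
  have hg1 : ∀ x l, ∃ g : ℤ, (a : ℚ) * v x l = a₀ * v x l + g := by
    intro x l
    obtain ⟨y, hy⟩ := hv x l
    refine ⟨d₀ * y, ?_⟩
    rw [ea0]; push_cast; rw [← hy]; ring
  choose g hg using hg1
  -- `X` is not empty
  obtain ⟨x₁⟩ : Nonempty X := by
    by_contra hemp
    rw [not_nonempty_iff] at hemp
    simp at hβ
  -- the new `β`
  set βs : X → ℚ := fun x => (⌈(q₀ : ℚ) * β x⌉ : ℚ) / q₀ with hβs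
  have hβs_ge : ∀ x, β x ≤ βs x := by
    intro x
    rw [hβs]
    simp only
    rw [le_div_iff₀ hq₀', mul_comm]
    exact Int.le_ceil _
  have hβs_sum : 1 / (q₀ : ℚ) ≤ ∑ x, βs x := by
    have h1 : 0 < ∑ x, βs x := lt_of_lt_of_le hβ (sum_le_sum fun x _ => hβs_ge x)
    have h2 : ∑ x, βs x = ((∑ x, ⌈(q₀ : ℚ) * β x⌉ : ℤ) : ℚ) / q₀ := by
      rw [hβs, ← sum_div]; push_cast; rfl
    rw [h2] at h1 ⊢
    have h3 : (0 : ℚ) < ((∑ x, ⌈(q₀ : ℚ) * β x⌉ : ℤ) : ℚ) := by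
      have := mul_pos h1 hq₀'
      rwa [div_mul_cancel₀ _ hq₀'.ne'] at this
    have h4 : (0 : ℤ) < ∑ x, ⌈(q₀ : ℚ) * β x⌉ := by exact_mod_cast h3
    have h5 : (1 : ℤ) ≤ ∑ x, ⌈(q₀ : ℚ) * β x⌉ := h4
    have h6 : (1 : ℚ) ≤ ((∑ x, ⌈(q₀ : ℚ) * β x⌉ : ℤ) : ℚ) := by exact_mod_cast h5
    exact div_le_div_of_nonneg_right h6 hq₀'.le
  have hfl : ∀ x l, ((⌊(a₀ : ℚ) * v x l - β x⌋ : ℤ) : ℚ) ≤ a₀ * v x l - βs x := by
    intro x l
    obtain ⟨y, hy⟩ := hv x l
    set j : ℤ := ⌊(a₀ : ℚ) * v x l - β x⌋ with hj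
    have h1 : (j : ℚ) ≤ a₀ * v x l - β x := Int.floor_le _
    have h2 : (q₀ : ℚ) * β x ≤ ((a₀ * y - q₀ * j : ℤ) : ℚ) := by
      push_cast
      rw [← hy]
      nlinarith
    have h3 := Int.ceil_le.2 h2
    have h4 : ((⌈(q₀ : ℚ) * β x⌉ : ℤ) : ℚ) ≤ ((a₀ * y - q₀ * j : ℤ) : ℚ) := by exact_mod_cast h3
    rw [hβs]
    simp only
    have h5 : (((⌈(q₀ : ℚ) * β x⌉ : ℤ) : ℚ)) / q₀ ≤ ((a₀ * y - q₀ * j : ℤ) : ℚ) / q₀ :=
      div_le_div_of_nonneg_right h4 hq₀'.le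
    have h6 : ((a₀ * y - q₀ * j : ℤ) : ℚ) / q₀ = a₀ * v x l - j := by
      push_cast
      rw [← hy]
      field_simp
    rw [h6] at h5
    linarith
  let β' : X → ℚ := fun x => βs x + a * w x l₀ - (if x ∈ Y then η else 0)
    - (if x = x₁ then (z₀ : ℚ) else 0)
  have hβ'_sum : ∑ x, β' x = ∑ x, βs x + (a * ∑ x, w x l₀ - z₀) - k * η := by
    simp only [β', sum_sub_distrib, sum_add_distrib, ← mul_sum]
    rw [sum_ite_mem, univ_inter, sum_const, sum_ite_eq' univ x₁, if_pos (mem_univ _)]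
    simp only [nsmul_eq_mul, ← hk]
    ring
  have hKK : (K : ℚ) = n * (k + 1) * q₀ + 1 := by rw [hK]; push_cast; ring
  have hsmall : (k + 1 : ℚ) * η < 1 / q₀ := by
    rw [lt_div_iff₀ hq₀']
    have h1 : ((k : ℚ) + 1) * q₀ < K := by
      rw [hKK]
      have : (0 : ℚ) ≤ (k + 1) * q₀ := by positivity
      nlinarith
    have h2 : ((k : ℚ) + 1) * η * q₀ = ((k + 1) * q₀) / K := by rw [hη]; ring
    rw [h2, div_lt_one hKq]
    exact h1
  have hβ'_pos : 0 < ∑ x, β' x := by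
    rw [hβ'_sum]
    have := (abs_le.1 hz₀).1
    nlinarith
  have hmain := H a haN β' hβ'_pos
  simp only at hmain
  -- lower bounds for the integral parts
  have hlow : ∀ x l, ((⌊(a₀ : ℚ) * v x l - β x⌋ + g x l + z x l + (if x = x₁ then z₀ else 0) : ℤ) : ℚ)
      ≤ ((⌊(a : ℚ) * e x l - β' x⌋ : ℤ) : ℚ) := by
    intro x l
    have h1 : ⌊(a₀ : ℚ) * v x l - β x⌋ + g x l + z x l + (if x = x₁ then z₀ else 0) ≤
        ⌊(a : ℚ) * e x l - β' x⌋ := by
      rw [Int.le_floor]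
      have h2 : (a : ℚ) * e x l - β' x = (a₀ * v x l - βs x) + g x l +
          (a * (w x l - w x l₀) + (if x ∈ Y then η else 0)) + (if x = x₁ then (z₀ : ℚ) else 0) := by
        simp only [β']
        rw [he x l, mul_add, hg x l]
        ring
      have h3 : (z x l : ℚ) ≤ a * (w x l - w x l₀) + (if x ∈ Y then η else 0) := by
        split_ifs with hx
        · have := (abs_le.1 (hz x l)).1
          linarith
        · have := hzY x l hx
          linarith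
      have h4 := hfl x l
      rw [h2]
      push_cast
      linarith
    exact_mod_cast h1
  have hsumlow := sum_le_sum fun x (_ : x ∈ (univ : Finset X)) =>
    sum_le_sum fun l (_ : l ∈ (univ : Finset (Fin n))) => hlow x l
  push_cast at hsumlow
  simp only [sum_add_distrib] at hsumlow
  have hz0sum : ∑ x : X, ∑ _l : Fin n, (if x = x₁ then (z₀ : ℚ) else 0) = n * z₀ := by
    simp only [sum_const, card_univ, Fintype.card_fin, nsmul_eq_mul]
    rw [← mul_sum, sum_ite_eq' univ x₁, if_pos (mem_univ _)]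
  -- the sums
  have hav : ∑ x, ∑ l, (a : ℚ) * e x l = ∑ x, ∑ l, (a₀ : ℚ) * v x l + ∑ x, ∑ l, (g x l : ℚ)
      + (a * ∑ x, ∑ l, (w x l - w x l₀) + n * (a * ∑ x, w x l₀)) := by
    have h1 : ∀ x, ∑ l, (a : ℚ) * e x l = ∑ l, (a₀ : ℚ) * v x l + ∑ l, (g x l : ℚ) +
        (a * ∑ l, (w x l - w x l₀) + n * (a * w x l₀)) := by
      intro x
      have h2 : ∀ l, (a : ℚ) * e x l = a₀ * v x l + g x l + (a * (w x l - w x l₀) + a * w x l₀) := by
        intro l
        rw [he x l, mul_add, hg x l]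
        ring
      rw [sum_congr rfl fun l _ => h2 l, sum_add_distrib, sum_add_distrib, sum_add_distrib,
        sum_const, card_univ, Fintype.card_fin, nsmul_eq_mul, mul_sum univ _ (a : ℚ)]
    rw [sum_congr rfl fun x _ => h1 x, sum_add_distrib, sum_add_distrib, sum_add_distrib,
      mul_sum univ _ (a : ℚ), mul_sum univ _ (a : ℚ), mul_sum univ _ (n : ℚ)]
  have hzs : ∑ x, ∑ l, (z x l : ℚ) ≥ a * ∑ x, ∑ l, (w x l - w x l₀) - k * n * η := by
    have h1 : ∀ x, a * ∑ l, (w x l - w x l₀) - (if x ∈ Y then n * η else 0) ≤ ∑ l, (z x l : ℚ) := by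
      intro x
      rw [mul_sum]
      split_ifs with hx
      · have h2 : ∀ l : Fin n, (a : ℚ) * (w x l - w x l₀) - η ≤ z x l := fun l => by
          have := (abs_le.1 (hz x l)).2
          linarith
        have h3 := sum_le_sum fun l (_ : l ∈ (univ : Finset (Fin n))) => h2 l
        rw [sum_sub_distrib, sum_const, card_univ, Fintype.card_fin, nsmul_eq_mul] at h3
        exact h3
      · have h2 : ∀ l : Fin n, (a : ℚ) * (w x l - w x l₀) ≤ z x l := fun l => by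
          have := hzY x l hx
          linarith
        have h3 := sum_le_sum fun l (_ : l ∈ (univ : Finset (Fin n))) => h2 l
        linarith
    have h4 := sum_le_sum fun x (_ : x ∈ (univ : Finset X)) => h1 x
    rw [sum_sub_distrib, ← mul_sum, sum_ite_mem, univ_inter, sum_const, ← hk, nsmul_eq_mul] at h4
    have e : (k : ℚ) * (n * η) = k * n * η := by ring
    rw [e] at h4
    exact h4
  rw [hz0sum] at hsumlow
  rw [hav] at hmain
  -- conclusion
  have hz₀' := abs_le.1 hz₀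
  set A : ℚ := a * ∑ x, ∑ l, (w x l - w x l₀) with hA
  set B : ℚ := a * ∑ x, w x l₀ with hB
  set S₀ : ℤ := ∑ x, ∑ l, ⌊(a₀ : ℚ) * v x l - β x⌋ with hS₀
  have hS₀' : (S₀ : ℚ) = ∑ x, ∑ l, ((⌊(a₀ : ℚ) * v x l - β x⌋ : ℤ) : ℚ) := by
    rw [hS₀]; push_cast; rfl
  -- `∑ v` is an integer
  have hsum_e : ∑ x, ∑ l, e x l = ∑ x, ∑ l, v x l + ∑ x, ∑ l, w x l := by
    simp only [he, sum_add_distrib]
  have hV1 : ∃ y : ℤ, (q₀ : ℚ) * ∑ x, ∑ l, v x l = y := by
    choose y hy using hv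
    exact ⟨∑ x, ∑ l, y x l, by push_cast; simp only [mul_sum, hy]⟩
  have hV2 : ∃ y : ℤ, (q : ℚ) * ∑ x, ∑ l, v x l = y := by
    choose y hy using fun l : Fin n => hW fun _ => l
    have h1 : (q : ℚ) * ∑ x, ∑ l, w x l = ((∑ l, y l : ℤ) : ℚ) := by
      rw [sum_comm]
      push_cast
      rw [mul_sum]
      exact sum_congr rfl fun l _ => hy l
    refine ⟨q * F - ∑ l, y l, ?_⟩
    have h2 : ∑ x, ∑ l, v x l = F - ∑ x, ∑ l, w x l := by rw [← hF, hsum_e]; ring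
    rw [h2, mul_sub, h1]
    push_cast
    ring
  obtain ⟨V, hV⟩ := int_of_coprime hco hV1 hV2
  have hVa : ∑ x, ∑ l, (a₀ : ℚ) * v x l = a₀ * V := by
    simp only [← mul_sum]
    rw [hV]
  have hfinal : (n : ℚ) + S₀ < a₀ * V + 1 := by
    have h1 : (n : ℚ) * (k + 1) * η < 1 := by
      have h2 : (n : ℚ) * (k + 1) * η * K = n * (k + 1) := by
        rw [mul_assoc, hηK, mul_one]
      have h3 : (n : ℚ) * (k + 1) < K := by
        rw [hKK]
        have h4 : (1 : ℚ) ≤ q₀ := by exact_mod_cast hq₀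
        have h5 : (0 : ℚ) ≤ n * (k + 1) := by positivity
        nlinarith
      by_contra hcon
      push Not at hcon
      nlinarith
    have h6 : (n : ℚ) * (B - z₀) ≤ n * η := mul_le_mul_of_nonneg_left hz₀'.2 (by linarith)
    rw [hS₀']
    rw [hVa] at hmain
    nlinarith
  have hfinal' : (n : ℤ) + S₀ < a₀ * V + 1 := by exact_mod_cast hfinal
  have h7 : (n : ℤ) + S₀ ≤ a₀ * V := by omega
  have h8 : (n : ℚ) + S₀ ≤ a₀ * V := by exact_mod_cast h7
  show (n : ℚ) + ∑ x, ∑ l, (⌊(a₀ : ℚ) * v x l - β x⌋ : ℚ) ≤ ∑ x, ∑ l, (a₀ : ℚ) * v x l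
  rw [hVa, ← hS₀']
  exact h8

end Pool.Agent.Helper25K9.PC
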