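import Mathlib
import Pool.Agent.Helper25K9.PC.Split

set_option autoImplicit false

/-!
Consequences of the inequalities for line subbundles for at most two points with nonintegral
differences.
-/

open Finset

namespace Pool.Agent.Helper25K9.PC

/-- Hermite's identity. -/
lemma hermite {q : ℕ} (hq : 0 < q) (z : ℤ) : ∑ j ∈ range q, (z + j) / (q : ℤ) = z := by
  have hq' : (q : ℤ) ≠ 0 := by exact_mod_cast hq.ne'
  have step : ∀ z : ℤ, ∑ j ∈ range q, (z + 1 + j) / (q : ℤ) =
      ∑ j ∈ range q, (z + j) / (q : ℤ) + 1 := by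
    intro z
    have h1 := sum_range_succ (fun j : ℕ => (z + j) / (q : ℤ)) q
    have h2 := sum_range_succ' (fun j : ℕ => (z + j) / (q : ℤ)) q
    have h3 : ∀ j : ℕ, (z + ((j + 1 : ℕ) : ℤ)) / (q : ℤ) = (z + 1 + j) / (q : ℤ) := by
      intro j; congr 1; push_cast; ring
    simp only [h3] at h2
    have h4 : (z + (q : ℤ)) / (q : ℤ) = z / q + 1 := by
      rw [Int.add_ediv_of_dvd_right (dvd_refl _), Int.ediv_self hq']
    rw [h1, h4] at h2
    simp only [Nat.cast_zero, add_zero] at h2
    linarith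
  have h0 : ∑ j ∈ range q, ((0 : ℤ) + j) / (q : ℤ) = 0 := by
    refine sum_eq_zero fun j hj => ?_
    rw [zero_add]
    exact Int.ediv_eq_zero_of_lt (by positivity) (by exact_mod_cast mem_range.1 hj)
  induction z using Int.induction_on with
  | zero => exact h0
  | succ i ih => rw [step, ih]
  | pred i ih =>
    have h := step (-(i : ℤ) - 1)
    have e : -(i : ℤ) - 1 + 1 = -i := by ring
    rw [e, ih] at h
    linarith

lemma hermite' {q : ℕ} (hq : 0 < q) (z : ℤ) :
    ∑ j ∈ range q, (z - j - 1) / (q : ℤ) = z - q := by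
  have hq' : (q : ℤ) ≠ 0 := by exact_mod_cast hq.ne'
  rw [← sum_range_reflect]
  have h : ∀ j ∈ range q, (z - ((q - 1 - j : ℕ) : ℤ) - 1) / (q : ℤ) = (z + j) / (q : ℤ) - 1 := by
    intro j hj
    have hj' := mem_range.1 hj
    have e : z - ((q - 1 - j : ℕ) : ℤ) - 1 = (z + j) + (-1) * q := by
      have : ((q - 1 - j : ℕ) : ℤ) = q - 1 - j := by omega
      rw [this]; ring
    rw [e, Int.add_mul_ediv_right _ _ hq']
    ring
  rw [sum_congr rfl h, sum_sub_distrib, hermite hq]
  simp

lemma ediv_step {q : ℕ} (hq : 0 < q) (z : ℤ) :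
    z / (q : ℤ) - (z - 1) / (q : ℤ) = if (q : ℤ) ∣ z then 1 else 0 := by
  have hq' : (0 : ℤ) < q := by exact_mod_cast hq
  have h1 := Int.emod_add_mul_ediv z q
  have h2 := Int.emod_nonneg z hq'.ne'
  have h3 := Int.emod_lt_of_pos z hq'
  split_ifs with h
  · obtain ⟨k, rfl⟩ := h
    have e : (q : ℤ) * k - 1 = (q - 1) + (k - 1) * q := by ring
    rw [e, Int.add_mul_ediv_right _ _ hq'.ne', Int.mul_ediv_cancel_left _ hq'.ne',
      Int.ediv_eq_zero_of_lt (by linarith) (by linarith)]
    ring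
  · have h4 : z % (q : ℤ) ≠ 0 := fun h0 => h (Int.dvd_of_emod_eq_zero h0)
    set r := z % (q : ℤ) with hr
    set d := z / (q : ℤ) with hd
    have e : z - 1 = (r - 1) + d * q := by linarith
    rw [e, Int.add_mul_ediv_right _ _ hq'.ne',
      Int.ediv_eq_zero_of_lt (by omega) (by omega)]
    ring

/-- the counting lemma -/
lemma count_eq {q n : ℕ} (hq : 0 < q) (U T : Fin n → ℤ)
    (h : ∀ j : ℤ, (q : ℤ) * (n + (∑ l, (U l - j - 1) / (q : ℤ) + ∑ l, (T l + j) / (q : ℤ))) ≤
      ∑ l, U l + ∑ l, T l) (j : ℤ) :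
    (univ.filter fun l => (q : ℤ) ∣ U l - j).card = (univ.filter fun l => (q : ℤ) ∣ T l + j).card := by
  have hq' : (0 : ℤ) < q := by exact_mod_cast hq
  set G : ℤ → ℤ := fun j => ∑ l, (U l - j - 1) / (q : ℤ) + ∑ l, (T l + j) / (q : ℤ) with hG
  have hsum : ∀ j : ℤ, ∑ i ∈ range q, G (j + i) = ∑ l, U l + ∑ l, T l - n * q := by
    intro j
    simp only [hG, sum_add_distrib]
    rw [sum_comm, sum_comm (s := range q) (t := univ) (f := fun (i : ℕ) l => (T l + (j + i)) / (q : ℤ))]
    have h1 : ∀ l, ∑ i ∈ range q, (U l - (j + i) - 1) / (q : ℤ) = U l - j - q := by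
      intro l
      rw [← hermite' hq]
      refine sum_congr rfl fun i _ => ?_
      congr 1; ring
    have h2 : ∀ l, ∑ i ∈ range q, (T l + (j + i)) / (q : ℤ) = T l + j := by
      intro l
      rw [← hermite hq (T l + j)]
      refine sum_congr rfl fun i _ => ?_
      congr 1; ring
    simp only [h1, h2, sum_add_distrib, sum_sub_distrib, sum_const, card_univ, Fintype.card_fin,
      nsmul_eq_mul]
    ring
  have heq : ∀ j : ℤ, (q : ℤ) * (n + G j) = ∑ l, U l + ∑ l, T l := by
    intro j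
    refine le_antisymm (h j) ?_
    have h1 := hsum j
    have h2 : range q = insert 0 ((range q).erase 0) := by
      rw [insert_erase (mem_range.2 hq)]
    rw [h2, sum_insert (notMem_erase 0 _)] at h1
    have h3 : ∑ i ∈ (range q).erase 0, (q : ℤ) * (n + G (j + i)) ≤
        ∑ i ∈ (range q).erase 0, (∑ l, U l + ∑ l, T l) := sum_le_sum fun i _ => h (j + i)
    rw [← mul_sum, sum_add_distrib, sum_const, sum_const, card_erase_of_mem (mem_range.2 hq),
      card_range] at h3
    simp only [nsmul_eq_mul, Nat.cast_sub (show 1 ≤ q from hq), Nat.cast_one, Nat.cast_zero,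
      add_zero] at h1 h3
    have h4 : ∑ i ∈ (range q).erase 0, G (j + i) = ∑ l, U l + ∑ l, T l - n * q - G j := by
      linarith
    rw [h4] at h3
    nlinarith
  have h1 := heq j
  have h2 := heq (j - 1)
  have h3 : G (j - 1) = G j := by
    have := h1.trans h2.symm
    have h4 := mul_left_cancel₀ hq'.ne' this
    linarith
  have h5 : G (j - 1) - G j = (∑ l, (if (q : ℤ) ∣ U l - j then (1 : ℤ) else 0)) -
      ∑ l, (if (q : ℤ) ∣ T l + j then (1 : ℤ) else 0) := by
    simp only [hG]
    have e1 : ∀ l, (U l - (j - 1) - 1) / (q : ℤ) = (U l - j - 1) / (q : ℤ) +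
        (if (q : ℤ) ∣ U l - j then (1 : ℤ) else 0) := by
      intro l
      have := ediv_step hq (U l - j)
      have e : U l - (j - 1) - 1 = U l - j := by ring
      rw [e]
      linarith
    have e2 : ∀ l, (T l + j) / (q : ℤ) = (T l + (j - 1)) / (q : ℤ) +
        (if (q : ℤ) ∣ T l + j then (1 : ℤ) else 0) := by
      intro l
      have := ediv_step hq (T l + j)
      have e : T l + (j - 1) = T l + j - 1 := by ring
      rw [e]
      linarith
    simp only [e1, e2, sum_add_distrib]
    ring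
  rw [h3, sub_self, sum_boole, sum_boole] at h5
  have h6 : ((univ.filter fun l => (q : ℤ) ∣ U l - j).card : ℤ) =
      ((univ.filter fun l => (q : ℤ) ∣ T l + j).card : ℤ) := by linarith
  exact_mod_cast h6

lemma floor_half {q : ℕ} (hq : 0 < q) (z : ℤ) {t : ℚ} (h0 : 0 < t) (h1 : t ≤ 1) :
    ⌊(z : ℚ) / q - t / q⌋ = (z - 1) / (q : ℤ) := by
  have hq' : (0 : ℤ) < q := by exact_mod_cast hq
  have hqq : (0 : ℚ) < q := by exact_mod_cast hq
  rw [Int.floor_eq_iff]
  have h2 := Int.emod_add_mul_ediv (z - 1) q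
  have h3 := Int.emod_nonneg (z - 1) hq'.ne'
  have h4 := Int.emod_lt_of_pos (z - 1) hq'
  set d := (z - 1) / (q : ℤ) with hd
  set r := (z - 1) % (q : ℤ) with hr
  have h5 : (z : ℚ) = r + q * d + 1 := by
    have : z = r + q * d + 1 := by linarith
    exact_mod_cast this
  have h3' : (0 : ℚ) ≤ r := by exact_mod_cast h3
  have h4' : (r : ℚ) + 1 ≤ q := by
    have : r + 1 ≤ q := h4
    exact_mod_cast this
  rw [← sub_div, le_div_iff₀ hqq, div_lt_iff₀ hqq]
  constructor
  · nlinarith
  · nlinarith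

lemma den_one_iff (x : ℚ) : x.den = 1 ↔ ∃ z : ℤ, x = z := by
  constructor
  · intro h
    exact ⟨x.num, (Rat.coe_int_num_of_den_eq_one h).symm⟩
  · rintro ⟨z, rfl⟩
    exact Rat.den_intCast z

/-- **At most two points with nonintegral differences.** -/
theorem two_point {X : Type*} [Fintype X] [DecidableEq X] {n : ℕ}
    (e : X → Fin n → ℚ) (h : LineIneq e) {q₀ : ℕ} (hq₀ : 0 < q₀)
    (hsum : ∀ κ : X → Fin n, ∃ z : ℤ, (q₀ : ℚ) * ∑ x, e x (κ x) = z) {x₀ x₁ : X} (hne : x₀ ≠ x₁)
    (hd : ∀ x, x ≠ x₀ → x ≠ x₁ → ∀ l l', ∃ z : ℤ, e x l - e x l' = z) (κ : X → Fin n) (c : ℚ) :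
    (univ.filter fun l =>
        (e x₀ l + ∑ x ∈ (univ.erase x₀).erase x₁, e x (κ x) - c).den = 1).card
      = (univ.filter fun l => (e x₁ l + c).den = 1).card := by
  classical
  have hqq : (0 : ℚ) < q₀ := by exact_mod_cast hq₀
  have hqz : (0 : ℤ) < q₀ := by exact_mod_cast hq₀
  set s : ℚ := ∑ x ∈ (univ.erase x₀).erase x₁, e x (κ x) with hs
  have hx1 : x₁ ∈ univ.erase x₀ := mem_erase.2 ⟨hne.symm, mem_univ _⟩
  set t₀ : ℚ := e x₁ (κ x₁) with ht₀
  have split : ∀ f : X → ℚ, ∑ x, f x = f x₀ + f x₁ + ∑ x ∈ (univ.erase x₀).erase x₁, f x := by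
    intro f
    rw [← add_sum_erase univ f (mem_univ x₀), ← add_sum_erase (univ.erase x₀) f hx1]
    ring
  -- integers
  have hU : ∀ l, ∃ z : ℤ, e x₀ l + s + t₀ = z / q₀ := by
    intro l
    obtain ⟨z, hz⟩ := hsum (Function.update κ x₀ l)
    refine ⟨z, ?_⟩
    rw [split] at hz
    rw [Function.update_self, Function.update_of_ne hne.symm] at hz
    have h1 : ∑ x ∈ (univ.erase x₀).erase x₁, e x (Function.update κ x₀ l x) = s := by
      refine sum_congr rfl fun x hx => ?_
      rw [Function.update_of_ne (ne_of_mem_erase (mem_of_mem_erase hx))]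
    rw [h1] at hz
    rw [eq_div_iff hqq.ne', ← hz]
    ring
  choose U hU using hU
  have hT : ∀ l, ∃ z : ℤ, e x₁ l - t₀ = z / q₀ := by
    intro l
    obtain ⟨z, hz⟩ := hsum (Function.update κ x₁ l)
    obtain ⟨z', hz'⟩ := hsum κ
    refine ⟨z - z', ?_⟩
    rw [split] at hz hz'
    rw [Function.update_self, Function.update_of_ne hne] at hz
    have h1 : ∑ x ∈ (univ.erase x₀).erase x₁, e x (Function.update κ x₁ l x) = s := by
      refine sum_congr rfl fun x hx => ?_
      rw [Function.update_of_ne (ne_of_mem_erase hx)]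
    rw [h1] at hz
    rw [eq_div_iff hqq.ne']
    push_cast
    rw [← hz, ← hz']
    ring
  choose T hT using hT
  have hcount := count_eq hq₀ U T (by
    intro j
    -- the weights of the line bundle
    let β : X → ℚ := fun x => if x = x₀ then -(s + t₀) + (j + 3 / 4) / q₀ else
      if x = x₁ then t₀ - (j + 1 / 2) / q₀ else e x (κ x)
    have hβ : ∑ x, β x = 1 / 4 / q₀ := by
      rw [split]
      have h1 : ∑ x ∈ (univ.erase x₀).erase x₁, β x = s := by
        refine sum_congr rfl fun x hx => ?_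
        simp only [β]
        rw [if_neg (ne_of_mem_erase (mem_of_mem_erase hx)), if_neg (ne_of_mem_erase hx)]
      rw [h1]
      simp only [β, if_true, if_neg hne.symm]
      field_simp
      ring
    have key := h β (by rw [hβ]; positivity)
    rw [split, split] at key
    have h0 : ∑ l, ((⌊e x₀ l - β x₀⌋ : ℤ) : ℚ) = ∑ l, (((U l - j - 1) / (q₀ : ℤ) : ℤ) : ℚ) := by
      refine sum_congr rfl fun l _ => ?_
      congr 1
      have e1 : e x₀ l - β x₀ = ((U l - j : ℤ) : ℚ) / q₀ - (3 / 4) / q₀ := by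
        simp only [β, if_true]
        have : e x₀ l = (U l : ℚ) / q₀ - s - t₀ := by linarith [hU l]
        rw [this]
        push_cast
        ring
      rw [e1, floor_half hq₀ _ (by norm_num) (by norm_num)]
    have h1 : ∑ l, ((⌊e x₁ l - β x₁⌋ : ℤ) : ℚ) = ∑ l, (((T l + j) / (q₀ : ℤ) : ℤ) : ℚ) := by
      refine sum_congr rfl fun l _ => ?_
      congr 1
      have e1 : e x₁ l - β x₁ = ((T l + j + 1 : ℤ) : ℚ) / q₀ - (1 / 2) / q₀ := by
        simp only [β, if_neg hne.symm, if_true]
        have : e x₁ l = (T l : ℚ) / q₀ + t₀ := by linarith [hT l]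
        rw [this]
        push_cast
        ring
      rw [e1, floor_half hq₀ _ (by norm_num) (by norm_num)]
      congr 1
      ring
    have h2 : ∀ x ∈ (univ.erase x₀).erase x₁, ∑ l, ((⌊e x l - β x⌋ : ℤ) : ℚ) =
        ∑ l, e x l - n * e x (κ x) := by
      intro x hx
      have g1 := ne_of_mem_erase (mem_of_mem_erase hx)
      have g2 := ne_of_mem_erase hx
      have g3 : ∀ l, ((⌊e x l - β x⌋ : ℤ) : ℚ) = e x l - e x (κ x) := by
        intro l
        simp only [β, if_neg g1, if_neg g2]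
        obtain ⟨z, hz⟩ := hd x g1 g2 l (κ x)
        rw [hz, Int.floor_intCast]
      rw [sum_congr rfl fun l _ => g3 l, sum_sub_distrib, sum_const, card_univ, Fintype.card_fin,
        nsmul_eq_mul]
    rw [h0, h1, sum_congr rfl h2, sum_sub_distrib, ← mul_sum, ← hs] at key
    have hU' : ∑ l, e x₀ l = (∑ l, (U l : ℚ)) / q₀ - n * (s + t₀) := by
      have : ∀ l, e x₀ l = (U l : ℚ) / q₀ - (s + t₀) := fun l => by linarith [hU l]
      rw [sum_congr rfl fun l _ => this l, sum_sub_distrib, ← sum_div, sum_const, card_univ,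
        Fintype.card_fin, nsmul_eq_mul]
    have hT' : ∑ l, e x₁ l = (∑ l, (T l : ℚ)) / q₀ + n * t₀ := by
      have : ∀ l, e x₁ l = (T l : ℚ) / q₀ + t₀ := fun l => by linarith [hT l]
      rw [sum_congr rfl fun l _ => this l, sum_add_distrib, ← sum_div, sum_const, card_univ,
        Fintype.card_fin, nsmul_eq_mul]
    rw [hU', hT'] at key
    have key2 : (n : ℚ) + (∑ l, (((U l - j - 1) / (q₀ : ℤ) : ℤ) : ℚ) +
        ∑ l, (((T l + j) / (q₀ : ℤ) : ℤ) : ℚ)) ≤ (∑ l, (U l : ℚ) + ∑ l, (T l : ℚ)) / q₀ := by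
      rw [add_div]
      linarith
    rw [le_div_iff₀ hqq] at key2
    have key3 : ((q₀ : ℤ) : ℚ) * (n + (∑ l, (((U l - j - 1) / (q₀ : ℤ) : ℤ) : ℚ) +
        ∑ l, (((T l + j) / (q₀ : ℤ) : ℤ) : ℚ))) ≤ (∑ l, (U l : ℚ) + ∑ l, (T l : ℚ)) := by
      push_cast
      linarith
    exact_mod_cast key3)
  -- translation
  by_cases hc : ∃ j : ℤ, c = -t₀ + j / q₀
  · obtain ⟨j, hj⟩ := hc
    have h1 := hcount j
    have a1 : (univ.filter fun l => (e x₀ l + s - c).den = 1) =
        univ.filter fun l => (q₀ : ℤ) ∣ U l - j := by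
      refine filter_congr fun l _ => ?_
      rw [den_one_iff]
      have e1 : e x₀ l + s - c = ((U l - j : ℤ) : ℚ) / q₀ := by
        rw [hj]; push_cast; linarith [hU l, sub_div (U l : ℚ) j q₀]
      rw [e1]
      constructor
      · rintro ⟨z, hz⟩
        refine ⟨z, ?_⟩
        rw [div_eq_iff hqq.ne'] at hz
        have : U l - j = z * q₀ := by exact_mod_cast hz
        rw [this, mul_comm]
      · rintro ⟨z, hz⟩
        exact ⟨z, by rw [hz]; push_cast; field_simp⟩
    have a2 : (univ.filter fun l => (e x₁ l + c).den = 1) =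
        univ.filter fun l => (q₀ : ℤ) ∣ T l + j := by
      refine filter_congr fun l _ => ?_
      rw [den_one_iff]
      have e1 : e x₁ l + c = ((T l + j : ℤ) : ℚ) / q₀ := by
        rw [hj]; push_cast; linarith [hT l, add_div (T l : ℚ) j q₀]
      rw [e1]
      constructor
      · rintro ⟨z, hz⟩
        refine ⟨z, ?_⟩
        rw [div_eq_iff hqq.ne'] at hz
        have : T l + j = z * q₀ := by exact_mod_cast hz
        rw [this, mul_comm]
      · rintro ⟨z, hz⟩
        exact ⟨z, by rw [hz]; push_cast; field_simp⟩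
    rw [a1, a2]
    exact h1
  · have a1 : (univ.filter fun l => (e x₀ l + s - c).den = 1) = ∅ := by
      refine filter_eq_empty_iff.2 fun l _ => ?_
      rw [den_one_iff]
      rintro ⟨z, hz⟩
      refine hc ⟨U l - q₀ * z, ?_⟩
      have := hU l
      push_cast
      field_simp
      field_simp at this
      have h2 : c = e x₀ l + s - z := by linarith
      rw [h2]
      linarith
    have a2 : (univ.filter fun l => (e x₁ l + c).den = 1) = ∅ := by
      refine filter_eq_empty_iff.2 fun l _ => ?_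
      rw [den_one_iff]
      rintro ⟨z, hz⟩
      refine hc ⟨q₀ * z - T l, ?_⟩
      have := hT l
      push_cast
      field_simp
      field_simp at this
      have h2 : c = z - e x₁ l := by linarith
      rw [h2]
      linarith
    rw [a1, a2]

end Pool.Agent.Helper25K9.PC
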