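import Mathlib
import Pool.Agent.Helper25K9.PC.Two
import Pool.Agent.Y227.SO.Final

set_option autoImplicit false

/-!
Degenerate conjugates of the exponents: the multiples by numbers which are divisible by the part of the
denominator with large prime factors.
-/

open Finset Polynomial

namespace Pool.Agent.Helper25K9.PC

open Pool.Agent.W432.WB Pool.Agent.W432.HK Pool.Agent.Y227.SS Pool.Agent.Y227.SO
open Pool.Agent.R340.SY (expo)

lemma lineIneq_shift {X : Type*} [Fintype X] {n : ℕ} {e e' : X → Fin n → ℚ} (h : LineIneq e)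
    (t : X → ℚ) (T : ℤ) (hT : ∑ x, t x = T) (g : X → Fin n → ℤ)
    (he : ∀ x l, e' x l = e x l + t x + g x l) : LineIneq e' := by
  classical
  intro β hβ
  obtain ⟨x₁⟩ : Nonempty X := by
    by_contra hemp
    rw [not_nonempty_iff] at hemp
    simp at hβ
  have h1 := h (fun x => β x - t x + (if x = x₁ then (T : ℚ) else 0)) (by
    rw [sum_add_distrib, sum_sub_distrib, sum_ite_eq' univ x₁, if_pos (mem_univ _), hT]
    linarith)
  have h2 : ∀ x l, ((⌊e x l - (β x - t x + (if x = x₁ then (T : ℚ) else 0))⌋ : ℤ) : ℚ) =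
      ((⌊e' x l - β x⌋ : ℤ) : ℚ) - g x l - (if x = x₁ then (T : ℚ) else 0) := by
    intro x l
    have e1 : e x l - (β x - t x + (if x = x₁ then (T : ℚ) else 0)) =
        (e' x l - β x) - ((g x l + (if x = x₁ then T else 0) : ℤ) : ℚ) := by
      rw [he]; push_cast; ring
    rw [e1, Int.floor_sub_intCast]
    push_cast
    ring
  simp only [h2, sum_sub_distrib] at h1
  have h3 : ∑ x : X, ∑ _l : Fin n, (if x = x₁ then (T : ℚ) else 0) = n * T := by
    simp only [sum_const, card_univ, Fintype.card_fin, nsmul_eq_mul]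
    rw [← mul_sum, sum_ite_eq' univ x₁, if_pos (mem_univ _)]
  have h4 : ∑ x, ∑ l, e' x l = ∑ x, ∑ l, e x l + n * T + ∑ x, ∑ l, (g x l : ℚ) := by
    simp only [he, sum_add_distrib]
    congr 2
    simp only [sum_const, card_univ, Fintype.card_fin, nsmul_eq_mul]
    rw [← mul_sum, hT]
  rw [h3] at h1
  rw [h4]
  linarith

/-- The inequality for the degenerate conjugates. -/
theorem deg_core {X : Type*} [Fintype X] [DecidableEq X] {n : ℕ} (hn : 0 < n)
    (e : X → Fin n → ℚ) {N q₀ q : ℕ} (hN : 0 < N) (hq₀ : 0 < q₀) (hq : 0 < q)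
    (hco : q₀.Coprime q) (F : ℤ) (hF : ∑ x, ∑ l, e x l = F)
    (h1 : ∀ x l l', ∃ z : ℤ, ((q₀ * q : ℕ) : ℚ) * (e x l - e x l') = z)
    (h2 : ∀ κ : X → Fin n, ∃ z : ℤ, ((q₀ * q : ℕ) : ℚ) * ∑ x, e x (κ x) = z) (Y : Finset X)
    (hY : ∀ x, x ∉ Y → ∀ l l', ∃ z : ℤ, (q₀ : ℚ) * (e x l - e x l') = z)
    (hbig : ∀ p : ℕ, p.Prime → p ∣ q → (n * (Y.card + 1) * q₀ + 1) ^ (Y.card * (n - 1) + 1) < p)
    (H : ∀ a : ℤ, IsCoprime a (N : ℤ) → LineIneq fun x l => (a : ℚ) * e x l) :
    ∀ a : ℤ, IsCoprime a (q₀ : ℤ) → (q : ℤ) ∣ a → LineIneq fun x l => (a : ℚ) * e x l := by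
  classical
  intro a ha hqa
  set l₀ : Fin n := ⟨0, hn⟩ with hl₀
  obtain ⟨s, t, hst⟩ : IsCoprime (q₀ : ℤ) (q : ℤ) := Nat.isCoprime_iff_coprime.2 hco
  have hst' : (s : ℚ) * q₀ + t * q = 1 := by exact_mod_cast hst
  by_cases hX : Nonempty X
  · obtain ⟨x₁⟩ := hX
    set E : ℚ := ∑ x, e x l₀ with hE
    let v : X → Fin n → ℚ := fun x l => t * q * (e x l - e x l₀) + (if x = x₁ then t * q * E else 0)
    let w : X → Fin n → ℚ := fun x l => e x l - v x l
    have hvdiff : ∀ x l l', v x l - v x l' = t * q * (e x l - e x l') := by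
      intro x l l'; simp only [v]; ring
    have hwdiff : ∀ x l l', w x l - w x l' = s * q₀ * (e x l - e x l') := by
      intro x l l'
      have : w x l - w x l' = (e x l - e x l') - (v x l - v x l') := by simp only [w]; ring
      rw [this, hvdiff]
      linear_combination (-(e x l - e x l')) * hst'
    have hvsum : ∀ κ : X → Fin n, ∑ x, v x (κ x) = t * q * ∑ x, e x (κ x) := by
      intro κ
      simp only [v, sum_add_distrib, ← mul_sum, sum_sub_distrib]
      rw [sum_ite_eq' univ x₁, if_pos (mem_univ _), ← hE]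
      ring
    have hwsum : ∀ κ : X → Fin n, ∑ x, w x (κ x) = s * q₀ * ∑ x, e x (κ x) := by
      intro κ
      simp only [w, sum_sub_distrib]
      rw [hvsum]
      linear_combination (-(∑ x, e x (κ x))) * hst'
    have key := split_core hn e v w hN hq₀ hq hco F hF (fun x l => by simp only [w]; ring)
      (fun x l => by
        obtain ⟨z, hz⟩ := h1 x l l₀
        obtain ⟨y, hy⟩ := h2 fun _ => l₀
        refine ⟨t * z + (if x = x₁ then t * y else 0), ?_⟩
        simp only [v]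
        push_cast at hz hy ⊢
        rw [← hz, ← hy, ← hE]
        split_ifs <;> ring)
      (fun x l l' => by
        obtain ⟨z, hz⟩ := h1 x l l'
        refine ⟨s * z, ?_⟩
        rw [hwdiff]
        push_cast at hz ⊢
        rw [← hz]; ring)
      (fun κ => by
        obtain ⟨z, hz⟩ := h2 κ
        refine ⟨s * z, ?_⟩
        rw [hwsum]
        push_cast at hz ⊢
        rw [← hz]; ring) Y
      (fun x hx l l' => by
        obtain ⟨z, hz⟩ := hY x hx l l'
        refine ⟨s * z, ?_⟩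
        rw [hwdiff]
        push_cast
        rw [← hz]; ring) hbig H a ha
    obtain ⟨d, hd⟩ := hqa
    -- `a w` is integral up to a twist
    have hg : ∀ x l, ∃ g : ℤ, (a : ℚ) * (w x l - w x l₀) = g := by
      intro x l
      obtain ⟨z, hz⟩ := h1 x l l₀
      refine ⟨d * s * z, ?_⟩
      rw [hwdiff, hd]
      push_cast at hz ⊢
      rw [← hz]; ring
    choose g hg using hg
    obtain ⟨T, hT⟩ : ∃ T : ℤ, ∑ x, (a : ℚ) * w x l₀ = T := by
      obtain ⟨z, hz⟩ := h2 fun _ => l₀
      refine ⟨d * s * z, ?_⟩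
      rw [← mul_sum, hwsum fun _ => l₀, hd]
      push_cast at hz ⊢
      rw [← hz]; ring
    refine lineIneq_shift key (fun x => (a : ℚ) * w x l₀) T hT g fun x l => ?_
    rw [← hg]
    simp only [w]
    ring
  · intro β hβ
    rw [not_nonempty_iff] at hX
    simp at hβ

variable {m n : ℕ} {lam : Fin m → Fin n → ℚ} {phi : Fin n → ℚ}

/-- The weights of semistable parabolic bundles of degree zero have an integral sum. -/
lemma semi_sum {x : Fin m → Fin n → ℝ} {y : Fin n → ℝ} (h : SemistableWeights ℂ x y) :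
    ∃ F : ℤ, ∑ j, ∑ l, x j l = ∑ l, y l + F := by
  obtain ⟨β, P, w, e, -, -, -, hwx, hey, hsum, -⟩ := h
  choose σ hσ using hwx
  choose g hg using hσ
  obtain ⟨ρ, hρ⟩ := hey
  choose h hh using hρ
  refine ⟨∑ l, h l - ∑ j, ∑ l, g j l, ?_⟩
  have e1 : ∀ j, ∑ l, w j l = ∑ l, x j l + ((∑ l, g j l : ℤ) : ℝ) := by
    intro j
    push_cast
    rw [← Equiv.sum_comp (σ j) (fun l => x j l), ← sum_add_distrib]
    exact sum_congr rfl fun l _ => hg j l
  have e2 : ∑ l, e l = ∑ l, y l + ((∑ l, h l : ℤ) : ℝ) := by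
    push_cast
    rw [← Equiv.sum_comp ρ (fun l => y l), ← sum_add_distrib]
    exact sum_congr rfl fun l _ => hh l
  rw [sum_congr rfl fun j _ => e1 j, sum_add_distrib, e2] at hsum
  push_cast at hsum ⊢
  linarith

/-- Full reductions: all conjugates satisfy the inequality. -/
theorem lineIneq_of_good {b : Fin (n + 1) → ℤ[X]} {α : Fin m → AlgebraicClosure ℚ} (hm : 1 ≤ m)
    (hn : 1 ≤ n) (hF : FuchsianWith b α lam phi) {N : ℕ} (hN : CommonDen lam phi N)
    (hbad : ¬ BadClass b N) :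
    (∃ F : ℤ, ∑ x, ∑ l, expo lam phi x l = F) ∧
      ∀ a : ℤ, IsCoprime a (N : ℤ) → LineIneq fun x l => (a : ℚ) * expo lam phi x l := by
  have hss : ∀ a : ℤ, IsCoprime a (N : ℤ) →
      SemistableWeights ℂ (fun j l => (a : ℝ) * lam j l) (fun l => (a : ℝ) * phi l) := by
    intro a ha
    by_contra hst
    exact hbad ⟨a, ha, bad_class (by omega) (by omega) hF hN a (Or.inl hst)⟩
  obtain ⟨F, hFs⟩ := semi_sum (hss 1 isCoprime_one_left)
  have hFu : ∑ j, ∑ l, lam j l = ∑ l, phi l + F := by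
    have h1 : ((∑ j, ∑ l, lam j l : ℚ) : ℝ) = ((∑ l, phi l + F : ℚ) : ℝ) := by
      push_cast
      simp only [Int.cast_one, one_mul] at hFs
      linarith
    exact_mod_cast h1
  refine ⟨⟨F, sum_expo hFu⟩, fun a ha β hβ => ?_⟩
  have h1 := floor_le a F hFu (hss a ha) β hβ
  have h2 : ((∑ x, ∑ l, ⌊(a : ℚ) * expo lam phi x l - β x⌋ : ℤ) : ℚ) ≤ ((a * F - n : ℤ) : ℚ) := by
    exact_mod_cast h1
  push_cast at h2
  have h3 : ∑ x, ∑ l, (a : ℚ) * expo lam phi x l = a * F := by
    simp only [← mul_sum, sum_expo hFu]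
  rw [h3]
  linarith

end Pool.Agent.Helper25K9.PC
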