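import Mathlib
import Pool.Agent.Helper25K9.PC.Deg

set_option autoImplicit false

/-!
Exponents with coprime denominators: conjugates for which all differences are small.
-/

open Finset Polynomial

namespace Pool.Agent.Helper25K9.PC

open Pool.Agent.W432.WB Pool.Agent.W432.HK Pool.Agent.Y227.SS Pool.Agent.Y227.SO
open Pool.Agent.R340.SY (expo exists_lift)
open Pool.Agent.R340.P3 (line_ineq)

section stable

variable {m n : ℕ} {lam : Fin m → Fin n → ℚ} {phi : Fin n → ℚ}

/-- The inequality for line subbundles, stable case. -/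
theorem floor_lt (hn : 2 ≤ n) (a F : ℤ) (hF : ∑ j, ∑ l, lam j l = ∑ l, phi l + F)
    (hst : StableWeights ℂ (fun j l => (a : ℝ) * lam j l) (fun l => (a : ℝ) * phi l))
    (β : Option (Fin m) → ℚ) (hβ : 0 ≤ ∑ x, β x) :
    ∑ x, ∑ l, ⌊(a : ℚ) * expo lam phi x l - β x⌋ ≤ a * F - n := by
  by_contra hlt
  push Not at hlt
  rw [Fintype.sum_option] at hlt hβ
  have e1 : ∀ (j : Fin m) (l : Fin n), ⌈((β (some j) : ℚ) : ℝ) - (a : ℝ) * lam j l⌉ =
      -⌊(a : ℚ) * expo lam phi (some j) l - β (some j)⌋ := by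
    intro j l
    rw [← Rat.floor_cast (α := ℝ), ← Int.ceil_neg]
    congr 1
    simp only [expo]
    push_cast
    ring
  have e2 : ∀ l : Fin n, ⌊((-β none : ℚ) : ℝ) - (a : ℝ) * phi l⌋ =
      ⌊(a : ℚ) * expo lam phi none l - β none⌋ := by
    intro l
    rw [← Rat.floor_cast (α := ℝ)]
    congr 1
    simp only [expo]
    push_cast
    ring
  have h := line_ineq hn hst (fun j => ((β (some j) : ℚ) : ℝ)) ((-β none : ℚ) : ℝ) (a * F) (by
    simp only [← mul_sum]
    have h4 : ((∑ j, ∑ l, lam j l : ℚ) : ℝ) = ((∑ l, phi l + F : ℚ) : ℝ) := by rw [hF]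
    push_cast at h4 ⊢
    rw [h4]
    ring) (by
    simp only [e1, e2]
    rw [sum_add_distrib]
    simp only [sum_const, card_univ, Fintype.card_fin, sum_neg_distrib]
    simp only [nsmul_eq_mul, mul_one]
    linarith)
  have h5 : ((∑ j, β (some j) : ℚ) : ℝ) < ((-β none : ℚ) : ℝ) := by
    push_cast at h ⊢
    exact h
  have h6 : ∑ j, β (some j) < -β none := by exact_mod_cast h5
  linarith

/-- If all the exponents are, modulo the integers, in arcs of total length at most one which start at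
the points `a u x`, then a number is divisible by `n`. -/
theorem arcs_dvd (hn : 2 ≤ n) (a F : ℤ) (hF : ∑ j, ∑ l, lam j l = ∑ l, phi l + F)
    (hst : StableWeights ℂ (fun j l => (a : ℝ) * lam j l) (fun l => (a : ℝ) * phi l))
    (u : Option (Fin m) → ℚ) (s : Option (Fin m) → Fin n → ℚ) (z : Option (Fin m) → Fin n → ℤ)
    (hs : ∀ x l, 0 ≤ s x l)
    (hz : ∀ x l, (a : ℚ) * (expo lam phi x l - u x) = s x l + z x l)
    (hY : ∑ x, ∑ l, s x l ≤ 1) : (n : ℤ) ∣ a * F - ∑ x, ∑ l, z x l := by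
  classical
  by_contra hT
  set T : ℤ := a * F - ∑ x, ∑ l, z x l with hTdef
  set Y : ℚ := ∑ x, ∑ l, s x l with hYdef
  have hnz : (0 : ℤ) < n := by omega
  have hnq : (0 : ℚ) < n := by exact_mod_cast (show 0 < n by omega)
  have hsumu : (n : ℚ) * (a * ∑ x, u x) = T - Y := by
    have h1 : ∑ x, ∑ l, (a : ℚ) * (expo lam phi x l - u x) = Y + ∑ x, ∑ l, (z x l : ℚ) := by
      simp only [hz, sum_add_distrib, hYdef]
    have h2 : ∑ x, ∑ l, (a : ℚ) * (expo lam phi x l - u x) = a * F - n * (a * ∑ x, u x) := by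
      simp only [← mul_sum, sum_sub_distrib, sum_expo hF, sum_const, card_univ, Fintype.card_fin,
        nsmul_eq_mul]
      ring
    rw [h2] at h1
    rw [hTdef]
    push_cast
    linarith
  have hdiv := Int.emod_add_mul_ediv T n
  have hmod0 := Int.emod_nonneg T hnz.ne'
  have hmod1 := Int.emod_lt_of_pos T hnz
  have hmod2 : T % n ≠ 0 := fun h => hT (Int.dvd_of_emod_eq_zero h)
  set z₀ := T / (n : ℤ) with hz₀
  set τ := T % (n : ℤ) with hτ
  have hτ1 : (1 : ℚ) ≤ τ := by
    have : 1 ≤ τ := by omega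
    exact_mod_cast this
  have hTq : (T : ℚ) = τ + n * z₀ := by
    have : T = τ + n * z₀ := by linarith
    rw [this]; push_cast; ring
  set t : ℚ := (τ - Y) / n with ht
  have ht0 : 0 ≤ t := div_nonneg (by linarith) hnq.le
  have hβ : ∑ x, ((a : ℚ) * u x - (if x = none then t + z₀ else 0)) = 0 := by
    rw [sum_sub_distrib, sum_ite_eq' univ none, if_pos (mem_univ _), ← mul_sum]
    have h1 : (n : ℚ) * (a * ∑ x, u x - (t + z₀)) = 0 := by
      rw [mul_sub, hsumu, hTq, ht]
      field_simp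
      ring
    rcases mul_eq_zero.1 h1 with h | h
    · exact absurd h hnq.ne'
    · exact h
  have key := floor_lt hn a F hF hst (fun x => (a : ℚ) * u x - (if x = none then t + z₀ else 0))
    hβ.ge
  have hlow : ∀ x l, z x l + (if x = none then z₀ else 0) ≤
      ⌊(a : ℚ) * expo lam phi x l - ((a : ℚ) * u x - (if x = none then t + z₀ else 0))⌋ := by
    intro x l
    rw [Int.le_floor]
    have e1 : (a : ℚ) * expo lam phi x l - ((a : ℚ) * u x - (if x = none then t + z₀ else 0)) =
        s x l + z x l + (if x = none then t + z₀ else 0) := by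
      have := hz x l
      linarith
    rw [e1]
    have := hs x l
    split_ifs
    · push_cast; linarith
    · push_cast; linarith
  have h1 := sum_le_sum fun x (_ : x ∈ (univ : Finset (Option (Fin m)))) =>
    sum_le_sum fun l (_ : l ∈ (univ : Finset (Fin n))) => hlow x l
  have h2 : ∑ x : Option (Fin m), ∑ _l : Fin n, (if x = none then z₀ else 0) = n * z₀ := by
    simp only [sum_const, card_univ, Fintype.card_fin, nsmul_eq_mul]
    rw [← mul_sum, sum_ite_eq' univ none, if_pos (mem_univ _)]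
  simp only [sum_add_distrib] at h1
  rw [h2] at h1
  have h3 := h1.trans key
  linarith

end stable

section arith

variable {X : Type*} [Fintype X] [DecidableEq X]

/-- units with prescribed residues -/
lemma exists_inv (δ : X → ℚ) (hP : ∀ x y, (δ x).den.Coprime (δ y).den ∨ (δ x - δ y).den = 1)
    {B : ℕ} (hB : 0 < B) : ∃ a : ℤ, IsCoprime a (B : ℤ) ∧
      ∀ x, ((δ x).den : ℤ) ∣ a * (δ x).num - 1 := by
  classical
  set S : Finset ℕ := univ.image fun x => (δ x).den with hS
  have hcong : ∀ x y, (δ x).den = (δ y).den → ((δ x).den : ℤ) ∣ (δ x).num - (δ y).num := by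
    intro x y hxy
    rcases hP x y with h | h
    · rw [← hxy, Nat.coprime_self] at h
      rw [h]
      exact one_dvd _
    · obtain ⟨z, hz⟩ := (den_one_iff _).1 h
      refine ⟨z, ?_⟩
      have h1 := Rat.num_div_den (δ x)
      have h2 := Rat.num_div_den (δ y)
      rw [← hxy] at h2
      have h3 : ((δ x).den : ℚ) ≠ 0 := by exact_mod_cast (δ x).den_nz
      rw [div_eq_iff h3] at h1 h2
      have h4 : ((δ x).num : ℚ) - (δ y).num = (δ x).den * z := by
        rw [← hz, h1, h2]
        ring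
      exact_mod_cast h4
  have hinv : ∀ x, ∃ r : ℕ, ((δ x).den : ℤ) ∣ r * (δ x).num - 1 := by
    intro x
    have hc : IsCoprime (δ x).num ((δ x).den : ℤ) := by
      rw [Int.isCoprime_iff_gcd_eq_one]
      have := (δ x).reduced
      simpa [Int.gcd] using this
    obtain ⟨s, t, hst⟩ := hc
    have hd : (0 : ℤ) < (δ x).den := by exact_mod_cast (δ x).den_pos
    refine ⟨(s % (δ x).den).toNat, ?_⟩
    rw [Int.toNat_of_nonneg (Int.emod_nonneg _ hd.ne')]
    have h1 := Int.emod_add_mul_ediv s (δ x).den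
    refine ⟨-t - (s / (δ x).den) * (δ x).num, ?_⟩
    have h2 : s % ((δ x).den : ℤ) = s - (δ x).den * (s / (δ x).den) := by linarith
    rw [h2]
    linear_combination hst
  choose r hr using hinv
  -- a residue for every denominator
  let ρ : ℕ → ℕ := fun d => if h : ∃ x, (δ x).den = d then r h.choose else 0
  have hρ : ∀ x, ((δ x).den : ℤ) ∣ ρ (δ x).den * (δ x).num - 1 := by
    intro x
    have hex : ∃ y, (δ y).den = (δ x).den := ⟨x, rfl⟩
    have h1 : ρ (δ x).den = r hex.choose := by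
      simp only [ρ]
      rw [dif_pos hex]
    have h2 := hex.choose_spec
    set y := hex.choose with hy
    have h3 := hr y
    have h4 := hcong y x h2
    rw [h2] at h3 h4
    rw [h1]
    have e : (r y : ℤ) * (δ x).num - 1 = (r y * (δ y).num - 1) - r y * ((δ y).num - (δ x).num) := by
      ring
    rw [e]
    exact dvd_sub h3 (Dvd.dvd.mul_left h4 _)
  have hcop : Set.Pairwise (S : Set ℕ) (Function.onFun Nat.Coprime id) := by
    intro d hd d' hd' hne
    obtain ⟨x, -, rfl⟩ := mem_image.1 (mem_coe.1 hd)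
    obtain ⟨y, -, rfl⟩ := mem_image.1 (mem_coe.1 hd')
    rcases hP x y with h | h
    · exact h
    · exfalso
      apply hne
      obtain ⟨z, hz⟩ := (den_one_iff _).1 h
      have : δ x = δ y + z := by linarith
      rw [this, Rat.add_intCast_den]
  obtain ⟨A, hA⟩ := Nat.chineseRemainderOfFinset ρ id S (fun d hd => by
    obtain ⟨x, -, rfl⟩ := mem_image.1 hd
    exact (δ x).den_nz) hcop
  have hA' : ∀ x, ((δ x).den : ℤ) ∣ A * (δ x).num - 1 := by
    intro x
    have h1 := hA (δ x).den (mem_image.2 ⟨x, mem_univ _, rfl⟩)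
    have h2 : ((δ x).den : ℤ) ∣ (ρ (δ x).den : ℤ) - A := (Nat.modEq_iff_dvd.1 h1)
    have e : (A : ℤ) * (δ x).num - 1 = (ρ (δ x).den * (δ x).num - 1) -
      ((ρ (δ x).den : ℤ) - A) * (δ x).num := by ring
    rw [e]
    exact dvd_sub (hρ x) (Dvd.dvd.mul_right h2 _)
  set Q : ℕ := ∏ x, (δ x).den with hQ
  have hQpos : 0 < Q := prod_pos fun x _ => (δ x).den_pos
  have hAQ : IsCoprime (A : ℤ) (Q : ℤ) := by
    rw [hQ]
    push_cast
    refine IsCoprime.prod_right fun x _ => ?_
    obtain ⟨k, hk⟩ := hA' x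
    exact ⟨(δ x).num, -k, by linarith⟩
  obtain ⟨a, ha, haA⟩ := exists_lift (q := Q) (N := Q * B) (Nat.mul_pos hQpos hB)
    (dvd_mul_right _ _) A hAQ
  refine ⟨a, IsCoprime.of_isCoprime_of_dvd_right ha (by push_cast; exact dvd_mul_left _ _),
    fun x => ?_⟩
  have h1 : ((δ x).den : ℤ) ∣ a - A :=
    dvd_trans (by exact_mod_cast dvd_prod_of_mem (fun x => (δ x).den) (mem_univ x)) haA
  have e : a * (δ x).num - 1 = (A * (δ x).num - 1) + (a - A) * (δ x).num := by ring
  rw [e]
  exact dvd_add (hA' x) (Dvd.dvd.mul_right h1 _)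

/-- The two conjugates. -/
theorem two_conj (δ : X → ℚ) (hP : ∀ x y, (δ x).den.Coprime (δ y).den ∨ (δ x - δ y).den = 1)
    (C : X → ℕ) {n N : ℕ} (hn : 2 ≤ n) (hN : 0 < N) (F : ℤ) (j : X) (hj : (δ j).den ≠ 1) (K : ℕ)
    (hK : K = ∑ x with (δ x - δ j).den = 1, C x)
    (hcase : ((δ j).den.Coprime (2 * n) ∧ ¬ n ∣ K ∧
        ∑ x with (δ x).den ≠ 1, (C x : ℚ) / (δ x).den + K / (δ j).den ≤ 1) ∨
      (∃ p : ℕ, p.Prime ∧ p ∣ n ∧ p ∣ (δ j).den ∧ ¬ p ∣ K ∧
        ∑ x with (δ x).den ≠ 1, (C x : ℚ) / (δ x).den ≤ 1)) :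
    ∃ a : ℤ, IsCoprime a (N : ℤ) ∧ ∃ (s : X → ℚ) (z : X → ℤ), (∀ x, 0 ≤ s x) ∧
      (∀ x, (a : ℚ) * δ x = s x + z x) ∧ ∑ x, C x * s x ≤ 1 ∧
      ¬ (n : ℤ) ∣ a * F - ∑ x, C x * z x := by
  classical
  by_contra hcon
  push Not at hcon
  -- in general: numerators `c x` of the `s x`
  have gen : ∀ (a : ℤ) (c : X → ℕ), IsCoprime a (N : ℤ) →
      (∀ x, ((δ x).den : ℤ) ∣ a * (δ x).num - c x) →
      ∑ x, (C x : ℚ) * (c x / (δ x).den) ≤ 1 →
      (n : ℤ) ∣ a * F - ∑ x, C x * ((a * (δ x).num - c x) / (δ x).den) := by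
    intro a c ha hc hle
    refine hcon a ha (fun x => (c x : ℚ) / (δ x).den)
      (fun x => (a * (δ x).num - c x) / (δ x).den) (fun x => by positivity) (fun x => ?_) hle
    have h3 : ((δ x).den : ℚ) ≠ 0 := by exact_mod_cast (δ x).den_nz
    obtain ⟨k, hk⟩ := hc x
    rw [hk, Int.mul_ediv_cancel_left _ (by exact_mod_cast (δ x).den_nz)]
    have h1 := Rat.num_div_den (δ x)
    rw [div_eq_iff h3] at h1
    have h4 : (a : ℚ) * (δ x).num - c x = (δ x).den * k := by exact_mod_cast hk
    rw [h1] at h4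
    field_simp
    linarith
  set dj := (δ j).den with hdj
  have hdj0 : 0 < dj := (δ j).den_pos
  have hcl : ∀ x, (δ x - δ j).den = 1 → (δ x).den = dj := by
    intro x h
    obtain ⟨z, hz⟩ := (den_one_iff _).1 h
    have : δ x = δ j + z := by linarith
    rw [this, Rat.add_intCast_den]
  have hne1 : ∀ x, (δ x).den ≠ 1 → ¬ (δ x - δ j).den = 1 → (δ x).den.Coprime dj := by
    intro x _ h
    exact (hP x j).resolve_right h
  -- the product of the other denominators
  set S : Finset ℕ := univ.image fun x => (δ x).den with hS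
  set M : ℕ := ∏ d ∈ S.erase dj, d with hM
  have hMpos : 0 < M := prod_pos fun d hd => by
    obtain ⟨x, -, rfl⟩ := mem_image.1 (mem_of_mem_erase hd)
    exact (δ x).den_pos
  have hMdvd : ∀ x, ¬ (δ x - δ j).den = 1 → (δ x).den ∣ M := by
    intro x hx
    have h1 : (δ x).den ∈ S.erase dj := by
      refine mem_erase.2 ⟨fun h => ?_, mem_image.2 ⟨x, mem_univ _, rfl⟩⟩
      rcases hP x j with h2 | h2
      · rw [h, Nat.coprime_self] at h2
        exact hj h2
      · exact hx h2
    exact dvd_prod_of_mem (fun d => d) h1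
  have hMcop : M.Coprime dj := by
    refine Nat.Coprime.prod_left fun d hd => ?_
    obtain ⟨hne, hd'⟩ := mem_erase.1 hd
    obtain ⟨x, -, rfl⟩ := mem_image.1 hd'
    rcases hP x j with h2 | h2
    · exact h2
    · exact absurd (hcl x h2) hne
  -- the first conjugate
  obtain ⟨a₁, ha₁, hres₁⟩ := exists_inv δ hP (B := N * (n * M)) (by positivity)
  have ha₁N : IsCoprime a₁ (N : ℤ) := IsCoprime.of_isCoprime_of_dvd_right ha₁ (by
    push_cast; exact dvd_mul_right _ _)
  have ha₁M : IsCoprime a₁ ((n * M : ℕ) : ℤ) := IsCoprime.of_isCoprime_of_dvd_right ha₁ (by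
    push_cast; exact dvd_mul_left _ _)
  let c₁ : X → ℕ := fun x => if (δ x).den = 1 then 0 else 1
  have hc₁ : ∀ x, ((δ x).den : ℤ) ∣ a₁ * (δ x).num - c₁ x := by
    intro x
    simp only [c₁]
    split_ifs with h
    · rw [h]; exact one_dvd _
    · simpa using hres₁ x
  have hY₁ : ∑ x, (C x : ℚ) * (c₁ x / (δ x).den) =
      ∑ x with (δ x).den ≠ 1, (C x : ℚ) / (δ x).den := by
    rw [sum_filter]
    refine sum_congr rfl fun x _ => ?_
    simp only [c₁]
    by_cases h : (δ x).den = 1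
    · simp [h]
    · simp [h]; ring
  rcases hcase with ⟨hc2n, hnK, hle⟩ | ⟨p, hp, hpn, hpd, hpK, hle⟩
  · -- case (i)
    have hKnn : (0 : ℚ) ≤ K / dj := by positivity
    have h1 := gen a₁ c₁ ha₁N hc₁ (by rw [hY₁]; linarith)
    have hodd : IsCoprime (2 : ℤ) (dj : ℤ) := by
      have : Nat.Coprime 2 dj := (Nat.Coprime.coprime_mul_right_right hc2n).symm
      exact_mod_cast Nat.isCoprime_iff_coprime.2 this
    have hcn : n.Coprime dj := (Nat.Coprime.coprime_mul_left_right hc2n).symm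
    have ha₁d : IsCoprime a₁ (dj : ℤ) := by
      obtain ⟨k, hk⟩ := hres₁ j
      exact ⟨(δ j).num, -k, by linarith⟩
    have hcond : IsCoprime (2 * a₁) (dj : ℤ) := hodd.mul_left ha₁d
    obtain ⟨a₂, ha₂N, ha₂M, ha₂d⟩ := exists_unit hN (q₀ := n * M) (q := dj) (by positivity) hdj0
      (Nat.Coprime.mul_left hcn hMcop) ha₁M hcond
    let c₂ : X → ℕ := fun x => if (δ x).den = 1 then 0 else if (δ x - δ j).den = 1 then 2 else 1
    have hM₂ : (M : ℤ) ∣ a₂ - a₁ := dvd_trans (by push_cast; exact dvd_mul_left _ _) ha₂M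
    have hn₂ : (n : ℤ) ∣ a₂ - a₁ := dvd_trans (by push_cast; exact dvd_mul_right _ _) ha₂M
    have hc₂ : ∀ x, ((δ x).den : ℤ) ∣ a₂ * (δ x).num - c₂ x := by
      intro x
      simp only [c₂]
      split_ifs with h h'
      · rw [h]; exact one_dvd _
      · rw [hcl x h']
        have h3 := hres₁ x
        rw [hcl x h'] at h3
        have e : a₂ * (δ x).num - ((2 : ℕ) : ℤ) = (a₂ - 2 * a₁) * (δ x).num +
          2 * (a₁ * (δ x).num - 1) := by push_cast; ring
        rw [e]
        exact dvd_add (Dvd.dvd.mul_right ha₂d _) (Dvd.dvd.mul_left h3 _)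
      · have h3 := hres₁ x
        have h4 : ((δ x).den : ℤ) ∣ a₂ - a₁ := dvd_trans (by exact_mod_cast hMdvd x h') hM₂
        have e : a₂ * (δ x).num - ((1 : ℕ) : ℤ) = (a₂ - a₁) * (δ x).num +
          (a₁ * (δ x).num - 1) := by push_cast; ring
        rw [e]
        exact dvd_add (Dvd.dvd.mul_right h4 _) h3
    have hY₂ : ∑ x, (C x : ℚ) * (c₂ x / (δ x).den) =
        ∑ x with (δ x).den ≠ 1, (C x : ℚ) / (δ x).den + K / dj := by
      have h3 : (K : ℚ) / dj = ∑ x with (δ x - δ j).den = 1, (C x : ℚ) / (δ x).den := by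
        rw [hK]
        push_cast
        rw [sum_div]
        refine sum_congr rfl fun x hx => ?_
        rw [hcl x (mem_filter.1 hx).2]
      rw [h3, sum_filter, sum_filter, ← sum_add_distrib]
      refine sum_congr rfl fun x _ => ?_
      simp only [c₂]
      by_cases h : (δ x).den = 1
      · have h' : ¬ (δ x - δ j).den = 1 := fun h' => hj ((hcl x h').symm.trans h)
        simp [h, h']
      · by_cases h' : (δ x - δ j).den = 1
        · simp [h, h']; ring
        · simp [h, h']; ring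
    have h2 := gen a₂ c₂ ha₂N hc₂ (by rw [hY₂]; exact hle)
    -- the difference
    have key : (n : ℤ) ∣ (dj : ℤ) * ((a₂ * F - ∑ x, C x * ((a₂ * (δ x).num - c₂ x) / (δ x).den)) -
        (a₁ * F - ∑ x, C x * ((a₁ * (δ x).num - c₁ x) / (δ x).den))) - K := by
      have e1 : (dj : ℤ) * ((a₂ * F - ∑ x, C x * ((a₂ * (δ x).num - c₂ x) / (δ x).den)) -
          (a₁ * F - ∑ x, C x * ((a₁ * (δ x).num - c₁ x) / (δ x).den))) - K =
          dj * ((a₂ - a₁) * F) - ∑ x, (C x : ℤ) * (dj * ((a₂ * (δ x).num - c₂ x) / (δ x).den -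
            (a₁ * (δ x).num - c₁ x) / (δ x).den) + if (δ x - δ j).den = 1 then 1 else 0) := by
        rw [hK]
        push_cast
        simp only [mul_add, mul_sub, sum_add_distrib, sum_sub_distrib, mul_sum, sum_filter]
        have e3 : ∀ x, (C x : ℤ) * (if (δ x - δ j).den = 1 then (1 : ℤ) else 0) =
            if (δ x - δ j).den = 1 then (C x : ℤ) else 0 := by
          intro x; split_ifs <;> simp
        simp only [e3]
        have e4 : ∀ (f : X → ℤ), ∑ x, (dj : ℤ) * ((C x : ℤ) * f x) =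
            ∑ x, (C x : ℤ) * ((dj : ℤ) * f x) := fun f => sum_congr rfl fun x _ => by ring
        rw [e4, e4]
        ring
      rw [e1]
      refine dvd_sub (Dvd.dvd.mul_left (Dvd.dvd.mul_right hn₂ _) _) (dvd_sum fun x _ => ?_)
      refine Dvd.dvd.mul_left ?_ _
      have hdx : ((δ x).den : ℤ) ≠ 0 := by exact_mod_cast (δ x).den_nz
      obtain ⟨k₁, hk₁⟩ := hc₁ x
      obtain ⟨k₂, hk₂⟩ := hc₂ x
      rw [hk₁, hk₂, Int.mul_ediv_cancel_left _ hdx, Int.mul_ediv_cancel_left _ hdx]
      by_cases h' : (δ x - δ j).den = 1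
      · have h : ¬ (δ x).den = 1 := by rw [hcl x h']; exact hj
        rw [if_pos h']
        simp only [c₁, c₂, if_neg h, if_pos h'] at hk₁ hk₂
        rw [hcl x h'] at hk₁ hk₂
        have e : (dj : ℤ) * (k₂ - k₁) + 1 = (a₂ - a₁) * (δ x).num := by
          push_cast at hk₁ hk₂
          linear_combination hk₁ - hk₂
        rw [e]
        exact Dvd.dvd.mul_right hn₂ _
      · rw [if_neg h', add_zero]
        refine Dvd.dvd.mul_left ?_ _
        have hcc : c₁ x = c₂ x := by simp only [c₁, c₂, if_neg h']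
        rw [hcc] at hk₁
        have e : ((δ x).den : ℤ) * (k₂ - k₁) = (a₂ - a₁) * (δ x).num := by
          linear_combination hk₁ - hk₂
        obtain ⟨g, hg⟩ := ha₂M
        obtain ⟨y, hy⟩ := hMdvd x h'
        have e2 : ((δ x).den : ℤ) * (k₂ - k₁) = (δ x).den * (n * (y * g * (δ x).num)) := by
          rw [e, hg, hy]; push_cast; ring
        exact ⟨_, mul_left_cancel₀ hdx e2⟩
    have h3 : (n : ℤ) ∣ (K : ℤ) := by
      have h4 : (n : ℤ) ∣ (dj : ℤ) * ((a₂ * F - ∑ x, C x * ((a₂ * (δ x).num - c₂ x) / (δ x).den)) -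
        (a₁ * F - ∑ x, C x * ((a₁ * (δ x).num - c₁ x) / (δ x).den))) :=
        Dvd.dvd.mul_left (dvd_sub h2 h1) _
      have h5 := dvd_sub h4 key
      have e : (dj : ℤ) * ((a₂ * F - ∑ x, C x * ((a₂ * (δ x).num - c₂ x) / (δ x).den)) -
        (a₁ * F - ∑ x, C x * ((a₁ * (δ x).num - c₁ x) / (δ x).den))) -
        ((dj : ℤ) * ((a₂ * F - ∑ x, C x * ((a₂ * (δ x).num - c₂ x) / (δ x).den)) -
        (a₁ * F - ∑ x, C x * ((a₁ * (δ x).num - c₁ x) / (δ x).den))) - K) = K := by ring
      rwa [e] at h5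
    exact hnK (by exact_mod_cast h3)
  · -- case (ii)
    have h1 := gen a₁ c₁ ha₁N hc₁ (by rw [hY₁]; exact hle)
    set P : ℕ := dj * M with hPdef
    have hPpos : 0 < P := Nat.mul_pos hdj0 hMpos
    have hxP : ∀ x, (δ x).den ∣ P := by
      intro x
      by_cases h' : (δ x - δ j).den = 1
      · rw [hcl x h']; exact dvd_mul_right _ _
      · exact dvd_trans (hMdvd x h') (dvd_mul_left _ _)
    have ha₁d : IsCoprime a₁ (dj : ℤ) := by
      obtain ⟨k, hk⟩ := hres₁ j
      exact ⟨(δ j).num, -k, by linarith⟩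
    have ha₁M' : IsCoprime a₁ (M : ℤ) := IsCoprime.of_isCoprime_of_dvd_right ha₁M (by
      push_cast; exact dvd_mul_left _ _)
    have hu1 : IsCoprime (a₁ + P) (P : ℤ) := by
      have h3 : IsCoprime a₁ (P : ℤ) := by
        rw [hPdef]; push_cast; exact ha₁d.mul_right ha₁M'
      have := (IsCoprime.add_mul_right_left_iff (x := a₁) (y := (P : ℤ)) (z := 1)).2 h3
      simpa using this
    have hpP : (p : ℤ) ∣ (P : ℤ) := by
      rw [hPdef]; push_cast
      exact Dvd.dvd.mul_right (by exact_mod_cast hpd) _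
    have hu2 : IsCoprime (a₁ + P) ((p * P : ℕ) : ℤ) := by
      push_cast
      exact (IsCoprime.of_isCoprime_of_dvd_right hu1 hpP).mul_right hu1
    obtain ⟨a₂, ha₂, ha₂u⟩ := exists_lift (q := p * P) (N := p * P * N)
      (Nat.mul_pos (Nat.mul_pos hp.pos hPpos) hN) (dvd_mul_right _ _) _ hu2
    have ha₂N : IsCoprime a₂ (N : ℤ) := IsCoprime.of_isCoprime_of_dvd_right ha₂ (by
      push_cast; exact dvd_mul_left _ _)
    obtain ⟨g, hg⟩ := ha₂u
    have hdiff : a₂ - a₁ = P * (1 + p * g) := by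
      push_cast at hg
      linear_combination hg
    have hc₂ : ∀ x, ((δ x).den : ℤ) ∣ a₂ * (δ x).num - c₁ x := by
      intro x
      have e : a₂ * (δ x).num - c₁ x = (a₂ - a₁) * (δ x).num + (a₁ * (δ x).num - c₁ x) := by ring
      rw [e, hdiff]
      refine dvd_add (Dvd.dvd.mul_right (Dvd.dvd.mul_right ?_ _) _) (hc₁ x)
      exact_mod_cast hxP x
    have h2 := gen a₂ c₁ ha₂N hc₂ (by rw [hY₁]; exact hle)
    have hpn' : (p : ℤ) ∣ (n : ℤ) := by exact_mod_cast hpn
    have h3 := dvd_sub (dvd_trans hpn' h2) (dvd_trans hpn' h1)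
    -- quotient
    have hq : ∀ x, (a₂ * (δ x).num - c₁ x) / (δ x).den - (a₁ * (δ x).num - c₁ x) / (δ x).den =
        ((P / (δ x).den : ℕ) : ℤ) * (1 + p * g) * (δ x).num := by
      intro x
      have hdx : ((δ x).den : ℤ) ≠ 0 := by exact_mod_cast (δ x).den_nz
      obtain ⟨k₁, hk₁⟩ := hc₁ x
      obtain ⟨k₂, hk₂⟩ := hc₂ x
      rw [hk₁, hk₂, Int.mul_ediv_cancel_left _ hdx, Int.mul_ediv_cancel_left _ hdx]
      have e : ((δ x).den : ℤ) * (k₂ - k₁) = (a₂ - a₁) * (δ x).num := by
        linear_combination hk₁ - hk₂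
      have e2 : (P : ℤ) = (δ x).den * ((P / (δ x).den : ℕ) : ℤ) := by
        exact_mod_cast (Nat.mul_div_cancel' (hxP x)).symm
      have e3 : ((δ x).den : ℤ) * (k₂ - k₁) =
          (δ x).den * (((P / (δ x).den : ℕ) : ℤ) * (1 + p * g) * (δ x).num) := by
        rw [e, hdiff]
        conv_lhs => rw [e2]
        ring
      exact mul_left_cancel₀ hdx e3
    have e5 : (a₂ * F - ∑ x, C x * ((a₂ * (δ x).num - c₁ x) / (δ x).den)) -
        (a₁ * F - ∑ x, C x * ((a₁ * (δ x).num - c₁ x) / (δ x).den)) =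
        (a₂ - a₁) * F - ∑ x, (C x : ℤ) * (((P / (δ x).den : ℕ) : ℤ) * (1 + p * g) * (δ x).num) := by
      have : ∀ x, (C x : ℤ) * (((P / (δ x).den : ℕ) : ℤ) * (1 + p * g) * (δ x).num) =
          C x * ((a₂ * (δ x).num - c₁ x) / (δ x).den) -
            C x * ((a₁ * (δ x).num - c₁ x) / (δ x).den) := by
        intro x
        rw [← hq x]; ring
      simp only [this, sum_sub_distrib]
      ring
    rw [e5] at h3
    have h4 : (p : ℤ) ∣ (a₂ - a₁) * F := by
      rw [hdiff]
      exact Dvd.dvd.mul_right (Dvd.dvd.mul_right hpP _) _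
    have h5 : (p : ℤ) ∣
        ∑ x, (C x : ℤ) * (((P / (δ x).den : ℕ) : ℤ) * (1 + p * g) * (δ x).num) := by
      have := dvd_sub h4 h3
      simpa using this
    -- modulo `p` only the class of `j` remains
    have h6 : (p : ℤ) ∣ ∑ x, (C x : ℤ) * (((P / (δ x).den : ℕ) : ℤ) * (1 + p * g) * (δ x).num) -
        K * (M * (δ j).num) := by
      have e6 : (K : ℤ) * (M * (δ j).num) =
          ∑ x, if (δ x - δ j).den = 1 then (C x : ℤ) * (M * (δ j).num) else 0 := by
        rw [hK]
        push_cast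
        rw [sum_mul, sum_filter]
      rw [e6, ← sum_sub_distrib]
      refine dvd_sum fun x _ => ?_
      by_cases h' : (δ x - δ j).den = 1
      · rw [if_pos h', hcl x h']
        have e7 : P / dj = M := by rw [hPdef]; exact Nat.mul_div_cancel_left _ hdj0
        rw [e7]
        have h8 : (p : ℤ) ∣ (δ x).num - (δ j).num := by
          obtain ⟨z, hz⟩ := (den_one_iff _).1 h'
          have g1 := Rat.num_div_den (δ x)
          have g2 := Rat.num_div_den (δ j)
          rw [hcl x h'] at g1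
          have g3 : (dj : ℚ) ≠ 0 := by exact_mod_cast hdj0.ne'
          rw [div_eq_iff g3] at g1 g2
          have g4 : ((δ x).num : ℚ) - (δ j).num = dj * z := by
            rw [← hz, g1, g2]
            ring
          have g5 : (δ x).num - (δ j).num = dj * z := by exact_mod_cast g4
          rw [g5]
          exact Dvd.dvd.mul_right (by exact_mod_cast hpd) _
        have e8 : (C x : ℤ) * ((M : ℤ) * (1 + p * g) * (δ x).num) - C x * (M * (δ j).num) =
            C x * M * ((δ x).num - (δ j).num) + p * (C x * M * g * (δ x).num) := by ring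
        rw [e8]
        exact dvd_add (Dvd.dvd.mul_left h8 _) (dvd_mul_right _ _)
      · rw [if_neg h', sub_zero]
        refine Dvd.dvd.mul_left (Dvd.dvd.mul_right (Dvd.dvd.mul_right ?_ _) _) _
        obtain ⟨y, hy⟩ := hMdvd x h'
        have e7 : P / (δ x).den = dj * y := by
          rw [hPdef, hy]
          rw [show dj * ((δ x).den * y) = (δ x).den * (dj * y) by ring]
          exact Nat.mul_div_cancel_left _ (δ x).den_pos
        rw [e7]
        push_cast
        exact Dvd.dvd.mul_right (by exact_mod_cast hpd) _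
    have h7 : (p : ℤ) ∣ K * (M * (δ j).num) := by
      have := dvd_sub h5 h6
      simpa using this
    have hpp : Prime (p : ℤ) := Nat.prime_iff_prime_int.1 hp
    rcases hpp.dvd_or_dvd h7 with h | h
    · exact hpK (by exact_mod_cast h)
    · rcases hpp.dvd_or_dvd h with h | h
      · have h8 : p ∣ M := by exact_mod_cast h
        have := Nat.Coprime.eq_one_of_dvd (Nat.Coprime.coprime_dvd_left h8 hMcop) hpd
        exact hp.one_lt.ne' this
      · have hred := (δ j).reduced
        have h9 : p ∣ (δ j).num.natAbs := Int.natCast_dvd.1 h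
        have := Nat.Coprime.eq_one_of_dvd (Nat.Coprime.coprime_dvd_left h9 hred) hpd
        exact hp.one_lt.ne' this

end arith

end Pool.Agent.Helper25K9.PC
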