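import Mathlib
import Pool.Agent.Helper25K9.PC.Rel
import Pool.Agent.Helper25K9.PC.Unit

set_option autoImplicit false
set_option linter.unusedSectionVars false

/-!
Relations from an inequality which holds for the units only.
-/

open Finset

namespace Pool.Agent.Helper25K9.PC

section eff

variable {N : ℕ} [NeZero N] {ι : Type*} [Fintype ι] [DecidableEq ι]

/-- combinations of the `D i` -/
def cb (D : ι → ZMod N) (ρ : ι → ℤ) : ZMod N := ∑ i, (ρ i : ZMod N) * D i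

lemma cb_sub (D : ι → ZMod N) (ρ ρ' : ι → ℤ) : cb D (fun i => ρ i - ρ' i) = cb D ρ - cb D ρ' := by
  unfold cb
  rw [← sum_sub_distrib]
  refine sum_congr rfl fun i _ => ?_
  push_cast
  ring

lemma cb_add (D : ι → ZMod N) (ρ ρ' : ι → ℤ) : cb D (fun i => ρ i + ρ' i) = cb D ρ + cb D ρ' := by
  unfold cb
  rw [← sum_add_distrib]
  refine sum_congr rfl fun i _ => ?_
  push_cast
  ring

lemma cb_single (D : ι → ZMod N) (i : ι) : cb D (fun k => if k = i then 1 else 0) = D i := by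
  unfold cb
  rw [sum_eq_single i]
  · simp
  · intro k _ hk
    simp [hk]
  · intro h
    exact absurd (mem_univ _) h

/-- the sum of the real parts of a character over the units -/
noncomputable def us (x : ZMod N) : ℝ := ∑ u : (ZMod N)ˣ, cs ((u : ZMod N) * x)

lemma cs_zero : cs (0 : ZMod N) = 1 := by
  have := cs_int (q := N) 0
  simpa using this

lemma us_zero : us (0 : ZMod N) = Fintype.card (ZMod N)ˣ := by
  unfold us
  simp only [mul_zero, cs_zero, sum_const, card_univ, nsmul_eq_mul, mul_one]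

lemma abs_us_le (x : ZMod N) (m : ℕ) (hm : m ≤ addOrderOf x) (δ : ℝ) (hδ : 0 < δ)
    (h : 2 ≤ δ ^ 2 * m) : |us x| ≤ δ * Fintype.card (ZMod N)ˣ := by
  have h1 := unit_avg_le N x m hm δ hδ h
  have h2 : us x = (∑ u : (ZMod N)ˣ, (ZMod.stdAddChar ((u : ZMod N) * x) : ℂ)).re := by
    rw [Complex.re_sum]
    rfl
  rw [h2]
  exact (Complex.abs_re_le_norm _).trans h1

open ComplexConjugate in
/-- the expansion of the square -/
lemma sq_expand (γ : ZMod N → ℝ) (s a : ZMod N) :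
    ‖∑ t, (γ t : ℂ) * ZMod.stdAddChar (a * t)‖ ^ 2 * cs (a * s) =
      ∑ t, ∑ t', γ t * γ t' * cs (a * (t - t' + s)) := by
  have h2 : (∑ t, ∑ t', (γ t : ℂ) * γ t' * (ZMod.stdAddChar (a * (t - t' + s)) : ℂ)) =
      (∑ t, (γ t : ℂ) * ZMod.stdAddChar (a * t)) *
        conj (∑ t, (γ t : ℂ) * ZMod.stdAddChar (a * t)) * ZMod.stdAddChar (a * s) := by
    rw [map_sum, sum_mul_sum, sum_mul]
    refine sum_congr rfl fun t _ => ?_
    rw [sum_mul]
    refine sum_congr rfl fun t' _ => ?_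
    rw [map_mul (starRingEnd ℂ), Complex.conj_ofReal, ← AddChar.map_neg_eq_conj]
    have e : a * (t - t' + s) = a * t + -(a * t') + a * s := by ring
    rw [e, AddChar.map_add_eq_mul, AddChar.map_add_eq_mul]
    ring
  have h3 := congrArg Complex.re h2
  rw [Complex.mul_conj, Complex.normSq_eq_norm_sq, Complex.re_ofReal_mul, Complex.re_sum] at h3
  rw [show cs (a * s) = (ZMod.stdAddChar (a * s) : ℂ).re from rfl, ← h3]
  refine sum_congr rfl fun t _ => ?_
  rw [Complex.re_sum]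
  refine sum_congr rfl fun t' _ => ?_
  rw [← Complex.ofReal_mul, Complex.re_ofReal_mul]
  rfl

lemma sum_W (γ : ZMod N → ℝ) (s : ZMod N) :
    ∑ u : (ZMod N)ˣ, ‖∑ t, (γ t : ℂ) * ZMod.stdAddChar ((u : ZMod N) * t)‖ ^ 2 *
      cs ((u : ZMod N) * s) = ∑ t, ∑ t', γ t * γ t' * us (t - t' + s) := by
  simp only [sq_expand]
  rw [sum_comm]
  refine sum_congr rfl fun t _ => ?_
  rw [sum_comm]
  refine sum_congr rfl fun t' _ => ?_
  unfold us
  rw [mul_sum]

/-- the main term of the correlations -/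
lemma corr_approx (γ : ZMod N → ℝ) (hγ : ∀ t, 0 ≤ γ t) (s : ZMod N) (K : ℝ)
    (h : ∀ t t', γ t ≠ 0 → γ t' ≠ 0 → t' ≠ t + s → |us (t - t' + s)| ≤ K) (hK : 0 ≤ K) :
    |∑ t, ∑ t', γ t * γ t' * us (t - t' + s) - Fintype.card (ZMod N)ˣ * ∑ t, γ t * γ (t + s)| ≤
      K * (∑ t, γ t) ^ 2 := by
  classical
  set Φ : ℝ := ((Fintype.card (ZMod N)ˣ : ℕ) : ℝ) with hΦ
  have h1 : ∑ t, ∑ t', γ t * γ t' * us (t - t' + s) - Φ * ∑ t, γ t * γ (t + s) =
      ∑ t, ∑ t', γ t * γ t' * (us (t - t' + s) - if t' = t + s then Φ else 0) := by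
    rw [mul_sum, ← sum_sub_distrib]
    refine sum_congr rfl fun t _ => ?_
    simp only [mul_sub, sum_sub_distrib, mul_ite, mul_zero]
    rw [sum_ite_eq', if_pos (mem_univ _)]
    ring
  rw [h1]
  have h2 : ∀ t t', |γ t * γ t' * (us (t - t' + s) - if t' = t + s then Φ else 0)| ≤
      γ t * γ t' * K := by
    intro t t'
    rw [abs_mul, abs_of_nonneg (mul_nonneg (hγ t) (hγ t'))]
    by_cases h3 : γ t = 0
    · simp [h3]
    by_cases h4 : γ t' = 0
    · simp [h4]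
    refine mul_le_mul_of_nonneg_left ?_ (mul_nonneg (hγ t) (hγ t'))
    by_cases he : t' = t + s
    · have : t - t' + s = 0 := by rw [he]; ring
      rw [if_pos he, this, us_zero, ← hΦ, sub_self, abs_zero]
      exact hK
    · rw [if_neg he, sub_zero]
      exact h t t' h3 h4 he
  calc |∑ t, ∑ t', γ t * γ t' * (us (t - t' + s) - if t' = t + s then Φ else 0)|
      ≤ ∑ t, ∑ t', γ t * γ t' * K :=
        (abs_sum_le_sum_abs _ _).trans (sum_le_sum fun t _ =>
          (abs_sum_le_sum_abs _ _).trans (sum_le_sum fun t' _ => h2 t t'))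
    _ = K * (∑ t, γ t) ^ 2 := by
        rw [sq, sum_mul_sum, mul_sum]
        refine sum_congr rfl fun t _ => ?_
        rw [mul_sum]
        exact sum_congr rfl fun t' _ => by ring

/-- weights supported on the combinations with coefficients in `[0, M)` -/
lemma sq_sum_weight (D : ι → ZMod N) (M : ℕ) (γ : ZMod N → ℝ)
    (h4 : ∀ t, γ t ≠ 0 → ∃ ρ : ι → ℤ, (∀ i, 0 ≤ ρ i ∧ ρ i < M) ∧ t = cb D ρ) :
    (∑ t, γ t) ^ 2 ≤ (M : ℝ) ^ Fintype.card ι * ∑ t, γ t * γ t := by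
  classical
  set B : Finset (ι → ℤ) := Fintype.piFinset fun _ => Finset.Ico (0 : ℤ) M with hB
  set Z : Finset (ZMod N) := B.image (cb D) with hZ
  have hZc : (Z.card : ℝ) ≤ (M : ℝ) ^ Fintype.card ι := by
    have h1 : Z.card ≤ B.card := card_image_le
    have h2 : B.card = M ^ Fintype.card ι := by simp [hB]
    rw [h2] at h1
    exact_mod_cast h1
  have h0 : ∀ t, t ∉ Z → γ t = 0 := by
    intro t ht
    by_contra hne
    obtain ⟨ρ, hρ1, hρ2⟩ := h4 t hne
    refine ht (mem_image.2 ⟨ρ, ?_, hρ2.symm⟩)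
    rw [hB, Fintype.mem_piFinset]
    intro i
    rw [Finset.mem_Ico]
    exact hρ1 i
  have e1 : ∑ t, γ t = ∑ t ∈ Z, γ t :=
    (sum_subset (subset_univ _) fun t _ ht => h0 t ht).symm
  have e2 : ∑ t ∈ Z, γ t ^ 2 ≤ ∑ t, γ t * γ t := by
    calc ∑ t ∈ Z, γ t ^ 2 ≤ ∑ t, γ t ^ 2 :=
          sum_le_sum_of_subset_of_nonneg (subset_univ _) fun t _ _ => sq_nonneg _
      _ = ∑ t, γ t * γ t := sum_congr rfl fun t _ => by ring
  rw [e1]
  have h5 : (∑ t ∈ Z, γ t) ^ 2 ≤ Z.card * ∑ t ∈ Z, γ t ^ 2 := sq_sum_le_card_mul_sum_sq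
  have h6 : 0 ≤ ∑ t ∈ Z, γ t ^ 2 := sum_nonneg fun t _ => sq_nonneg _
  calc (∑ t ∈ Z, γ t) ^ 2 ≤ Z.card * ∑ t ∈ Z, γ t ^ 2 := h5
    _ ≤ (M : ℝ) ^ Fintype.card ι * ∑ t ∈ Z, γ t ^ 2 := mul_le_mul_of_nonneg_right hZc h6
    _ ≤ _ := mul_le_mul_of_nonneg_left e2 (by positivity)

/-- **Relations from units.** -/
theorem unit_relation (D : ι → ZMod N) (T : ZMod N) {A : ℝ} (hA : 0 ≤ A)
    (h : ∀ a : (ZMod N)ˣ, 1 - cs ((a : ZMod N) * T) ≤ A * ∑ i, (1 - cs ((a : ZMod N) * D i)))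
    {M m : ℕ} (hM : 1 ≤ M) {δ : ℝ} (hδ0 : 0 < δ) (hδm : 2 ≤ δ ^ 2 * m)
    (hlt : A * Fintype.card ι * (1 - Real.cos (Real.pi / (M + 1))) +
      2 * (δ * (M : ℝ) ^ Fintype.card ι) * (1 + A * Fintype.card ι) < 1) :
    (∃ ρ : ι → ℤ, (∀ i, |ρ i| < M) ∧ addOrderOf (T - cb D ρ) < m) ∨
      ∃ ρ : ι → ℤ, (∀ i, |ρ i| ≤ M) ∧ cb D ρ ≠ 0 ∧ addOrderOf (cb D ρ) < m := by
  classical
  obtain ⟨γ, h1, h2, h3, h4⟩ := exists_weight D hM
  by_contra hcon
  push Not at hcon
  obtain ⟨k1, k2⟩ := hcon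
  set r := Fintype.card ι with hr
  set S : ℝ := ∑ t, γ t * γ t with hS
  have hSpos : 0 < S := by
    refine sum_pos' (fun t _ => mul_nonneg (h1 t) (h1 t)) ⟨0, mem_univ _, mul_pos h2 h2⟩
  have hG : (∑ t, γ t) ^ 2 ≤ (M : ℝ) ^ r * S := sq_sum_weight D M γ h4
  set Φ : ℝ := ((Fintype.card (ZMod N)ˣ : ℕ) : ℝ) with hΦ
  have hΦ0 : 0 < Φ := Nat.cast_pos.2 Fintype.card_pos
  have hδΦ : 0 < δ * Φ := mul_pos hδ0 hΦ0
  set W : (ZMod N)ˣ → ℝ := fun u => ‖∑ t, (γ t : ℂ) * ZMod.stdAddChar ((u : ZMod N) * t)‖ ^ 2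
    with hW
  have hF : ∀ s, ∑ u, W u * cs ((u : ZMod N) * s) = ∑ t, ∑ t', γ t * γ t' * us (t - t' + s) :=
    fun s => sum_W γ s
  set Er : ℝ := δ * Φ * ((M : ℝ) ^ r * S) with hEr
  have hEr' : δ * Φ * (∑ t, γ t) ^ 2 ≤ Er := mul_le_mul_of_nonneg_left hG hδΦ.le
  -- the correlations
  have b0 : |∑ u, W u * cs ((u : ZMod N) * 0) - Φ * S| ≤ Er := by
    have h5 := corr_approx γ h1 0 (δ * Φ) (fun t t' ht ht' hne => by
      obtain ⟨ρ₁, b1, e1⟩ := h4 t ht
      obtain ⟨ρ₂, b2, e2⟩ := h4 t' ht'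
      have e3 : t - t' + 0 = cb D (fun i => ρ₁ i - ρ₂ i) := by
        rw [cb_sub, add_zero, e1, e2]
        rfl
      rw [e3]
      refine abs_us_le _ m (k2 _ (fun i => ?_) ?_) δ hδ0 hδm
      · have := b1 i
        have := b2 i
        rw [abs_le]
        constructor <;> omega
      · rw [← e3]
        intro h6
        apply hne
        have : t' = t - (t - t' + 0) := by ring
        rw [this, h6]
        ring) hδΦ.le
    rw [hF]
    simp only [add_zero] at h5 ⊢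
    exact h5.trans hEr'
  have bT : ∑ u, W u * cs ((u : ZMod N) * T) ≤ Er := by
    rw [hF]
    have h5 : ∀ t t', γ t * γ t' * us (t - t' + T) ≤ γ t * γ t' * (δ * Φ) := by
      intro t t'
      by_cases ht : γ t = 0
      · simp [ht]
      by_cases ht' : γ t' = 0
      · simp [ht']
      refine mul_le_mul_of_nonneg_left ?_ (mul_nonneg (h1 t) (h1 t'))
      obtain ⟨ρ₁, b1, e1⟩ := h4 t ht
      obtain ⟨ρ₂, b2, e2⟩ := h4 t' ht'
      have e3 : t - t' + T = T - cb D (fun i => ρ₂ i - ρ₁ i) := by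
        rw [cb_sub, e1, e2]
        unfold cb
        ring
      rw [e3]
      refine (le_abs_self _).trans (abs_us_le _ m (k1 _ (fun i => ?_)) δ hδ0 hδm)
      have := b1 i
      have := b2 i
      rw [abs_lt]
      constructor <;> omega
    calc ∑ t, ∑ t', γ t * γ t' * us (t - t' + T) ≤ ∑ t, ∑ t', γ t * γ t' * (δ * Φ) :=
          sum_le_sum fun t _ => sum_le_sum fun t' _ => h5 t t'
      _ = δ * Φ * (∑ t, γ t) ^ 2 := by
          rw [sq, sum_mul_sum, mul_sum]
          refine sum_congr rfl fun t _ => ?_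
          rw [mul_sum]
          exact sum_congr rfl fun t' _ => by ring
      _ ≤ Er := hEr'
  have hcos : ∀ i, Real.cos (Real.pi / (M + 1)) * S ≤ ∑ t, γ t * γ (t + D i) := by
    intro i
    have e1 : ∑ t, γ t * γ (t - D i) = ∑ t, γ t * γ (t + D i) := by
      rw [← Equiv.sum_comp (Equiv.addRight (D i)) (fun t => γ t * γ (t - D i))]
      refine sum_congr rfl fun t _ => ?_
      simp only [Equiv.coe_addRight, add_sub_cancel_right]
      ring
    have e2 : ∑ t, γ t * (2 * Real.cos (Real.pi / (M + 1)) * γ t) ≤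
        ∑ t, γ t * (γ (t + D i) + γ (t - D i)) :=
      sum_le_sum fun t _ => mul_le_mul_of_nonneg_left (h3 i t) (h1 t)
    have e3 : ∑ t, γ t * (2 * Real.cos (Real.pi / (M + 1)) * γ t) =
        2 * (Real.cos (Real.pi / (M + 1)) * S) := by
      rw [hS, mul_sum, mul_sum]
      exact sum_congr rfl fun t _ => by ring
    have e4 : ∑ t, γ t * (γ (t + D i) + γ (t - D i)) = 2 * ∑ t, γ t * γ (t + D i) := by
      simp only [mul_add, sum_add_distrib]
      rw [e1]
      ring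
    rw [e3, e4] at e2
    linarith
  have bD : ∀ i, Φ * (Real.cos (Real.pi / (M + 1)) * S) - Er ≤
      ∑ u, W u * cs ((u : ZMod N) * D i) := by
    intro i
    have h5 := corr_approx γ h1 (D i) (δ * Φ) (fun t t' ht ht' hne => by
      obtain ⟨ρ₁, b1, e1⟩ := h4 t ht
      obtain ⟨ρ₂, b2, e2⟩ := h4 t' ht'
      have e3 : t - t' + D i = cb D (fun k => (ρ₁ k - ρ₂ k) + if k = i then 1 else 0) := by
        rw [cb_add, cb_sub, cb_single, e1, e2]
        rfl
      rw [e3]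
      refine abs_us_le _ m (k2 _ (fun k => ?_) ?_) δ hδ0 hδm
      · have := b1 k
        have := b2 k
        rw [abs_le]
        split_ifs <;> constructor <;> omega
      · rw [← e3]
        intro h6
        apply hne
        have : t' = t + D i - (t - t' + D i) := by ring
        rw [this, h6, sub_zero]) hδΦ.le
    rw [hF]
    have h6 := (abs_le.1 h5).1
    have h7 := mul_le_mul_of_nonneg_left (hcos i) hΦ0.le
    linarith
  -- sum over the units
  have hF0 : ∑ u, W u = ∑ u, W u * cs ((u : ZMod N) * 0) := by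
    simp only [mul_zero, cs_zero, mul_one]
  have hsum : ∑ u, W u * (1 - cs ((u : ZMod N) * T)) ≤
      ∑ u, W u * (A * ∑ i, (1 - cs ((u : ZMod N) * D i))) :=
    sum_le_sum fun a _ => mul_le_mul_of_nonneg_left (h a) (by positivity)
  have l1 : Φ * S - 2 * Er ≤ ∑ u, W u * (1 - cs ((u : ZMod N) * T)) := by
    simp only [mul_sub, mul_one, sum_sub_distrib]
    rw [hF0]
    have := (abs_le.1 b0).1
    linarith
  have l2 : ∑ u, W u * (A * ∑ i, (1 - cs ((u : ZMod N) * D i))) ≤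
      A * (r * (Φ * S * (1 - Real.cos (Real.pi / (M + 1))) + 2 * Er)) := by
    have e1 : ∀ u : (ZMod N)ˣ, W u * (A * ∑ i, (1 - cs ((u : ZMod N) * D i))) =
        A * ∑ i, (W u - W u * cs ((u : ZMod N) * D i)) := by
      intro a
      rw [mul_left_comm, mul_sum]
      congr 1
      exact sum_congr rfl fun i _ => by ring
    simp only [e1]
    rw [← mul_sum, sum_comm]
    refine mul_le_mul_of_nonneg_left ?_ hA
    have e2 : ∀ i ∈ (univ : Finset ι), ∑ u, (W u - W u * cs ((u : ZMod N) * D i)) ≤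
        Φ * S * (1 - Real.cos (Real.pi / (M + 1))) + 2 * Er := by
      intro i _
      rw [sum_sub_distrib, hF0]
      have := (abs_le.1 b0).2
      have := bD i
      linarith
    have e3 := sum_le_card_nsmul _ _ _ e2
    rwa [card_univ, nsmul_eq_mul, ← hr] at e3
  have l3 := l1.trans (hsum.trans l2)
  have hΦS : 0 < Φ * S := mul_pos hΦ0 hSpos
  have l4 : (Φ * S) * 1 ≤ (Φ * S) * (A * r * (1 - Real.cos (Real.pi / (M + 1))) +
      2 * (δ * (M : ℝ) ^ r) * (1 + A * r)) := by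
    have : Er = (Φ * S) * (δ * (M : ℝ) ^ r) := by rw [hEr]; ring
    rw [this] at l3
    linarith
  have l5 := le_of_mul_le_mul_left l4 hΦS
  linarith

end eff

end Pool.Agent.Helper25K9.PC
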