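import Mathlib
import Pool.Agent.Helper25K9.PC.Deg
import Pool.Agent.Helper25K9.PC.Rel

set_option autoImplicit false

/-!
Bounded relations among the exponents.
-/

open Finset

namespace Pool.Agent.Helper25K9.PC

/-- If the differences of exponents at all points but `j` are close to integers, then so are the sums of
exponents. -/
theorem line_dist {X : Type*} [Fintype X] [DecidableEq X] {n : ℕ} (e : X → Fin n → ℚ)
    (h : LineIneq e) (j : X) (Y : Finset X)
    (hY : ∀ x, x ∉ Y → ∀ l l', ∃ z : ℤ, e x l - e x l' = z) (κ : X → Fin n) :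
    |∑ x, e x (κ x) - round (∑ x, e x (κ x))| ≤
      n * ∑ x ∈ Y.erase j, ∑ l, |e x l - e x (κ x) - round (e x l - e x (κ x))| := by
  classical
  set y : ℚ := ∑ x ∈ Y.erase j, ∑ l, |e x l - e x (κ x) - round (e x l - e x (κ x))| with hy
  have hy0 : 0 ≤ y := sum_nonneg fun x _ => sum_nonneg fun l _ => abs_nonneg _
  have hn : 0 < n := (Nat.zero_le _).trans_lt (κ j).2
  have hnq : (1 : ℚ) ≤ n := by exact_mod_cast hn
  refine le_of_forall_pos_le_add fun ε' hε' => ?_
  set ε : ℚ := ε' / n with hε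
  have hε0 : 0 < ε := div_pos hε' (by linarith)
  have hnε : (n : ℚ) * ε = ε' := by rw [hε]; field_simp
  let yx : X → ℚ := fun x => if x ∈ Y.erase j then
    ∑ l, |e x l - e x (κ x) - round (e x l - e x (κ x))| else 0
  have hyx : ∑ x, yx x = y := by
    simp only [yx]
    rw [sum_ite_mem, univ_inter]
  have hyx0 : ∀ x, 0 ≤ yx x := by
    intro x
    simp only [yx]
    split_ifs
    · exact sum_nonneg fun l _ => abs_nonneg _
    · exact le_rfl
  have hyxj : yx j = 0 := by simp [yx]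
  set s : ℚ := ∑ x ∈ univ.erase j, e x (κ x) with hs
  let β : X → ℚ := fun x => if x = j then -s + y + ε else e x (κ x) - yx x
  have hβ : ∑ x, β x = ε := by
    rw [← add_sum_erase univ β (mem_univ j)]
    have h1 : ∑ x ∈ univ.erase j, β x = s - y := by
      have h2 : ∀ x ∈ univ.erase j, β x = e x (κ x) - yx x := by
        intro x hx
        simp only [β, if_neg (ne_of_mem_erase hx)]
      rw [sum_congr rfl h2, sum_sub_distrib, ← hs]
      have h3 : ∑ x ∈ univ.erase j, yx x = y := by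
        rw [← hyx, ← add_sum_erase univ yx (mem_univ j), hyxj, zero_add]
      rw [h3]
    rw [h1]
    simp only [β, if_true]
    ring
  have key := h β (by rw [hβ]; exact hε0)
  -- points other than `j`
  have hx : ∀ x ∈ univ.erase j, ∑ l, e x l - n * e x (κ x) - yx x ≤
      ∑ l, ((⌊e x l - β x⌋ : ℤ) : ℚ) := by
    intro x hxj
    have hne := ne_of_mem_erase hxj
    by_cases hxY : x ∈ Y.erase j
    · have h1 : ∀ l, (e x l - e x (κ x)) - |e x l - e x (κ x) - round (e x l - e x (κ x))| ≤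
          ((⌊e x l - β x⌋ : ℤ) : ℚ) := by
        intro l
        have h2 : |e x l - e x (κ x) - round (e x l - e x (κ x))| ≤ yx x := by
          simp only [yx, if_pos hxY]
          exact single_le_sum (f := fun l => |e x l - e x (κ x) - round (e x l - e x (κ x))|)
            (fun l _ => abs_nonneg _) (mem_univ l)
        have h3 : round (e x l - e x (κ x)) ≤ ⌊e x l - β x⌋ := by
          rw [Int.le_floor]
          simp only [β, if_neg hne]
          have := neg_abs_le (e x l - e x (κ x) - round (e x l - e x (κ x)))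
          linarith
        have h4 : ((round (e x l - e x (κ x)) : ℤ) : ℚ) ≤ ((⌊e x l - β x⌋ : ℤ) : ℚ) := by
          exact_mod_cast h3
        have := le_abs_self (e x l - e x (κ x) - round (e x l - e x (κ x)))
        linarith
      have h5 := sum_le_sum fun l (_ : l ∈ (univ : Finset (Fin n))) => h1 l
      rw [sum_sub_distrib, sum_sub_distrib, sum_const, card_univ, Fintype.card_fin,
        nsmul_eq_mul] at h5
      have h6 : yx x = ∑ l, |e x l - e x (κ x) - round (e x l - e x (κ x))| := by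
        simp only [yx, if_pos hxY]
      rw [h6]
      exact h5
    · have hxY' : x ∉ Y := fun h => hxY (mem_erase.2 ⟨hne, h⟩)
      have h1 : ∀ l, ((⌊e x l - β x⌋ : ℤ) : ℚ) = e x l - e x (κ x) := by
        intro l
        obtain ⟨z, hz⟩ := hY x hxY' l (κ x)
        have h2 : e x l - β x = z := by
          simp only [β, if_neg hne, yx, if_neg hxY]
          rw [← hz]; ring
        rw [h2, Int.floor_intCast, hz]
      rw [sum_congr rfl fun l _ => h1 l, sum_sub_distrib, sum_const, card_univ, Fintype.card_fin,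
        nsmul_eq_mul]
      simp only [yx, if_neg hxY]
      linarith
  have hsum := sum_le_sum hx
  rw [← add_sum_erase univ (fun x => ∑ l, ((⌊e x l - β x⌋ : ℤ) : ℚ)) (mem_univ j),
    ← add_sum_erase univ (fun x => ∑ l, e x l) (mem_univ j)] at key
  have h3 : ∑ x ∈ univ.erase j, yx x = y := by
    rw [← hyx, ← add_sum_erase univ yx (mem_univ j), hyxj, zero_add]
  rw [sum_sub_distrib, sum_sub_distrib, ← mul_sum, ← hs, h3] at hsum
  -- the point `j`
  set τ : ℚ := ∑ x, e x (κ x) with hτ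
  have hτ' : τ = e j (κ j) + s := by rw [hτ, ← add_sum_erase univ _ (mem_univ j)]
  have hj : ∀ l, e j l - β j - 1 < ((⌊e j l - β j⌋ : ℤ) : ℚ) := fun l => by
    have := Int.lt_floor_add_one (e j l - β j)
    linarith
  have hβj : β j = -s + y + ε := by simp only [β, if_true]
  have hlow : ∑ l ∈ univ.erase (κ j), (e j l - β j - 1) ≤
      ∑ l ∈ univ.erase (κ j), ((⌊e j l - β j⌋ : ℤ) : ℚ) := sum_le_sum fun l _ => (hj l).le
  have hcard : ((univ.erase (κ j)).card : ℚ) = n - 1 := by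
    rw [card_erase_of_mem (mem_univ _), card_univ, Fintype.card_fin, Nat.cast_sub hn]
    simp
  rw [sum_sub_distrib, sum_sub_distrib, sum_const, sum_const, nsmul_eq_mul, nsmul_eq_mul, hcard]
    at hlow
  rw [← add_sum_erase univ (fun l => ((⌊e j l - β j⌋ : ℤ) : ℚ)) (mem_univ (κ j)),
    ← add_sum_erase univ (fun l => e j l) (mem_univ (κ j))] at key
  set Z : ℤ := ⌊e j (κ j) - β j⌋ + 1 with hZ
  have hZq : (Z : ℚ) = ((⌊e j (κ j) - β j⌋ : ℤ) : ℚ) + 1 := by rw [hZ]; push_cast; ring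
  have hup : τ - Z ≤ y + ε := by
    have := hj (κ j)
    rw [hZq, hτ']
    rw [hβj] at this ⊢
    linarith
  have hdown : -(n * y + n * ε) ≤ τ - Z := by
    rw [hZq, hτ']
    rw [hβj] at key hlow ⊢
    nlinarith
  have hround := round_le τ Z
  refine hround.trans ?_
  rw [abs_le]
  constructor
  · linarith
  · nlinarith

open Real in
/-- comparison of cosines -/
lemma cos_compare {ι : Type*} [Fintype ι] (θ : ℝ) (φ : ι → ℝ) (n : ℝ) (hn : 0 ≤ n)
    (h : |θ - round θ| ≤ n * ∑ i, |φ i - round (φ i)|) :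
    1 - Real.cos (2 * π * θ) ≤
      π ^ 2 * n ^ 2 * Fintype.card ι / 4 * ∑ i, (1 - Real.cos (2 * π * φ i)) := by
  have h1 : 1 - Real.cos (2 * π * θ) ≤ 2 * π ^ 2 * |θ - round θ| ^ 2 := by
    have e : Real.cos (2 * π * θ) = Real.cos (2 * π * (θ - round θ)) := by
      have : 2 * π * (θ - round θ) = 2 * π * θ - (round θ : ℤ) * (2 * π) := by ring
      rw [this, Real.cos_sub_int_mul_two_pi]
    rw [e, sq_abs]
    have := Real.one_sub_sq_div_two_le_cos (x := 2 * π * (θ - round θ))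
    nlinarith
  have h2 : ∀ i, |φ i - round (φ i)| ^ 2 ≤ (1 - Real.cos (2 * π * φ i)) / 8 := by
    intro i
    have e : Real.cos (2 * π * φ i) = Real.cos (2 * π * (φ i - round (φ i))) := by
      have : 2 * π * (φ i - round (φ i)) = 2 * π * φ i - (round (φ i) : ℤ) * (2 * π) := by ring
      rw [this, Real.cos_sub_int_mul_two_pi]
    rw [e, sq_abs]
    have hr := abs_sub_round (φ i)
    have hx : |2 * π * (φ i - round (φ i))| ≤ π := by
      rw [abs_mul, abs_of_pos Real.two_pi_pos]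
      nlinarith [Real.pi_pos]
    have h3 := Real.cos_le_one_sub_mul_cos_sq hx
    have h4 : 2 / π ^ 2 * (2 * π * (φ i - round (φ i))) ^ 2 = 8 * (φ i - round (φ i)) ^ 2 := by
      field_simp
      ring
    rw [h4] at h3
    linarith
  have h3 : (∑ i, |φ i - round (φ i)|) ^ 2 ≤ Fintype.card ι * ∑ i, |φ i - round (φ i)| ^ 2 := by
    have := sq_sum_le_card_mul_sum_sq (s := (univ : Finset ι)) (f := fun i => |φ i - round (φ i)|)
    rwa [card_univ] at this
  have h4 : ∑ i, |φ i - round (φ i)| ^ 2 ≤ (∑ i, (1 - Real.cos (2 * π * φ i))) / 8 := by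
    rw [sum_div]
    exact sum_le_sum fun i _ => h2 i
  have h5 : |θ - round θ| ^ 2 ≤ n ^ 2 * (∑ i, |φ i - round (φ i)|) ^ 2 := by
    rw [← mul_pow]
    exact pow_le_pow_left₀ (abs_nonneg _) h 2
  have hcard : (0 : ℝ) ≤ Fintype.card ι := Nat.cast_nonneg _
  calc 1 - Real.cos (2 * π * θ) ≤ 2 * π ^ 2 * |θ - round θ| ^ 2 := h1
    _ ≤ 2 * π ^ 2 * (n ^ 2 * (Fintype.card ι * ((∑ i, (1 - Real.cos (2 * π * φ i))) / 8))) := by
        refine mul_le_mul_of_nonneg_left ?_ (by positivity)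
        refine h5.trans (mul_le_mul_of_nonneg_left ?_ (by positivity))
        exact h3.trans (mul_le_mul_of_nonneg_left h4 hcard)
    _ = _ := by ring

lemma pi_const {r n : ℕ} (hn : 1 ≤ n) :
    Real.pi ^ 2 * (n : ℝ) ^ 2 * r / 4 * r *
      (1 - Real.cos (Real.pi / (((4 * n * r + 1 : ℕ) : ℝ) + 1))) < 1 := by
  have hπ : Real.pi < 3.15 := Real.pi_lt_d2
  have hπ0 := Real.pi_pos
  set M : ℝ := ((4 * n * r + 1 : ℕ) : ℝ) + 1 with hM
  have hMe : M = 4 * (n * r) + 2 := by rw [hM]; push_cast; ring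
  have hnr : (0 : ℝ) ≤ n * r := by positivity
  have hM0 : 0 < M := by rw [hMe]; linarith
  have h1 : 1 - Real.cos (Real.pi / M) ≤ (Real.pi / M) ^ 2 / 2 := by
    have := Real.one_sub_sq_div_two_le_cos (x := Real.pi / M)
    linarith
  have h2 : (n * r : ℝ) / M ≤ 1 / 4 := by
    rw [div_le_iff₀ hM0, hMe]
    linarith
  have h3 : (0 : ℝ) ≤ (n * r) / M := by positivity
  have h4 : ((n * r : ℝ) / M) ^ 2 ≤ 1 / 16 := by nlinarith
  have hπ4 : Real.pi ^ 4 < 128 := by
    have h5 : Real.pi ^ 2 < 10 := by nlinarith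
    have h6 : Real.pi ^ 4 = (Real.pi ^ 2) ^ 2 := by ring
    have h7 : 0 < Real.pi ^ 2 := by positivity
    rw [h6]
    nlinarith
  calc Real.pi ^ 2 * (n : ℝ) ^ 2 * r / 4 * r * (1 - Real.cos (Real.pi / M))
      ≤ Real.pi ^ 2 * (n : ℝ) ^ 2 * r / 4 * r * ((Real.pi / M) ^ 2 / 2) :=
        mul_le_mul_of_nonneg_left h1 (by positivity)
    _ = Real.pi ^ 4 / 8 * ((n * r : ℝ) / M) ^ 2 := by
        field_simp
        ring
    _ ≤ Real.pi ^ 4 / 8 * (1 / 16) := mul_le_mul_of_nonneg_left h4 (by positivity)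
    _ < 1 := by linarith

/-- **Bounded relations.** -/
theorem bounded_relation {X : Type*} [Fintype X] [DecidableEq X] {n : ℕ} (hn : 1 ≤ n)
    (e : X → Fin n → ℚ) {q : ℕ} (hq : 0 < q) (H : ∀ a : ℤ, LineIneq fun x l => (a : ℚ) * e x l)
    (h1 : ∀ x l l', ∃ z : ℤ, (q : ℚ) * (e x l - e x l') = z)
    (h2 : ∀ κ : X → Fin n, ∃ z : ℤ, (q : ℚ) * ∑ x, e x (κ x) = z) (Y : Finset X)
    (hY : ∀ x, x ∉ Y → ∀ l l', ∃ z : ℤ, e x l - e x l' = z) (j : X) (κ : X → Fin n) :
    ∃ ρ : X → Fin n → ℤ, (∀ x l, |ρ x l| ≤ 4 * n * ((n - 1 : ℕ) * (Y.erase j).card)) ∧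
      ∃ z : ℤ, ∑ x, e x (κ x) - ∑ x ∈ Y.erase j, ∑ l, ρ x l * (e x l - e x (κ x)) = z := by
  classical
  have : NeZero q := ⟨hq.ne'⟩
  have hqR : (0 : ℝ) < q := by exact_mod_cast hq
  have hqQ : (0 : ℚ) < q := by exact_mod_cast hq
  obtain ⟨n', rfl⟩ : ∃ n', n = n' + 1 := ⟨n - 1, by omega⟩
  obtain ⟨T, hT⟩ := h2 κ
  let ι := {x // x ∈ Y.erase j} × Fin n'
  have hD : ∀ i : ι, ∃ z : ℤ, (q : ℚ) * (e i.1.1 ((κ i.1.1).succAbove i.2) - e i.1.1 (κ i.1.1)) = z :=
    fun i => h1 _ _ _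
  choose D hD using hD
  have hcard : Fintype.card ι = (Y.erase j).card * n' := by
    simp only [ι]
    rw [Fintype.card_prod, Fintype.card_coe, Fintype.card_fin]
  set r : ℕ := (Y.erase j).card * n' with hr
  -- the pointwise inequality
  have key : ∀ a : ZMod q, 1 - cs (a * (T : ZMod q)) ≤
      (Real.pi ^ 2 * ((n' + 1 : ℕ) : ℝ) ^ 2 * r / 4) *
        ∑ i : ι, (1 - cs (a * ((D i : ℤ) : ZMod q))) := by
    intro a
    have hcs : ∀ z : ℤ, cs (a * (z : ZMod q)) =
        Real.cos (2 * Real.pi * (((a.val : ℤ) : ℝ) * z / q)) := by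
      intro z
      have h3 : a * (z : ZMod q) = (((a.val : ℤ) * z : ℤ) : ZMod q) := by
        push_cast
        rw [ZMod.natCast_val, ZMod.cast_id', id]
      rw [h3, cs_int]
      push_cast
      rfl
    have hdist := line_dist _ (H (a.val : ℤ)) j Y (fun x hx l l' => by
      obtain ⟨z, hz⟩ := hY x hx l l'
      exact ⟨(a.val : ℤ) * z, by push_cast; rw [← hz]; ring⟩) κ
    have e1 : ∑ x, (((a.val : ℤ) : ℚ)) * e x (κ x) = ((a.val : ℤ) : ℚ) * T / q := by
      rw [← mul_sum, ← hT]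
      field_simp
    have e2 : ∑ x ∈ Y.erase j, ∑ l, |(((a.val : ℤ) : ℚ)) * e x l - ((a.val : ℤ) : ℚ) * e x (κ x) -
        round (((a.val : ℤ) : ℚ) * e x l - ((a.val : ℤ) : ℚ) * e x (κ x))| =
        ∑ i : ι, |((a.val : ℤ) : ℚ) * D i / q - round (((a.val : ℤ) : ℚ) * D i / q)| := by
      rw [← sum_coe_sort (Y.erase j), Fintype.sum_prod_type]
      refine sum_congr rfl fun x _ => ?_
      rw [Fin.sum_univ_succAbove _ (κ x.1)]
      simp only [sub_self, round_zero, Int.cast_zero, abs_zero, zero_add]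
      refine sum_congr rfl fun l _ => ?_
      have h3 : ((a.val : ℤ) : ℚ) * e x.1 ((κ x.1).succAbove l) - ((a.val : ℤ) : ℚ) * e x.1 (κ x.1) =
          ((a.val : ℤ) : ℚ) * D (x, l) / q := by
        rw [← hD (x, l)]
        field_simp
      rw [h3]
    rw [e1, e2] at hdist
    have hreal : |(((a.val : ℤ) : ℝ) * T / q) - round (((a.val : ℤ) : ℝ) * T / q)| ≤
        ((n' + 1 : ℕ) : ℝ) * ∑ i : ι, |((a.val : ℤ) : ℝ) * D i / q -
          round (((a.val : ℤ) : ℝ) * D i / q)| := by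
      have h3 : ∀ z : ℤ, round (((a.val : ℤ) : ℝ) * z / q) = round (((a.val : ℤ) : ℚ) * z / q) := by
        intro z
        rw [← Rat.round_cast (α := ℝ)]
        push_cast
        rfl
      simp only [h3]
      have h4 := (Rat.cast_le (K := ℝ)).2 hdist
      push_cast at h4 ⊢
      exact h4
    have := cos_compare _ (fun i : ι => ((a.val : ℤ) : ℝ) * D i / q) _ (by positivity) hreal
    rw [hcard] at this
    simp only [hcs]
    exact this
  obtain ⟨ρ, hρ1, hρ2⟩ := exists_relation (fun i : ι => ((D i : ℤ) : ZMod q)) (T : ZMod q)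
    (M := 4 * (n' + 1) * r + 1) (by omega) (by positivity) key (by
      rw [hcard]
      exact pi_const (by omega))
  refine ⟨fun x => (κ x).insertNth (α := fun _ => ℤ) 0
    (fun l => if h : x ∈ Y.erase j then ρ (⟨x, h⟩, l) else 0), ?_, ?_⟩
  · intro x l
    rcases Fin.eq_self_or_eq_succAbove (κ x) l with rfl | ⟨l', rfl⟩
    · simp only [Fin.insertNth_apply_same, abs_zero]
      positivity
    · simp only [Fin.insertNth_apply_succAbove]
      split_ifs with h
      · have := hρ1 (⟨x, h⟩, l')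
        have e : ((4 * (n' + 1) * r + 1 : ℕ) : ℤ) =
            4 * ((n' + 1 : ℕ) : ℤ) * (((n' + 1 - 1 : ℕ) : ℤ) * (Y.erase j).card) + 1 := by
          rw [hr]
          push_cast
          ring
        rw [e] at this
        omega
      · rw [abs_zero]
        positivity
  · have h3 : ((T - ∑ i, ρ i * D i : ℤ) : ZMod q) = 0 := by
      push_cast
      rw [hρ2, sub_self]
    obtain ⟨z, hz⟩ := (ZMod.intCast_zmod_eq_zero_iff_dvd _ _).1 h3
    refine ⟨z, ?_⟩
    have h4 : ((T : ℚ) - ∑ i, (ρ i : ℚ) * D i) = q * z := by exact_mod_cast hz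
    have h5 : ∑ x ∈ Y.erase j, ∑ l, (((κ x).insertNth (α := fun _ => ℤ) 0
        (fun l => if h : x ∈ Y.erase j then ρ (⟨x, h⟩, l) else 0) l : ℤ) : ℚ) *
        (e x l - e x (κ x)) = ∑ i : ι, (ρ i : ℚ) * (D i / q) := by
      rw [← sum_coe_sort (Y.erase j), Fintype.sum_prod_type]
      refine sum_congr rfl fun x _ => ?_
      rw [Fin.sum_univ_succAbove _ (κ x.1)]
      rw [sub_self, mul_zero, zero_add]
      refine sum_congr rfl fun l _ => ?_
      rw [Fin.insertNth_apply_succAbove, dif_pos x.2, ← hD (x, l)]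
      field_simp
    rw [h5]
    have h6 : ∑ i : ι, (ρ i : ℚ) * ((D i : ℚ) / q) = (∑ i : ι, (ρ i : ℚ) * D i) / q := by
      rw [sum_div]
      exact sum_congr rfl fun i _ => by ring
    rw [h6]
    have h7 : ∑ x, e x (κ x) = (T : ℚ) / q := by rw [← hT]; field_simp
    rw [h7, ← sub_div, h4]
    field_simp

lemma lineIneq_zero {X : Type*} [Fintype X] {n : ℕ} : LineIneq fun (_ : X) (_ : Fin n) => (0 : ℚ) := by
  intro β hβ
  have h1 : ∑ x, ⌊(0 : ℚ) - β x⌋ ≤ -1 := by
    have h2 : ((∑ x, ⌊(0 : ℚ) - β x⌋ : ℤ) : ℚ) < 0 := by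
      push_cast
      have h3 : ∑ x, ((⌊(0 : ℚ) - β x⌋ : ℤ) : ℚ) ≤ ∑ x, ((0 : ℚ) - β x) :=
        sum_le_sum fun x _ => Int.floor_le _
      rw [sum_sub_distrib] at h3
      simp only [sum_const_zero] at h3
      linarith
    have h4 : ∑ x, ⌊(0 : ℚ) - β x⌋ < 0 := by exact_mod_cast h2
    omega
  have h5 : ((∑ x, ⌊(0 : ℚ) - β x⌋ : ℤ) : ℚ) ≤ -1 := by exact_mod_cast h1
  simp only [sum_const, card_univ, Fintype.card_fin, nsmul_eq_mul, mul_zero, sum_const_zero]
  rw [← mul_sum]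
  push_cast at h5
  have h6 : (0 : ℚ) ≤ n := Nat.cast_nonneg n
  nlinarith

/-- For a prime denominator the inequalities hold for all multiples. -/
theorem lineIneq_all {X : Type*} [Fintype X] [DecidableEq X] {n : ℕ} (hn : 1 ≤ n)
    (e : X → Fin n → ℚ) {q N : ℕ} (hq : q.Prime) (hN : 0 < N)
    (H : ∀ a : ℤ, IsCoprime a (N : ℤ) → LineIneq fun x l => (a : ℚ) * e x l)
    (h1 : ∀ x l l', ∃ z : ℤ, (q : ℚ) * (e x l - e x l') = z)
    (h2 : ∀ κ : X → Fin n, ∃ z : ℤ, (q : ℚ) * ∑ x, e x (κ x) = z) (a : ℤ) :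
    LineIneq fun x l => (a : ℚ) * e x l := by
  set l₀ : Fin n := ⟨0, hn⟩ with hl₀
  -- differences by multiples of `q`
  have shift : ∀ (a' : ℤ) (f : X → Fin n → ℚ), LineIneq f → (q : ℤ) ∣ a' →
      (∀ x l, (a : ℚ) * e x l = f x l + a' * e x l) → LineIneq fun x l => (a : ℚ) * e x l := by
    intro a' f hf ⟨d, hd⟩ hfe
    choose z hz using h1
    obtain ⟨y, hy⟩ := h2 fun _ => l₀
    refine lineIneq_shift hf (fun x => (a' : ℚ) * e x l₀) (d * y) ?_ (fun x l => d * z x l l₀) ?_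
    · rw [← mul_sum, hd]
      push_cast
      rw [← hy]
      ring
    · intro x l
      rw [hfe, hd]
      push_cast
      rw [← hz x l l₀]
      ring
  by_cases hqa : (q : ℤ) ∣ a
  · refine shift a (fun _ _ => 0) lineIneq_zero hqa fun x l => by ring
  · have hco : IsCoprime a (q : ℤ) :=
      ((Nat.prime_iff_prime_int.1 hq).coprime_iff_not_dvd.2 hqa).symm
    obtain ⟨a', ha', haa⟩ := Pool.Agent.R340.SY.exists_lift (q := q) (N := q * N)
      (Nat.mul_pos hq.pos hN) (dvd_mul_right _ _) a hco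
    have haN : IsCoprime a' (N : ℤ) := IsCoprime.of_isCoprime_of_dvd_right ha' (by
      push_cast; exact dvd_mul_left _ _)
    refine shift (a - a') _ (H a' haN) ?_ fun x l => ?_
    · have := dvd_neg.2 haa
      rwa [neg_sub] at this
    · push_cast
      ring

end Pool.Agent.Helper25K9.PC
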