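import Mathlib
import Pool.Agent.Helper25K9.PC.RelOp
import Pool.Agent.Helper25K9.PC.Eff

set_option autoImplicit false

/-!
Bounded relations among exponents with arbitrary denominators.
-/

open Finset

namespace Pool.Agent.Helper25K9.PC

/-- the bound `200 (4 n r + 1) ^ (2 r + 4)` -/
def rb (n r : ℕ) : ℕ := 200 * (4 * n * r + 1) ^ (2 * r + 4)

lemma pi_const' {r n : ℕ} (hn : 1 ≤ n) :
    Real.pi ^ 2 * (n : ℝ) ^ 2 * r / 4 * r *
      (1 - Real.cos (Real.pi / (((4 * n * r + 1 : ℕ) : ℝ) + 1))) ≤ 98.5 / 128 := by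
  have hπ : Real.pi < 3.15 := Real.pi_lt_d2
  have hπ0 := Real.pi_pos
  set M : ℝ := ((4 * n * r + 1 : ℕ) : ℝ) + 1 with hM
  have hMe : M = 4 * (n * r) + 2 := by rw [hM]; push_cast; ring
  have hnr : (0 : ℝ) ≤ n * r := by positivity
  have hM0 : 0 < M := by rw [hMe]; linarith
  have h1 : 1 - Real.cos (Real.pi / M) ≤ (Real.pi / M) ^ 2 / 2 := by
    have := Real.one_sub_sq_div_two_le_cos (x := Real.pi / M)
    linarith
  have h2 : (n * r : ℝ) / M ≤ 1 / 4 := by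
    rw [div_le_iff₀ hM0, hMe]
    linarith
  have h3 : (0 : ℝ) ≤ (n * r) / M := by positivity
  have h4 : ((n * r : ℝ) / M) ^ 2 ≤ 1 / 16 := by nlinarith
  have hπ4 : Real.pi ^ 4 ≤ 98.5 := by
    have h5 : Real.pi ^ 2 ≤ 3.15 ^ 2 := by nlinarith
    have h6 : Real.pi ^ 4 = (Real.pi ^ 2) ^ 2 := by ring
    have h7 : 0 < Real.pi ^ 2 := by positivity
    rw [h6]
    nlinarith
  calc Real.pi ^ 2 * (n : ℝ) ^ 2 * r / 4 * r * (1 - Real.cos (Real.pi / M))
      ≤ Real.pi ^ 2 * (n : ℝ) ^ 2 * r / 4 * r * ((Real.pi / M) ^ 2 / 2) :=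
        mul_le_mul_of_nonneg_left h1 (by positivity)
    _ = Real.pi ^ 4 / 8 * ((n * r : ℝ) / M) ^ 2 := by
        field_simp
        ring
    _ ≤ 98.5 / 8 * (1 / 16) := by
        refine mul_le_mul (by linarith) h4 (by positivity) (by norm_num)
    _ = 98.5 / 128 := by norm_num

lemma const_lt {n r : ℕ} (hn : 1 ≤ n) :
    Real.pi ^ 2 * (n : ℝ) ^ 2 * r / 4 * r *
      (1 - Real.cos (Real.pi / (((4 * n * r + 1 : ℕ) : ℝ) + 1))) +
      2 * (1 / (10 * ((4 * n * r + 1 : ℕ) : ℝ) ^ (r + 2)) * ((4 * n * r + 1 : ℕ) : ℝ) ^ r) *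
        (1 + Real.pi ^ 2 * (n : ℝ) ^ 2 * r / 4 * r) < 1 := by
  have h1 := pi_const' (r := r) hn
  have hπ : Real.pi < 3.15 := Real.pi_lt_d2
  have hπ0 := Real.pi_pos
  set M : ℝ := ((4 * n * r + 1 : ℕ) : ℝ) with hM
  have hMe : M = 4 * (n * r) + 1 := by rw [hM]; push_cast; ring
  have hnr : (0 : ℝ) ≤ n * r := by positivity
  have hM0 : 0 < M := by rw [hMe]; linarith
  have h2 : 1 / (10 * M ^ (r + 2)) * M ^ r = 1 / (10 * M ^ 2) := by
    rw [pow_add]
    field_simp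
  have h3 : 1 + Real.pi ^ 2 * (n : ℝ) ^ 2 * r / 4 * r ≤ M ^ 2 := by
    rw [hMe]
    have h5 : Real.pi ^ 2 ≤ 3.15 ^ 2 := by nlinarith
    have h6 : (0 : ℝ) ≤ ((n : ℝ) * r) ^ 2 := by positivity
    nlinarith
  have h4 : 2 * (1 / (10 * M ^ 2)) * (1 + Real.pi ^ 2 * (n : ℝ) ^ 2 * r / 4 * r) ≤ 1 / 5 := by
    calc 2 * (1 / (10 * M ^ 2)) * (1 + Real.pi ^ 2 * (n : ℝ) ^ 2 * r / 4 * r)
        ≤ 2 * (1 / (10 * M ^ 2)) * M ^ 2 := mul_le_mul_of_nonneg_left h3 (by positivity)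
      _ = 1 / 5 := by field_simp; norm_num
  rw [h2]
  linarith

/-- denominators and orders -/
lemma den_le_order {N : ℕ} [NeZero N] (z : ℤ) (y : ℚ) (hy : (N : ℚ) * y = z) :
    y.den ≤ addOrderOf ((z : ℤ) : ZMod N) := by
  set o := addOrderOf ((z : ℤ) : ZMod N) with ho
  have ho0 : 0 < o := addOrderOf_pos _
  have h1 : (((o : ℤ) * z : ℤ) : ZMod N) = 0 := by
    push_cast
    rw [← nsmul_eq_mul]
    exact addOrderOf_nsmul_eq_zero _
  obtain ⟨w, hw⟩ := (ZMod.intCast_zmod_eq_zero_iff_dvd _ _).1 h1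
  have hN : (N : ℚ) ≠ 0 := by exact_mod_cast NeZero.ne N
  have h2 : (o : ℚ) * y = w := by
    have h3 : ((o : ℚ)) * z = N * w := by exact_mod_cast hw
    have h4 : (N : ℚ) * ((o : ℚ) * y) = N * w := by rw [← h3, ← hy]; ring
    exact mul_left_cancel₀ hN h4
  have h3 : y = (w : ℚ) / ((o : ℤ) : ℚ) := by
    rw [eq_div_iff (by exact_mod_cast ho0.ne'), ← h2]
    push_cast
    ring
  have h4 : ((y.den : ℕ) : ℤ) ∣ (o : ℤ) := by
    have h5 := Rat.den_dvd w (o : ℤ)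
    rw [Rat.divInt_eq_div] at h5
    rw [h3]
    exact h5
  exact Nat.le_of_dvd ho0 (by exact_mod_cast h4)

/-- **Effective relations.** -/
theorem effective_relation {X : Type*} [Fintype X] [DecidableEq X] {n : ℕ} (hn : 1 ≤ n)
    (e : X → Fin n → ℚ) {N : ℕ} (hN : 0 < N) (hden : ∀ x l, ∃ z : ℤ, (N : ℚ) * e x l = z)
    (H : ∀ a : ℤ, IsCoprime a (N : ℤ) → LineIneq fun x l => (a : ℚ) * e x l) (Y : Finset X)
    (hY : ∀ x, x ∉ Y → ∀ l l', ∃ z : ℤ, e x l - e x l' = z) (j : X) {r : ℕ}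
    (hr : r = (n - 1) * (Y.erase j).card) (κ : X → Fin n) :
    (∃ ρ : X → Fin n → ℤ, (∀ x l, |ρ x l| ≤ 4 * n * r) ∧
      (∑ x, e x (κ x) - ∑ x ∈ Y.erase j, ∑ l, ρ x l * (e x l - e x (κ x))).den < rb n r) ∨
    ∃ ρ : X → Fin n → ℤ, (∀ x l, |ρ x l| ≤ 4 * n * r + 1) ∧
      1 < (∑ x ∈ Y.erase j, ∑ l, ρ x l * (e x l - e x (κ x))).den ∧
      (∑ x ∈ Y.erase j, ∑ l, ρ x l * (e x l - e x (κ x))).den < rb n r := by
  classical
  have : NeZero N := ⟨hN.ne'⟩
  have hqR : (0 : ℝ) < N := by exact_mod_cast hN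
  have hqQ : (0 : ℚ) < N := by exact_mod_cast hN
  obtain ⟨n', rfl⟩ : ∃ n', n = n' + 1 := ⟨n - 1, by omega⟩
  choose E hE using hden
  obtain ⟨T, hT⟩ : ∃ T : ℤ, (N : ℚ) * ∑ x, e x (κ x) = T :=
    ⟨∑ x, E x (κ x), by
      push_cast
      rw [mul_sum]
      exact sum_congr rfl fun x _ => hE _ _⟩
  let ι := {x // x ∈ Y.erase j} × Fin n'
  have hD : ∀ i : ι, ∃ z : ℤ, (N : ℚ) * (e i.1.1 ((κ i.1.1).succAbove i.2) - e i.1.1 (κ i.1.1)) = z :=
    fun i => ⟨E i.1.1 ((κ i.1.1).succAbove i.2) - E i.1.1 (κ i.1.1), by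
      push_cast
      rw [← hE, ← hE]
      ring⟩
  choose D hD using hD
  have hcard : Fintype.card ι = r := by
    simp only [ι]
    rw [Fintype.card_prod, Fintype.card_coe, Fintype.card_fin, hr, Nat.add_sub_cancel, mul_comm]
  -- the pointwise inequality
  have key : ∀ a : (ZMod N)ˣ, 1 - cs ((a : ZMod N) * (T : ZMod N)) ≤
      (Real.pi ^ 2 * ((n' + 1 : ℕ) : ℝ) ^ 2 * r / 4) *
        ∑ i : ι, (1 - cs ((a : ZMod N) * ((D i : ℤ) : ZMod N))) := by
    intro u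
    set a : ZMod N := (u : ZMod N) with ha
    have hcop : IsCoprime ((a.val : ℕ) : ℤ) (N : ℤ) :=
      Nat.isCoprime_iff_coprime.2 (ZMod.val_coe_unit_coprime u)
    have hcs : ∀ z : ℤ, cs (a * (z : ZMod N)) =
        Real.cos (2 * Real.pi * (((a.val : ℤ) : ℝ) * z / N)) := by
      intro z
      have h3 : a * (z : ZMod N) = (((a.val : ℤ) * z : ℤ) : ZMod N) := by
        push_cast
        rw [ZMod.natCast_val, ZMod.cast_id', id]
      rw [h3, cs_int]
      push_cast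
      rfl
    have hdist := line_dist _ (H (a.val : ℤ) hcop) j Y (fun x hx l l' => by
      obtain ⟨z, hz⟩ := hY x hx l l'
      exact ⟨(a.val : ℤ) * z, by push_cast; rw [← hz]; ring⟩) κ
    have e1 : ∑ x, (((a.val : ℤ) : ℚ)) * e x (κ x) = ((a.val : ℤ) : ℚ) * T / N := by
      rw [← mul_sum, ← hT]
      field_simp
    have e2 : ∑ x ∈ Y.erase j, ∑ l, |(((a.val : ℤ) : ℚ)) * e x l - ((a.val : ℤ) : ℚ) * e x (κ x) -
        round (((a.val : ℤ) : ℚ) * e x l - ((a.val : ℤ) : ℚ) * e x (κ x))| =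
        ∑ i : ι, |((a.val : ℤ) : ℚ) * D i / N - round (((a.val : ℤ) : ℚ) * D i / N)| := by
      rw [← sum_coe_sort (Y.erase j), Fintype.sum_prod_type]
      refine sum_congr rfl fun x _ => ?_
      rw [Fin.sum_univ_succAbove _ (κ x.1)]
      simp only [sub_self, round_zero, Int.cast_zero, abs_zero, zero_add]
      refine sum_congr rfl fun l _ => ?_
      have h3 : ((a.val : ℤ) : ℚ) * e x.1 ((κ x.1).succAbove l) - ((a.val : ℤ) : ℚ) * e x.1 (κ x.1) =
          ((a.val : ℤ) : ℚ) * D (x, l) / N := by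
        rw [← hD (x, l)]
        field_simp
      rw [h3]
    rw [e1, e2] at hdist
    have hreal : |(((a.val : ℤ) : ℝ) * T / N) - round (((a.val : ℤ) : ℝ) * T / N)| ≤
        ((n' + 1 : ℕ) : ℝ) * ∑ i : ι, |((a.val : ℤ) : ℝ) * D i / N -
          round (((a.val : ℤ) : ℝ) * D i / N)| := by
      have h3 : ∀ z : ℤ, round (((a.val : ℤ) : ℝ) * z / N) = round (((a.val : ℤ) : ℚ) * z / N) := by
        intro z
        rw [← Rat.round_cast (α := ℝ)]
        push_cast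
        rfl
      simp only [h3]
      have h4 := (Rat.cast_le (K := ℝ)).2 hdist
      push_cast at h4 ⊢
      exact h4
    have := cos_compare _ (fun i : ι => ((a.val : ℤ) : ℝ) * D i / N) _ (by positivity) hreal
    rw [hcard] at this
    simp only [hcs]
    exact this
  -- extension of the coefficients by zero
  let ext : (ι → ℤ) → X → Fin (n' + 1) → ℤ := fun ρ x => (κ x).insertNth (α := fun _ => ℤ) 0
    (fun l => if h : x ∈ Y.erase j then ρ (⟨x, h⟩, l) else 0)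
  have ext_bd : ∀ (ρ : ι → ℤ) (c : ℤ), 0 ≤ c → (∀ i, |ρ i| ≤ c) → ∀ x l, |ext ρ x l| ≤ c := by
    intro ρ c hc hρ x l
    simp only [ext]
    rcases Fin.eq_self_or_eq_succAbove (κ x) l with rfl | ⟨l', rfl⟩
    · simp only [Fin.insertNth_apply_same, abs_zero]
      exact hc
    · simp only [Fin.insertNth_apply_succAbove]
      split_ifs with h
      · exact hρ (⟨x, h⟩, l')
      · rw [abs_zero]
        exact hc
  have ext_sum : ∀ ρ : ι → ℤ, (N : ℚ) * ∑ x ∈ Y.erase j, ∑ l, (ext ρ x l : ℚ) * (e x l - e x (κ x)) =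
      ((∑ i, ρ i * D i : ℤ) : ℚ) := by
    intro ρ
    push_cast
    rw [← sum_coe_sort (Y.erase j), Fintype.sum_prod_type, mul_sum]
    refine sum_congr rfl fun x _ => ?_
    rw [Fin.sum_univ_succAbove _ (κ x.1)]
    rw [sub_self, mul_zero, zero_add, mul_sum]
    refine sum_congr rfl fun l _ => ?_
    simp only [ext]
    rw [Fin.insertNth_apply_succAbove, dif_pos x.2, ← hD (x, l)]
    ring
  have hcb : ∀ ρ : ι → ℤ, cb (fun i : ι => ((D i : ℤ) : ZMod N)) ρ = ((∑ i, ρ i * D i : ℤ) : ZMod N) := by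
    intro ρ
    unfold cb
    push_cast
    rfl
  have hM0 : (0 : ℝ) < ((4 * (n' + 1) * r + 1 : ℕ) : ℝ) := by positivity
  rcases unit_relation (fun i : ι => ((D i : ℤ) : ZMod N)) (T : ZMod N)
    (by positivity) key (M := 4 * (n' + 1) * r + 1) (m := rb (n' + 1) r) (by omega)
    (δ := 1 / (10 * ((4 * (n' + 1) * r + 1 : ℕ) : ℝ) ^ (r + 2))) (by positivity) (by
      refine le_of_eq ?_
      unfold rb
      push_cast
      field_simp
      ring) (by
      rw [hcard]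
      exact const_lt (by omega)) with ⟨ρ, hρ1, hρ2⟩ | ⟨ρ, hρ1, hρ2, hρ3⟩
  · refine Or.inl ⟨ext ρ, ext_bd ρ _ (by positivity) (fun i => ?_), ?_⟩
    · have := hρ1 i
      push_cast at this ⊢
      omega
    · refine lt_of_le_of_lt (den_le_order (N := N) (T - ∑ i, ρ i * D i) _ ?_) ?_
      · rw [mul_sub, hT, ext_sum]
        push_cast
        ring
      · have e3 : ((T - ∑ i, ρ i * D i : ℤ) : ZMod N) =
            (T : ZMod N) - cb (fun i : ι => ((D i : ℤ) : ZMod N)) ρ := by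
          rw [hcb]
          push_cast
          ring
        rw [e3]
        exact hρ2
  · refine Or.inr ⟨ext ρ, ext_bd ρ _ (by positivity) (fun i => ?_), ?_, ?_⟩
    · have := hρ1 i
      push_cast at this ⊢
      exact this
    · set y := ∑ x ∈ Y.erase j, ∑ l, (ext ρ x l : ℚ) * (e x l - e x (κ x)) with hy
      have h5 : y.den ≠ 1 := by
        intro h6
        obtain ⟨z, hz⟩ := (den_one_iff y).1 h6
        apply hρ2
        rw [hcb, ZMod.intCast_zmod_eq_zero_iff_dvd]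
        refine ⟨z, ?_⟩
        have h7 := ext_sum ρ
        rw [← hy, hz] at h7
        exact_mod_cast h7.symm
      have := y.den_pos
      omega
    · refine lt_of_le_of_lt (den_le_order (N := N) (∑ i, ρ i * D i) _ (ext_sum ρ)) ?_
      rw [← hcb]
      exact hρ3

end Pool.Agent.Helper25K9.PC
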