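import Mathlib
import Pool.Agent.Helper25K9.PC.RelOp
import Pool.Agent.Helper25K9.PC.Appr
import Pool.Agent.Helper25K9.PC.Cop

set_option autoImplicit false

/-!
Bounded relations among the differences of exponents away from one point, for irreducible operators.
-/

open Finset

namespace Pool.Agent.Helper25K9.PC

/-- The inequalities for line subbundles of stable parabolic bundles. -/
def LineStrict {X : Type*} [Fintype X] {n : ℕ} (e : X → Fin n → ℚ) : Prop :=
  ∀ β : X → ℚ, 0 ≤ ∑ x, β x → (n : ℚ) + ∑ x, ∑ l, (⌊e x l - β x⌋ : ℚ) ≤ ∑ x, ∑ l, e x l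

lemma lineStrict_shift {X : Type*} [Fintype X] [Nonempty X] {n : ℕ} {e e' : X → Fin n → ℚ}
    (h : LineStrict e) (t : X → ℚ) (T : ℤ) (hT : ∑ x, t x = T) (g : X → Fin n → ℤ)
    (he : ∀ x l, e' x l = e x l + t x + g x l) : LineStrict e' := by
  classical
  intro β hβ
  obtain ⟨x₁⟩ : Nonempty X := inferInstance
  have h1 := h (fun x => β x - t x + (if x = x₁ then (T : ℚ) else 0)) (by
    rw [sum_add_distrib, sum_sub_distrib, sum_ite_eq' univ x₁, if_pos (mem_univ _), hT]
    linarith)
  have h2 : ∀ x l, ((⌊e x l - (β x - t x + (if x = x₁ then (T : ℚ) else 0))⌋ : ℤ) : ℚ) =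
      ((⌊e' x l - β x⌋ : ℤ) : ℚ) - g x l - (if x = x₁ then (T : ℚ) else 0) := by
    intro x l
    have e1 : e x l - (β x - t x + (if x = x₁ then (T : ℚ) else 0)) =
        (e' x l - β x) - ((g x l + (if x = x₁ then T else 0) : ℤ) : ℚ) := by
      rw [he]; push_cast; ring
    rw [e1, Int.floor_sub_intCast]
    push_cast
    ring
  simp only [h2, sum_sub_distrib] at h1
  have h3 : ∑ x : X, ∑ _l : Fin n, (if x = x₁ then (T : ℚ) else 0) = n * T := by
    simp only [sum_const, card_univ, Fintype.card_fin, nsmul_eq_mul]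
    rw [← mul_sum, sum_ite_eq' univ x₁, if_pos (mem_univ _)]
  have h4 : ∑ x, ∑ l, e' x l = ∑ x, ∑ l, e x l + n * T + ∑ x, ∑ l, (g x l : ℚ) := by
    simp only [he, sum_add_distrib]
    congr 2
    simp only [sum_const, card_univ, Fintype.card_fin, nsmul_eq_mul]
    rw [← mul_sum, hT]
  rw [h3] at h1
  rw [h4]
  linarith

/-- For a prime denominator the strict inequalities hold for all multiples prime to it. -/
theorem lineStrict_all {X : Type*} [Fintype X] [Nonempty X] {n : ℕ} (hn : 1 ≤ n)
    (e : X → Fin n → ℚ) {q N : ℕ} (hq : q.Prime) (hN : 0 < N)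
    (H : ∀ a : ℤ, IsCoprime a (N : ℤ) → LineStrict fun x l => (a : ℚ) * e x l)
    (h1 : ∀ x l l', ∃ z : ℤ, (q : ℚ) * (e x l - e x l') = z)
    (h2 : ∀ κ : X → Fin n, ∃ z : ℤ, (q : ℚ) * ∑ x, e x (κ x) = z) (a : ℤ) (hqa : ¬ (q : ℤ) ∣ a) :
    LineStrict fun x l => (a : ℚ) * e x l := by
  set l₀ : Fin n := ⟨0, hn⟩ with hl₀
  have hco : IsCoprime a (q : ℤ) :=
    ((Nat.prime_iff_prime_int.1 hq).coprime_iff_not_dvd.2 hqa).symm
  obtain ⟨a', ha', haa⟩ := Pool.Agent.R340.SY.exists_lift (q := q) (N := q * N)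
    (Nat.mul_pos hq.pos hN) (dvd_mul_right _ _) a hco
  have haN : IsCoprime a' (N : ℤ) := IsCoprime.of_isCoprime_of_dvd_right ha' (by
    push_cast; exact dvd_mul_left _ _)
  obtain ⟨d, hd⟩ := haa
  choose z hz using h1
  obtain ⟨y, hy⟩ := h2 fun _ => l₀
  refine lineStrict_shift (H a' haN) (fun x => -((q : ℚ) * d) * e x l₀) (-(d * y)) ?_
    (fun x l => -(d * z x l l₀)) ?_
  · rw [← mul_sum]
    push_cast
    rw [← hy]
    ring
  · intro x l
    have : (a : ℚ) = a' - q * d := by
      have : a = a' - q * d := by linarith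
      rw [this]; push_cast; ring
    rw [this]
    push_cast
    rw [← hz x l l₀]
    ring

/-- The final contradiction. -/
theorem contra {X : Type*} [Fintype X] [DecidableEq X] {n : ℕ}
    (e : X → Fin n → ℚ) (H : LineIneq e) (Hs : LineStrict e) (Y : Finset X)
    (hY : ∀ x, x ∉ Y → ∀ l l', ∃ z : ℤ, e x l - e x l' = z) (j : X) (κ : X → Fin n)
    (ρ z : X → Fin n → ℤ) (v : X → Fin n → ℚ) (C : ℚ) (hρ : ∀ x l, |(ρ x l : ℚ)| ≤ C)
    (hrel : ∃ w : ℤ, ∑ x, e x (κ x) - ∑ x ∈ Y.erase j, ∑ l, ρ x l * (e x l - e x (κ x)) = w)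
    (hv : ∀ x l, e x l - e x (κ x) = z x l + v x l)
    (hpos : ∀ x ∈ Y.erase j, ∀ l, 0 ≤ v x l + ∑ l', ρ x l' * v x l')
    (hsmall : (1 + C + n ^ 2) * ∑ x ∈ Y.erase j, ∑ l, |v x l| < 1) : False := by
  classical
  obtain ⟨w, hw⟩ := hrel
  set y : ℚ := ∑ x ∈ Y.erase j, ∑ l, |v x l| with hy
  have hy0 : 0 ≤ y := sum_nonneg fun x _ => sum_nonneg fun l _ => abs_nonneg _
  have hn : 0 < n := (Nat.zero_le _).trans_lt (κ j).2
  have hnq : (1 : ℚ) ≤ n := by exact_mod_cast hn
  have hC : 0 ≤ C := (abs_nonneg _).trans (hρ j (κ j))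
  let μ : X → ℚ := fun x => if x ∈ Y.erase j then ∑ l, ρ x l * v x l else 0
  have hμj : μ j = 0 := by simp [μ]
  have hμsum : ∑ x, μ x = ∑ x ∈ Y.erase j, ∑ l, ρ x l * v x l := by
    simp only [μ]
    rw [sum_ite_mem, univ_inter]
  have hμsum' : ∑ x ∈ univ.erase j, μ x = ∑ x, μ x := by
    rw [← add_sum_erase univ μ (mem_univ j), hμj, zero_add]
  set m₀ : ℚ := ∑ x, μ x with hm₀
  have hm₀abs : |m₀| ≤ C * y := by
    rw [hμsum, hy, mul_sum]
    refine (abs_sum_le_sum_abs _ _).trans (sum_le_sum fun x _ => ?_)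
    rw [mul_sum]
    refine (abs_sum_le_sum_abs _ _).trans (sum_le_sum fun l _ => ?_)
    rw [abs_mul]
    exact mul_le_mul_of_nonneg_right (hρ x l) (abs_nonneg _)
  set s : ℚ := ∑ x ∈ univ.erase j, e x (κ x) with hs
  let β : X → ℚ := fun x => if x = j then -s + m₀ else e x (κ x) - μ x
  have hβ : ∑ x, β x = 0 := by
    rw [← add_sum_erase univ β (mem_univ j)]
    have h1 : ∑ x ∈ univ.erase j, β x = s - m₀ := by
      have h2 : ∀ x ∈ univ.erase j, β x = e x (κ x) - μ x := by
        intro x hx
        simp only [β, if_neg (ne_of_mem_erase hx)]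
      rw [sum_congr rfl h2, sum_sub_distrib, ← hs, hμsum']
    rw [h1]
    simp only [β, if_true]
    ring
  have key := Hs β hβ.ge
  rw [← add_sum_erase univ (fun x => ∑ l, ((⌊e x l - β x⌋ : ℤ) : ℚ)) (mem_univ j),
    ← add_sum_erase univ (fun x => ∑ l, e x l) (mem_univ j)] at key
  -- points other than `j`
  have hx : ∀ x ∈ univ.erase j, ∑ l, e x l - n * e x (κ x) -
      (if x ∈ Y.erase j then ∑ l, |v x l| else 0) ≤ ∑ l, ((⌊e x l - β x⌋ : ℤ) : ℚ) := by
    intro x hxj
    have hne := ne_of_mem_erase hxj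
    by_cases hxY : x ∈ Y.erase j
    · rw [if_pos hxY]
      have h1 : ∀ l, (e x l - e x (κ x)) - |v x l| ≤ ((⌊e x l - β x⌋ : ℤ) : ℚ) := by
        intro l
        have h3 : z x l ≤ ⌊e x l - β x⌋ := by
          rw [Int.le_floor]
          have h4 : e x l - β x = z x l + v x l + ∑ l', ρ x l' * v x l' := by
            simp only [β, if_neg hne, μ, if_pos hxY]
            rw [← hv x l]; ring
          rw [h4]
          have := hpos x hxY l
          linarith
        have h4 : ((z x l : ℤ) : ℚ) ≤ ((⌊e x l - β x⌋ : ℤ) : ℚ) := by exact_mod_cast h3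
        have := le_abs_self (v x l)
        rw [hv x l]
        linarith
      have h5 := sum_le_sum fun l (_ : l ∈ (univ : Finset (Fin n))) => h1 l
      rw [sum_sub_distrib, sum_sub_distrib, sum_const, card_univ, Fintype.card_fin,
        nsmul_eq_mul] at h5
      exact h5
    · rw [if_neg hxY]
      have hxY' : x ∉ Y := fun h => hxY (mem_erase.2 ⟨hne, h⟩)
      have h1 : ∀ l, ((⌊e x l - β x⌋ : ℤ) : ℚ) = e x l - e x (κ x) := by
        intro l
        obtain ⟨z', hz'⟩ := hY x hxY' l (κ x)
        have h2 : e x l - β x = z' := by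
          simp only [β, if_neg hne, μ, if_neg hxY]
          rw [← hz']; ring
        rw [h2, Int.floor_intCast, hz']
      rw [sum_congr rfl fun l _ => h1 l, sum_sub_distrib, sum_const, card_univ, Fintype.card_fin,
        nsmul_eq_mul]
      linarith
  have hsum := sum_le_sum hx
  have h3 : ∑ x ∈ univ.erase j, (if x ∈ Y.erase j then ∑ l, |v x l| else 0) = y := by
    rw [hy]
    rw [← sum_filter]
    refine sum_congr ?_ fun _ _ => rfl
    ext x
    simp only [mem_filter, mem_erase, mem_univ, and_true]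
    tauto
  rw [sum_sub_distrib, sum_sub_distrib, ← mul_sum, ← hs, h3] at hsum
  -- the point `j`
  have hβj : β j = -s + m₀ := by simp only [β, if_true]
  have hjκ : ((⌊e j (κ j) - β j⌋ : ℤ) : ℚ) = e j (κ j) + s - m₀ := by
    have h4 : e j (κ j) - β j = ((w + ∑ x ∈ Y.erase j, ∑ l, ρ x l * z x l : ℤ) : ℚ) := by
      have h5 : ∑ x, e x (κ x) = e j (κ j) + s := by rw [← add_sum_erase univ _ (mem_univ j)]
      have h6 : ∑ x ∈ Y.erase j, ∑ l, (ρ x l : ℚ) * (e x l - e x (κ x)) =
          ∑ x ∈ Y.erase j, ∑ l, (ρ x l : ℚ) * z x l + m₀ := by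
        rw [hμsum, ← sum_add_distrib]
        refine sum_congr rfl fun x _ => ?_
        rw [← sum_add_distrib]
        refine sum_congr rfl fun l _ => ?_
        rw [hv x l]; ring
      rw [h5, h6] at hw
      rw [hβj]
      push_cast
      linarith
    rw [h4, Int.floor_intCast, ← h4, hβj]
    ring
  have hjl : ∀ l ∈ univ.erase (κ j), e j l + s - n * y - 1 ≤ ((⌊e j l - β j⌋ : ℤ) : ℚ) := by
    intro l hl
    have hd := line_dist e H j Y hY (Function.update κ j l)
    have e1 : ∑ x, e x (Function.update κ j l x) = e j l + s := by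
      rw [← add_sum_erase univ _ (mem_univ j), Function.update_self]
      congr 1
      refine sum_congr rfl fun x hx => ?_
      rw [Function.update_of_ne (ne_of_mem_erase hx)]
    have e2 : ∑ x ∈ Y.erase j, ∑ l', |e x l' - e x (Function.update κ j l x) -
        round (e x l' - e x (Function.update κ j l x))| ≤ y := by
      refine sum_le_sum fun x hx => sum_le_sum fun l' _ => ?_
      rw [Function.update_of_ne (ne_of_mem_erase hx)]
      have := round_le (e x l' - e x (κ x)) (z x l')
      refine this.trans (le_of_eq ?_)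
      congr 1
      rw [hv x l']; ring
    rw [e1] at hd
    have hd' : |e j l + s - round (e j l + s)| ≤ n * y :=
      hd.trans (mul_le_mul_of_nonneg_left e2 (by linarith))
    have h4 : round (e j l + s) - 1 ≤ ⌊e j l - β j⌋ := by
      rw [Int.le_floor, hβj]
      push_cast
      have := neg_abs_le (e j l + s - round (e j l + s))
      have := le_abs_self m₀
      have h7 : (n : ℚ) * y + C * y ≤ 1 := by nlinarith
      linarith
    have h5 : ((round (e j l + s) - 1 : ℤ) : ℚ) ≤ ((⌊e j l - β j⌋ : ℤ) : ℚ) := by exact_mod_cast h4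
    push_cast at h5
    have := le_abs_self (e j l + s - round (e j l + s))
    linarith
  have hjsum := sum_le_sum hjl
  have hcard : ((univ.erase (κ j)).card : ℚ) = n - 1 := by
    rw [card_erase_of_mem (mem_univ _), card_univ, Fintype.card_fin, Nat.cast_sub hn]
    simp
  rw [sum_sub_distrib, sum_sub_distrib, sum_add_distrib, sum_const, sum_const, sum_const,
    nsmul_eq_mul, nsmul_eq_mul, nsmul_eq_mul, hcard] at hjsum
  rw [← add_sum_erase univ (fun l => ((⌊e j l - β j⌋ : ℤ) : ℚ)) (mem_univ (κ j)),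
    ← add_sum_erase univ (fun l => e j l) (mem_univ (κ j)), hjκ] at key
  have hm := le_abs_self m₀
  nlinarith

/-- Directions in which the inequality is violated. -/
lemma pattern {n : ℕ} (ρ : Fin n → ℤ) (κ : Fin n) {C t : ℚ} (ht : 0 < t) (hC : 0 ≤ C)
    (hρ : ∀ l, |(ρ l : ℚ)| ≤ C) :
    ∃ φ : Fin n → ℚ, (∀ l, t ≤ |φ l| ∧ |φ l| ≤ (2 * C * n + 3) * t) ∧
      ∀ v : Fin n → ℚ, v κ = 0 → (∀ l, l ≠ κ → |v l - φ l| ≤ t / 4) →
        ∀ l, 0 ≤ v l + ∑ l', ρ l' * v l' := by
  classical
  have hnn : (0 : ℚ) ≤ n := Nat.cast_nonneg n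
  have hCn : 0 ≤ C * n := mul_nonneg hC hnn
  by_cases hA : ∃ l₁, l₁ ≠ κ ∧ 0 < ρ l₁
  · obtain ⟨l₁, hl₁, hpos⟩ := hA
    refine ⟨fun l => if l = l₁ then (2 * C * n + 3) * t else t, fun l => ?_, ?_⟩
    · simp only
      split_ifs
      · rw [abs_of_nonneg (by positivity)]
        exact ⟨by nlinarith, le_rfl⟩
      · rw [abs_of_pos ht]
        exact ⟨le_rfl, by nlinarith⟩
    · intro v hκ hclose l
      have hv0 : ∀ l, 0 ≤ v l := by
        intro l
        by_cases h : l = κ
        · rw [h, hκ]
        · have h1 := abs_le.1 (hclose l h)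
          by_cases h2 : l = l₁
          · simp only [if_pos h2] at h1
            nlinarith [h1.1]
          · simp only [if_neg h2] at h1
            linarith [h1.1]
      have hterm : ∀ l' ∈ univ.erase l₁, -(C * (5 / 4 * t)) ≤ ρ l' * v l' := by
        intro l' hl'
        have hne := ne_of_mem_erase hl'
        have hvl : v l' ≤ 5 / 4 * t := by
          by_cases h : l' = κ
          · rw [h, hκ]; positivity
          · have h1 := abs_le.1 (hclose l' h)
            simp only [if_neg hne] at h1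
            linarith [h1.2]
        have h2 := (abs_le.1 (hρ l')).1
        have h3 := hv0 l'
        nlinarith
      have hs := sum_le_sum hterm
      rw [sum_const, nsmul_eq_mul] at hs
      have hcard : ((univ.erase l₁).card : ℚ) ≤ n := by
        have : (univ.erase l₁).card ≤ n := by
          refine (card_erase_le).trans ?_
          rw [card_univ, Fintype.card_fin]
        exact_mod_cast this
      rw [← add_sum_erase univ (fun l' => (ρ l' : ℚ) * v l') (mem_univ l₁)]
      have h1 := abs_le.1 (hclose l₁ hl₁)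
      simp only [if_true] at h1
      have h4 : (1 : ℚ) ≤ ρ l₁ := by exact_mod_cast hpos
      have h5 : v l₁ ≤ ρ l₁ * v l₁ := by nlinarith [hv0 l₁]
      have h6 : (univ.erase l₁).card * (C * (5 / 4 * t)) ≤ n * (C * (5 / 4 * t)) :=
        mul_le_mul_of_nonneg_right hcard (by positivity)
      have := hv0 l
      nlinarith [h1.1]
  · push Not at hA
    by_cases hB : ∃ l₁, l₁ ≠ κ ∧ ρ l₁ < 0
    · obtain ⟨l₁, hl₁, hneg⟩ := hB
      refine ⟨fun l => if l = l₁ then -(3 * t) else -t, fun l => ?_, ?_⟩
      · simp only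
        split_ifs
        · rw [abs_neg, abs_of_pos (by positivity)]
          exact ⟨by linarith, by nlinarith⟩
        · rw [abs_neg, abs_of_pos ht]
          exact ⟨le_rfl, by nlinarith⟩
      · intro v hκ hclose l
        have hv0 : ∀ l, v l ≤ 0 := by
          intro l
          by_cases h : l = κ
          · rw [h, hκ]
          · have h1 := abs_le.1 (hclose l h)
            by_cases h2 : l = l₁
            · simp only [if_pos h2] at h1
              linarith [h1.2]
            · simp only [if_neg h2] at h1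
              linarith [h1.2]
        have hmin : ∀ l, v l₁ ≤ v l := by
          intro l
          have h1 := abs_le.1 (hclose l₁ hl₁)
          simp only [if_true] at h1
          by_cases h : l = κ
          · rw [h, hκ]
            linarith [h1.2]
          · by_cases h2 : l = l₁
            · rw [h2]
            · have h3 := abs_le.1 (hclose l h)
              simp only [if_neg h2] at h3
              linarith [h1.2, h3.1]
        have hterm : ∀ l' ∈ univ.erase l₁, 0 ≤ (ρ l' : ℚ) * v l' := by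
          intro l' _
          by_cases h : l' = κ
          · rw [h, hκ, mul_zero]
          · have h1 : (ρ l' : ℚ) ≤ 0 := by exact_mod_cast hA l' h
            exact mul_nonneg_of_nonpos_of_nonpos h1 (hv0 l')
        rw [← add_sum_erase univ (fun l' => (ρ l' : ℚ) * v l') (mem_univ l₁)]
        have hs := sum_nonneg hterm
        have h4 : (ρ l₁ : ℚ) ≤ -1 := by
          have : ρ l₁ ≤ -1 := by omega
          exact_mod_cast this
        have h5 : -v l₁ ≤ ρ l₁ * v l₁ := by nlinarith [hv0 l₁]
        have := hmin l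
        linarith
    · push Not at hB
      have hz : ∀ l, l ≠ κ → ρ l = 0 := fun l h => le_antisymm (hA l h) (hB l h)
      refine ⟨fun _ => t, fun l => ?_, ?_⟩
      · rw [abs_of_pos ht]
        exact ⟨le_rfl, by nlinarith⟩
      · intro v hκ hclose l
        have hs : ∑ l', (ρ l' : ℚ) * v l' = 0 := by
          refine sum_eq_zero fun l' _ => ?_
          by_cases h : l' = κ
          · rw [h, hκ, mul_zero]
          · rw [hz l' h]; simp
        rw [hs, add_zero]
        by_cases h : l = κ
        · rw [h, hκ]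
        · have h1 := abs_le.1 (hclose l h)
          linarith [h1.1]

end Pool.Agent.Helper25K9.PC
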