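import Mathlib
import Pool.Agent.Helper25K9.PC.IrrMain
import Pool.Agent.Helper25K9.PC.ApprU
import Pool.Agent.Helper25K9.PC.EffOp

set_option autoImplicit false

/-!
The relation among the differences away from one point, arbitrary denominators.
-/

open Finset

namespace Pool.Agent.Helper25K9.PC

/-- the bound for the denominators in the irreducible case -/
def ib (n r : ℕ) : ℕ := 2 * 10 ^ 12 * (n * r) ^ 16 * (101 * n ^ 4 * r ^ 4) ^ (2 * r)

lemma m_const' {n r : ℕ} (hn : 2 ≤ n) (hr : 1 ≤ r) :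
    (r : ℝ) * (1 - Real.cos (Real.pi / (((101 * n ^ 4 * r ^ 4 : ℕ) : ℝ) + 1))) +
      (2 * r + (1 / (32 * (n : ℝ) ^ 4 * r ^ 3)) ^ 2 / 2) * (1 / (10 ^ 6 * ((n : ℝ) * r) ^ 8)) ≤
      (1 / (32 * n ^ 4 * r ^ 3)) ^ 2 / 2 := by
  have hπ : Real.pi < 3.1416 := Real.pi_lt_d4
  have hπ0 := Real.pi_pos
  have hnR : (2 : ℝ) ≤ n := by exact_mod_cast hn
  have hrR : (1 : ℝ) ≤ r := by exact_mod_cast hr
  set M : ℝ := ((101 * n ^ 4 * r ^ 4 : ℕ) : ℝ) + 1 with hM
  have hMe : M = 101 * n ^ 4 * r ^ 4 + 1 := by rw [hM]; push_cast; ring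
  have hpos : (0 : ℝ) < 101 * n ^ 4 * r ^ 4 := by positivity
  have hM0 : 0 < M := by rw [hMe]; linarith
  have h1 : 1 - Real.cos (Real.pi / M) ≤ (Real.pi / M) ^ 2 / 2 := by
    have := Real.one_sub_sq_div_two_le_cos (x := Real.pi / M)
    linarith
  have h2 : Real.pi / M ≤ 3.1416 / (101 * n ^ 4 * r ^ 4) := by
    have : (101 : ℝ) * n ^ 4 * r ^ 4 ≤ M := by rw [hMe]; linarith
    exact div_le_div₀ (by norm_num) hπ.le hpos this
  have h3 : (Real.pi / M) ^ 2 ≤ (3.1416 / (101 * n ^ 4 * r ^ 4)) ^ 2 :=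
    pow_le_pow_left₀ (by positivity) h2 2
  set y : ℝ := (n : ℝ) ^ 8 * r ^ 7 with hy
  have hy0 : 0 < y := by positivity
  have h4 : (r : ℝ) * (1 - Real.cos (Real.pi / M)) ≤ 4.83774e-4 / y := by
    calc (r : ℝ) * (1 - Real.cos (Real.pi / M)) ≤ r * ((3.1416 / (101 * n ^ 4 * r ^ 4)) ^ 2 / 2) :=
          mul_le_mul_of_nonneg_left (by linarith) (by linarith)
      _ = (3.1416 ^ 2 / 20402) / y := by
          rw [hy]
          field_simp
          ring
      _ ≤ 4.83774e-4 / y := div_le_div_of_nonneg_right (by norm_num) hy0.le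
  have h5 : 4.8828e-4 / y ≤ (1 / (32 * (n : ℝ) ^ 4 * r ^ 3)) ^ 2 / 2 := by
    have e : (1 / (32 * (n : ℝ) ^ 4 * r ^ 3)) ^ 2 / 2 = (1 / 2048 * r) / y := by
      rw [hy]
      field_simp
      ring
    rw [e]
    exact div_le_div_of_nonneg_right (by nlinarith) hy0.le
  have h6 : (1 / (32 * (n : ℝ) ^ 4 * r ^ 3)) ^ 2 / 2 ≤ 1 := by
    have e : (1 : ℝ) / (32 * (n : ℝ) ^ 4 * r ^ 3) ≤ 1 := by
      rw [div_le_one (by positivity)]
      have a1 : (1 : ℝ) ≤ (n : ℝ) ^ 4 := one_le_pow₀ (by linarith)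
      have a2 : (1 : ℝ) ≤ (r : ℝ) ^ 3 := one_le_pow₀ hrR
      nlinarith [mul_le_mul a1 a2 (by norm_num) (by linarith)]
    have e0 : (0 : ℝ) ≤ 1 / (32 * (n : ℝ) ^ 4 * r ^ 3) := by positivity
    nlinarith
  have h7 : (2 * r + (1 / (32 * (n : ℝ) ^ 4 * r ^ 3)) ^ 2 / 2) * (1 / (10 ^ 6 * ((n : ℝ) * r) ^ 8)) ≤
      3e-6 / y := by
    calc (2 * r + (1 / (32 * (n : ℝ) ^ 4 * r ^ 3)) ^ 2 / 2) * (1 / (10 ^ 6 * ((n : ℝ) * r) ^ 8))
        ≤ (3 * r) * (1 / (10 ^ 6 * ((n : ℝ) * r) ^ 8)) :=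
          mul_le_mul_of_nonneg_right (by linarith) (by positivity)
      _ = 3e-6 / y := by
          rw [hy]
          field_simp
          norm_num
  have h8 : 4.83774e-4 / y + 3e-6 / y ≤ 4.8828e-4 / y := by
    rw [← add_div]
    exact div_le_div_of_nonneg_right (by norm_num) hy0.le
  linarith

/-- **A relation among the differences at the points other than `j`.** -/
theorem irr_relation_unit {X : Type*} [Fintype X] [DecidableEq X] {n : ℕ} (hn : 2 ≤ n)
    (e : X → Fin n → ℚ) {q : ℕ} (hq0 : 0 < q) (hden : ∀ x l, ∃ z : ℤ, (q : ℚ) * e x l = z)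
    (H : ∀ a : ℤ, IsCoprime a (q : ℤ) → LineIneq fun x l => (a : ℚ) * e x l)
    (Hs : ∀ a : ℤ, IsCoprime a (q : ℤ) → LineStrict fun x l => (a : ℚ) * e x l) (Y : Finset X)
    (hY : ∀ x, x ∉ Y → ∀ l l', ∃ z : ℤ, e x l - e x l' = z) (j : X) (κ : X → Fin n)
    (ρ : X → Fin n → ℤ) (hρ1 : ∀ x l, |ρ x l| ≤ 4 * n * ((n - 1 : ℕ) * (Y.erase j).card)) {w : ℤ}
    (hw : ∑ x, e x (κ x) - ∑ x ∈ Y.erase j, ∑ l, ρ x l * (e x l - e x (κ x)) = w) :
    ∃ σ : X → Fin n → ℤ, (∃ x ∈ Y.erase j, ∃ l, l ≠ κ x ∧ σ x l ≠ 0) ∧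
      (∀ x l, |σ x l| ≤ 101 * n ^ 4 * ((n - 1 : ℕ) * (Y.erase j).card) ^ 4) ∧
      (∑ x ∈ Y.erase j, ∑ l, σ x l * (e x l - e x (κ x))).den <
        ib n ((n - 1) * (Y.erase j).card) := by
  classical
  by_contra hcon
  have : NeZero q := ⟨hq0.ne'⟩
  have hqR : (0 : ℝ) < q := by exact_mod_cast hq0
  have hqQ : (0 : ℚ) < q := by exact_mod_cast hq0
  choose E' hE' using hden
  set k : ℕ := (Y.erase j).card with hk
  set r : ℕ := (n - 1) * k with hr
  have hHz : ∀ a : ℤ, ∀ x, x ∉ Y → ∀ l l', ∃ z : ℤ, (a : ℚ) * e x l - (a : ℚ) * e x l' = z := by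
    intro a x hx l l'
    obtain ⟨z, hz⟩ := hY x hx l l'
    exact ⟨a * z, by push_cast; rw [← hz]; ring⟩
  set C : ℚ := 4 * n * r with hC
  have hC0 : 0 ≤ C := by rw [hC]; positivity
  have hρC : ∀ x l, |(ρ x l : ℚ)| ≤ C := by
    intro x l
    have h3 := hρ1 x l
    have h4 : ((|ρ x l| : ℤ) : ℚ) ≤ ((4 * n * ((n - 1 : ℕ) * k) : ℤ) : ℚ) := by exact_mod_cast h3
    rw [Int.cast_abs] at h4
    refine h4.trans (le_of_eq ?_)
    rw [hC, hr]
    push_cast
    ring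
  have hrel : ∀ a : ℤ, ∃ w' : ℤ, ∑ x, (a : ℚ) * e x (κ x) -
      ∑ x ∈ Y.erase j, ∑ l, ρ x l * ((a : ℚ) * e x l - (a : ℚ) * e x (κ x)) = w' := by
    intro a
    refine ⟨a * w, ?_⟩
    push_cast
    rw [← hw, mul_sub, mul_sum, mul_sum]
    congr 1
    refine sum_congr rfl fun x _ => ?_
    rw [mul_sum]
    exact sum_congr rfl fun l _ => by ring
  by_cases hr0 : r = 0
  · -- no differences
    have hk0 : k = 0 := by
      rcases Nat.mul_eq_zero.1 hr0 with h | h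
      · omega
      · exact h
    have hemp : Y.erase j = ∅ := card_eq_zero.1 hk0
    refine contra _ (H 1 isCoprime_one_left) (Hs 1 isCoprime_one_left) Y (hHz 1) j κ ρ (fun _ _ => 0)
      (fun x l => ((1 : ℤ) : ℚ) * e x l - ((1 : ℤ) : ℚ) * e x (κ x)) C hρC (hrel 1)
      (fun x l => by simp) ?_ ?_
    · intro x hx
      rw [hemp] at hx
      exact absurd hx (notMem_empty x)
    · rw [hemp]
      simp
  -- the general case
  have hr1 : 1 ≤ r := Nat.one_le_iff_ne_zero.2 hr0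
  obtain ⟨n', rfl⟩ : ∃ n', n = n' + 1 := ⟨n - 1, by omega⟩
  have hrn : r = n' * k := by rw [hr]; simp
  obtain ⟨m, hm⟩ : ∃ m : ℕ, m = n' + 1 := ⟨_, rfl⟩
  have hmQ : ((n' + 1 : ℕ) : ℚ) = m := by rw [hm]
  have hm2 : 2 ≤ m := by omega
  have hnQ : (2 : ℚ) ≤ m := by exact_mod_cast hm2
  rw [hmQ] at hC
  have hrQ : (1 : ℚ) ≤ r := by exact_mod_cast hr1
  set t : ℚ := 1 / (32 * m ^ 4 * r ^ 3) with ht
  have hden : (0 : ℚ) < 32 * m ^ 4 * r ^ 3 := by positivity
  have ht0 : 0 < t := by rw [ht]; positivity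
  have htmul : t * (32 * m ^ 4 * r ^ 3) = 1 := by rw [ht]; field_simp
  have hpat : ∀ x, ∃ φ : Fin (n' + 1) → ℚ, (∀ l, t ≤ |φ l| ∧ |φ l| ≤ (2 * C * m + 3) * t) ∧
      ∀ v : Fin (n' + 1) → ℚ, v (κ x) = 0 → (∀ l, l ≠ κ x → |v l - φ l| ≤ t / 4) →
        ∀ l, 0 ≤ v l + ∑ l', ρ x l' * v l' := fun x => by
    have h3 := pattern (ρ x) (κ x) ht0 hC0 (hρC x)
    rwa [hmQ] at h3
  choose φ hφ1 hφ2 using hpat
  let ι := {x // x ∈ Y.erase j} × Fin n'
  have hD : ∀ i : ι, ∃ z : ℤ, (q : ℚ) * (e i.1.1 ((κ i.1.1).succAbove i.2) - e i.1.1 (κ i.1.1)) = z :=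
    fun i => ⟨E' i.1.1 ((κ i.1.1).succAbove i.2) - E' i.1.1 (κ i.1.1), by
      push_cast
      rw [← hE', ← hE']
      ring⟩
  choose D hD using hD
  have hcard : Fintype.card ι = r := by
    simp only [ι]
    rw [Fintype.card_prod, Fintype.card_coe, Fintype.card_fin, hrn, mul_comm]
  have hr0R : (0 : ℝ) < r := by exact_mod_cast hr1
  have hm0R : (0 : ℝ) < m := by
    have : 0 < m := by omega
    exact_mod_cast this
  have hM0R : (0 : ℝ) < ((101 * m ^ 4 * r ^ 4 : ℕ) : ℝ) := by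
    push_cast
    positivity
  have hEE : 1 / (10 ^ 6 * ((m : ℝ) * r) ^ 8 * ((101 * m ^ 4 * r ^ 4 : ℕ) : ℝ) ^ r) *
      ((101 * m ^ 4 * r ^ 4 : ℕ) : ℝ) ^ r = 1 / (10 ^ 6 * ((m : ℝ) * r) ^ 8) := by
    field_simp
  have hib2 : 2 ≤ ib m r := by
    have h3 : 0 < m * r := Nat.mul_pos (by omega) hr1
    have h4 : 0 < (m * r) ^ 16 := Nat.pow_pos h3
    have h5 : 0 < 101 * m ^ 4 * r ^ 4 := by
      have : 0 < m := by omega
      positivity
    have h6 : 0 < (101 * m ^ 4 * r ^ 4) ^ (2 * r) := Nat.pow_pos h5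
    have h7 : 0 < (m * r) ^ 16 * (101 * m ^ 4 * r ^ 4) ^ (2 * r) := Nat.mul_pos h4 h6
    unfold ib
    rw [mul_assoc]
    nlinarith
  obtain ⟨u, ha⟩ := exists_approx_unit (q := q) D
    (fun i : ι => ((φ i.1.1 ((κ i.1.1).succAbove i.2) : ℚ) : ℝ)) (M := 101 * m ^ 4 * r ^ 4)
    (m := ib m r) (by
      have : 0 < m := by omega
      have : 0 < 101 * m ^ 4 * r ^ 4 := by positivity
      omega) hib2
    (δ := 1 / (10 ^ 6 * ((m : ℝ) * r) ^ 8 * ((101 * m ^ 4 * r ^ 4 : ℕ) : ℝ) ^ r))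
    (θ := (1 / (32 * (m : ℝ) ^ 4 * r ^ 3)) ^ 2 / 2) (by positivity) (by
      refine le_of_eq ?_
      unfold ib
      push_cast
      field_simp
      ring) (by positivity) (by
      rw [hcard, hEE]
      rw [div_lt_one (by positivity)]
      have h3 : (1 : ℝ) ≤ (m : ℝ) * r := by
        have h4 : 0 < m * r := Nat.mul_pos (by omega) hr1
        exact_mod_cast h4
      have h4 : (1 : ℝ) ≤ ((m : ℝ) * r) ^ 8 := one_le_pow₀ h3
      linarith) (by
      rw [hcard, hEE]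
      exact m_const' hm2 hr1) (by
      intro σ hσ hne
      by_contra hlt
      push Not at hlt
      obtain ⟨i, hi⟩ := Function.ne_iff.1 hne
      apply hcon
      refine ⟨fun x => (κ x).insertNth (α := fun _ => ℤ) 0
        (fun l => if h : x ∈ Y.erase j then σ (⟨x, h⟩, l) else 0), ?_, ?_, ?_⟩
      · refine ⟨i.1.1, i.1.2, (κ i.1.1).succAbove i.2, Fin.succAbove_ne _ _, ?_⟩
        simp only [Fin.insertNth_apply_succAbove]
        rw [dif_pos i.1.2]
        exact hi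
      · intro x l
        rcases Fin.eq_self_or_eq_succAbove (κ x) l with rfl | ⟨l', rfl⟩
        · simp only [Fin.insertNth_apply_same, abs_zero]
          positivity
        · simp only [Fin.insertNth_apply_succAbove]
          split_ifs with h
          · have := hσ (⟨x, h⟩, l')
            refine this.trans (le_of_eq ?_)
            rw [hrn, hm]
            simp only [Nat.add_sub_cancel]
            push_cast
            ring
          · rw [abs_zero]
            positivity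
      · have hib : ib (n' + 1) ((n' + 1 - 1) * (Y.erase j).card) = ib m r := by
          rw [← hk, ← hr, hm]
        rw [hib]
        refine lt_of_le_of_lt (den_le_order (N := q) (∑ i, σ i * D i) _ ?_) ?_
        · push_cast
          rw [← sum_coe_sort (Y.erase j), Fintype.sum_prod_type, mul_sum]
          refine sum_congr rfl fun x _ => ?_
          rw [Fin.sum_univ_succAbove _ (κ x.1)]
          rw [sub_self, mul_zero, zero_add, mul_sum]
          refine sum_congr rfl fun l _ => ?_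
          rw [Fin.insertNth_apply_succAbove, dif_pos x.2, ← hD (x, l)]
          ring
        · push_cast
          exact hlt)
  set a : ZMod q := (u : ZMod q) with hau
  set A : ℤ := (a.val : ℤ) with hA
  -- the approximation, rational form
  have hclose : ∀ x ∈ Y.erase j, ∀ l, l ≠ κ x →
      |(A : ℚ) * (e x l - e x (κ x)) - φ x l -
        round ((A : ℚ) * (e x l - e x (κ x)) - φ x l)| ≤ t / 4 := by
    intro x hx l hl
    obtain ⟨l', rfl⟩ : ∃ l', (κ x).succAbove l' = l := Fin.exists_succAbove_eq hl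
    have h3 : (1 - Real.cos (2 * Real.pi * ((A : ℝ) * D (⟨x, hx⟩, l') / q -
        ((φ x ((κ x).succAbove l') : ℚ) : ℝ)))) ≤ (1 / (32 * (m : ℝ) ^ 4 * r ^ 3)) ^ 2 / 2 := by
      refine le_trans ?_ ha
      exact single_le_sum (f := fun i : ι => 1 - Real.cos (2 * Real.pi * ((A : ℝ) * D i / q -
        ((φ i.1.1 ((κ i.1.1).succAbove i.2) : ℚ) : ℝ))))
        (fun i _ => sub_nonneg.2 (Real.cos_le_one _)) (mem_univ ((⟨x, hx⟩, l') : ι))
    have h4 := sq_round_le ((A : ℝ) * D (⟨x, hx⟩, l') / q - ((φ x ((κ x).succAbove l') : ℚ) : ℝ))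
    have h5 : (A : ℝ) * D (⟨x, hx⟩, l') / q - ((φ x ((κ x).succAbove l') : ℚ) : ℝ) =
        (((A : ℚ) * (e x ((κ x).succAbove l') - e x (κ x)) - φ x ((κ x).succAbove l') : ℚ) : ℝ) := by
      have h6 : (e x ((κ x).succAbove l') - e x (κ x)) = (D (⟨x, hx⟩, l') : ℚ) / q := by
        rw [← hD (⟨x, hx⟩, l')]
        field_simp
      rw [h6]
      push_cast
      ring
    rw [h5] at h4 h3
    set X₀ : ℚ := (A : ℚ) * (e x ((κ x).succAbove l') - e x (κ x)) - φ x ((κ x).succAbove l')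
      with hX₀
    rw [Rat.round_cast] at h4
    have h7 : |(X₀ : ℝ) - ((round X₀ : ℤ) : ℝ)| ^ 2 ≤ (((t / 4 : ℚ)) : ℝ) ^ 2 := by
      have : (((t / 4 : ℚ)) : ℝ) ^ 2 = (1 / (32 * (m : ℝ) ^ 4 * r ^ 3)) ^ 2 / 2 / 8 := by
        rw [ht]
        push_cast
        ring
      rw [this]
      linarith
    have h8 : ((|X₀ - round X₀| : ℚ) : ℝ) ≤ (((t / 4 : ℚ)) : ℝ) := by
      have h9 : (0 : ℝ) ≤ (((t / 4 : ℚ)) : ℝ) := by
        have : (0 : ℚ) ≤ t / 4 := by positivity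
        exact_mod_cast this
      have h10 := abs_le_of_sq_le_sq h7 h9
      rw [abs_abs] at h10
      push_cast at h10 ⊢
      exact h10
    exact_mod_cast h8
  let z : X → Fin (n' + 1) → ℤ := fun x l => if x ∈ Y.erase j ∧ l ≠ κ x then
    round ((A : ℚ) * (e x l - e x (κ x)) - φ x l) else 0
  let v : X → Fin (n' + 1) → ℚ := fun x l => (A : ℚ) * (e x l - e x (κ x)) - z x l
  have hvκ : ∀ x, v x (κ x) = 0 := by
    intro x
    simp [v, z]
  have hvφ : ∀ x ∈ Y.erase j, ∀ l, l ≠ κ x → |v x l - φ x l| ≤ t / 4 := by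
    intro x hx l hl
    have h3 := hclose x hx l hl
    simp only [v, z]
    rw [if_pos ⟨hx, hl⟩]
    have e1 : (A : ℚ) * (e x l - e x (κ x)) - round ((A : ℚ) * (e x l - e x (κ x)) - φ x l) - φ x l =
        (A : ℚ) * (e x l - e x (κ x)) - φ x l - round ((A : ℚ) * (e x l - e x (κ x)) - φ x l) := by
      ring
    rw [e1]
    exact h3
  -- estimates
  have hn2r : (4 : ℚ) ≤ m ^ 2 * r := by nlinarith
  have hvabs : ∀ x ∈ Y.erase j, ∀ l, |v x l| ≤ if l = κ x then 0 else 9 * m ^ 2 * r * t := by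
    intro x hx l
    split_ifs with h
    · rw [h, hvκ, abs_zero]
    · have h3 := hvφ x hx l h
      have h4 := (hφ1 x l).2
      have h5 : |v x l| ≤ |v x l - φ x l| + |φ x l| := by
        have := abs_add_le (v x l - φ x l) (φ x l)
        rwa [sub_add_cancel] at this
      have h6 : (2 * C * m + 3) * t + t / 4 ≤ 9 * m ^ 2 * r * t := by
        rw [hC]
        nlinarith
      linarith
  have hsum : ∑ x ∈ Y.erase j, ∑ l, |v x l| ≤ r * (9 * m ^ 2 * r * t) := by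
    have h3 : ∀ x ∈ Y.erase j, ∑ l, |v x l| ≤ n' * (9 * m ^ 2 * r * t) := by
      intro x hx
      refine (sum_le_sum fun l _ => hvabs x hx l).trans (le_of_eq ?_)
      rw [Fin.sum_univ_succAbove _ (κ x), if_pos rfl, zero_add]
      have : ∀ l : Fin n', (if (κ x).succAbove l = κ x then (0 : ℚ) else 9 * m ^ 2 * r * t) =
          9 * m ^ 2 * r * t := fun l => if_neg (Fin.succAbove_ne _ _)
      rw [sum_congr rfl fun l _ => this l, sum_const, card_univ, Fintype.card_fin, nsmul_eq_mul]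
    refine (sum_le_sum h3).trans (le_of_eq ?_)
    rw [sum_const, ← hk, nsmul_eq_mul, hrn]
    push_cast
    ring
  have hsmall : (1 + C + ((n' + 1 : ℕ) : ℚ) ^ 2) * ∑ x ∈ Y.erase j, ∑ l, |v x l| < 1 := by
    rw [hmQ]
    have h3 : (1 + C + (m : ℚ) ^ 2) ≤ 13 / 4 * (m ^ 2 * r) := by
      rw [hC]
      nlinarith
    have h4 : (0 : ℚ) ≤ ∑ x ∈ Y.erase j, ∑ l, |v x l| :=
      sum_nonneg fun x _ => sum_nonneg fun l _ => abs_nonneg _
    calc (1 + C + (m : ℚ) ^ 2) * ∑ x ∈ Y.erase j, ∑ l, |v x l|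
        ≤ 13 / 4 * (m ^ 2 * r) * (r * (9 * m ^ 2 * r * t)) :=
          mul_le_mul h3 hsum h4 (by positivity)
      _ = 117 / 4 / 32 * (t * (32 * m ^ 4 * r ^ 3)) := by ring
      _ < 1 := by rw [htmul]; norm_num
  -- `A` is prime to `q`
  have hqA : IsCoprime A (q : ℤ) := Nat.isCoprime_iff_coprime.2 (ZMod.val_coe_unit_coprime u)
  refine contra _ (H A hqA) (Hs A hqA) Y (hHz A) j κ ρ z v C hρC (hrel A) (fun x l => by
    simp only [v]; ring) (fun x hx l => hφ2 x (v x) (hvκ x) (hvφ x hx) l) hsmall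

end Pool.Agent.Helper25K9.PC
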